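import Pool.Agent.Lib.MP_9f84a9_co.F.StmF2

/-!
# MP_9f84a9_co, piece F20: positions and the chain metric
-/

set_option autoImplicit false

namespace Pool.Agent.Lib.MP_9f84a9_co

open Finset Filter Topology

/-- [F20] -/
theorem t_F20 (hA1 : S_A1) (hA2 : S_A2) (hA3 : S_A3) : S_F20 := by
  intro N K p hC
  obtain ⟨hcost, -⟩ := hA1 N
  obtain ⟨-, -, -, -, h5⟩ := hA2 N K (ce p) (hcost p) hC
  have h1 : ∀ x y, In K x → In K y → dist (pos p x) (pos p y) ≤ dK K (ce p) x y := by
    intro x y hx hy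
    refine hA3 N K (ce p) (ce p) hC ?_ ?_ ?_ x y hx hy
    · intro z _
      exact le_of_eq ((hcost p).self z)
    · intro u v w _ _ _
      exact (hcost p).tri u v w
    · intro u v _
      exact le_refl _
  have h2 : ∀ x y, Stp K x y → dK K (ce p) x y = dist (pos p x) (pos p y) := by
    intro x y hxy
    exact le_antisymm (h5 x y hxy) (h1 x y hxy.1 hxy.2.1)
  refine ⟨h1, h2, ?_⟩
  intro x y hxy he
  rw [h2 x y hxy, he, dist_self]

end Pool.Agent.Lib.MP_9f84a9_co
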