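import Pool.Agent.Lib.MP_9f84a9_co.F.StmF2

/-!
# MP_9f84a9_co, piece F21: from one-step inequalities to Lipschitz maps, and subcomplexes
-/

set_option autoImplicit false

namespace Pool.Agent.Lib.MP_9f84a9_co

open Finset Filter Topology

/-- [F21] -/
theorem t_F21 (hA2 : S_A2) (hA3 : S_A3) : S_F21 := by
  intro N K K' c c' hc hc' hK hK'
  obtain ⟨-, h2', -, h4', -⟩ := hA2 N K' c' hc' hK'
  refine ⟨?_, ?_⟩
  · intro F hF hs x y hx hy
    refine hA3 N K c (fun x y => dK K' c' (F x) (F y)) hK ?_ ?_ hs x y hx hy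
    · intro z hz
      exact le_of_eq (h2' _ (hF z hz))
    · intro u v w hu hv hw
      exact h4' _ _ _ (hF u hu) (hF v hv) (hF w hw)
  · intro hsub
    have hIn : ∀ x, In K x → In K' x := by
      rintro x ⟨h1, h2, f, hf, hxf⟩
      obtain ⟨g, hg, hfg⟩ := hsub f hf
      exact ⟨h1, h2, g, hg, fun v hv => hxf v fun h => hv (hfg h)⟩
    have hSt : ∀ x y, Stp K x y → Stp K' x y := by
      rintro x y ⟨hx, hy, f, hf, hxf, hyf⟩
      obtain ⟨g, hg, hfg⟩ := hsub f hf
      exact ⟨hIn x hx, hIn y hy, g, hg, fun v hv => hxf v fun h => hv (hfg h),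
        fun v hv => hyf v fun h => hv (hfg h)⟩
    refine ⟨hIn, hSt, ?_⟩
    intro x y hx hy
    obtain ⟨-, h2c, -, h4c, h5c⟩ := hA2 N K' c hc hK'
    refine hA3 N K c (fun x y => dK K' c x y) hK ?_ ?_ ?_ x y hx hy
    · intro z hz
      exact le_of_eq (h2c z (hIn z hz))
    · intro u v w hu hv hw
      exact h4c u v w (hIn u hu) (hIn v hv) (hIn w hw)
    · intro u v huv
      exact h5c u v (hSt u v huv)

end Pool.Agent.Lib.MP_9f84a9_co
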