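import Pool.Agent.Lib.MP_9f84a9_co.F.StmF2

/-!
# MP_9f84a9_co, piece F23: walking in a tree
-/

set_option autoImplicit false

namespace Pool.Agent.Lib.MP_9f84a9_co

open Finset Filter Topology

private theorem F23_claim {N : ℕ} (X : Pt N → Prop) (u₁ u₂ : Fin N) (hX2 : X (vx u₂))
    (B : Net N) : ∀ A : Net N, ¬ X A.top → (∀ u, A = Net.leaf u → u = u₁) → u₂ ∈ B.leaves →
    ∃ T', Net.Eqv (A, B) T' ∧ ¬ X T'.1.top ∧ X T'.2.top ∧ (∀ u, T'.1 = Net.leaf u → u = u₁) ∧
      (∀ u, T'.2 = Net.leaf u → u = u₂) := by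
  induction B with
  | leaf v =>
    intro A hA hA1 h2
    have hv : u₂ = v := by simpa [Net.leaves] using h2
    subst hv
    refine ⟨(A, Net.leaf u₂), Relation.ReflTransGen.refl, hA, hX2, hA1, ?_⟩
    intro u hu
    exact (Net.leaf.inj hu).symm
  | node z l r ihl ihr =>
    intro A hA hA1 h2
    by_cases hz : X z
    · refine ⟨(A, Net.node z l r), Relation.ReflTransGen.refl, hA, hz, hA1, ?_⟩
      intro u hu
      exact absurd hu (by simp)
    · have h2' : u₂ ∈ l.leaves ++ r.leaves := h2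
      rcases List.mem_append.1 h2' with h | h
      · obtain ⟨T', e1, e2⟩ := ihl (Net.node z r A) hz (fun u hu => absurd hu (by simp)) h
        refine ⟨T', ?_, e2⟩
        refine Relation.ReflTransGen.trans ?_ e1
        exact ((Relation.ReflTransGen.single (Net.Mv.sw A (Net.node z l r))).tail
          (Net.Mv.lf z l r A)).tail (Net.Mv.sw l (Net.node z r A))
      · obtain ⟨T', e1, e2⟩ := ihr (Net.node z l A) hz (fun u hu => absurd hu (by simp)) h
        refine ⟨T', ?_, e2⟩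
        refine Relation.ReflTransGen.trans ?_ e1
        exact ((Relation.ReflTransGen.single (Net.Mv.sw A (Net.node z l r))).tail
          (Net.Mv.rt z l r A)).tail (Net.Mv.sw r (Net.node z l A))

theorem t_F23 (hX3 : S_X3) : S_F23 := by
  intro N T X u₁ u₂ h1 h2 hX1 hX2
  obtain ⟨_, _, _, _, h5⟩ := hX3 N T T Relation.ReflTransGen.refl
  obtain ⟨T'', e1, e2⟩ := h5 u₁ h1
  obtain ⟨hp, _⟩ := hX3 N T T'' e1
  have h3 : u₂ ∈ T''.1.leaves ++ T''.2.leaves := hp.mem_iff.1 h2
  have hne : u₂ ≠ u₁ := by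
    rintro rfl
    exact hX1 hX2
  have h4 : u₂ ∈ T''.2.leaves := by
    rcases List.mem_append.1 h3 with h | h
    · rw [e2] at h
      exact absurd (by simpa [Net.leaves] using h) hne
    · exact h
  obtain ⟨T', f1, f2⟩ := F23_claim X u₁ u₂ hX2 T''.2 (Net.leaf u₁) hX1
    (fun u hu => (Net.leaf.inj hu).symm) h4
  refine ⟨T', e1.trans ?_, f2⟩
  have e3 : T'' = (Net.leaf u₁, T''.2) := Prod.ext e2 rfl
  rw [e3]
  exact f1

end Pool.Agent.Lib.MP_9f84a9_co
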