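import Pool.Agent.Lib.MP_9f84a9_co.F.StmF2

/-!
# MP_9f84a9_co, module F, piece F24
-/

set_option autoImplicit false

namespace Pool.Agent.Lib.MP_9f84a9_co

private theorem F24_top {N : ℕ} (A : Net N) :
    (∃ v ∈ A.leaves, A.top = vx v) ∨ A.top ∈ A.nodes := by
  cases A with
  | leaf v => exact Or.inl ⟨v, by simp [Net.leaves], rfl⟩
  | node z l r => exact Or.inr (by simp [Net.nodes, Net.top])

theorem t_F24 (hA1 : S_A1) (hB4 : S_B4) (hX3 : S_X3) : S_F24 := by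
  intro N Cl P q hq
  have h1 : ∀ v ∈ q.D.vl, In q.D.K (vx v) := by
    intro v hv
    obtain ⟨-, h2, -⟩ := hB4 N q.D hq.dok
    obtain ⟨f, hf, hvf⟩ := h2 v hv
    obtain ⟨-, -, -, -, h5, -⟩ := hA1 N
    exact (h5 q.D.K f v hf hvf).1
  refine ⟨h1, fun T' hT' => ?_⟩
  obtain ⟨hp1, hp2, -⟩ := hX3 N q.T T' hT'
  have hl : ∀ v ∈ T'.1.leaves ++ T'.2.leaves, In q.D.K (vx v) := fun v hv =>
    h1 v (hq.lvs v (hp1.mem_iff.2 hv))
  have hn : ∀ z ∈ T'.1.nodes ++ T'.2.nodes, In q.D.K z := fun z hz =>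
    hq.nods z (hp2.mem_iff.2 hz)
  constructor
  · rcases F24_top T'.1 with ⟨v, hv, h⟩ | h
    · rw [h]
      exact hl v (List.mem_append_left _ hv)
    · exact hn _ (List.mem_append_left _ h)
  · rcases F24_top T'.2 with ⟨v, hv, h⟩ | h
    · rw [h]
      exact hl v (List.mem_append_right _ hv)
    · exact hn _ (List.mem_append_right _ h)

end Pool.Agent.Lib.MP_9f84a9_co
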