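import Pool.Agent.Lib.MP_9f84a9_co.F.StmF2

/-!
# MP_9f84a9_co, piece F25: clamp retraction onto the `P` side
-/

set_option autoImplicit false

namespace Pool.Agent.Lib.MP_9f84a9_co

open Finset Filter Topology

namespace PF25

private noncomputable def tau (A B u : E) : ℝ :=
  max 0 (min 1 (inner ℝ (u - A) (B - A) / ‖B - A‖ ^ 2))

private theorem tau_nonneg (A B u : E) : 0 ≤ tau A B u := le_max_left _ _

private theorem tau_le_one (A B u : E) : tau A B u ≤ 1 :=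
  max_le zero_le_one (min_le_left _ _)

private theorem clamp_lip (s t : ℝ) : |max 0 (min 1 s) - max 0 (min 1 t)| ≤ |s - t| := by
  rw [abs_le]
  have h1 := le_abs_self (s - t)
  have h2 := neg_abs_le (s - t)
  have h3 := abs_nonneg (s - t)
  constructor <;> (simp only [max_def, min_def]; split_ifs <;> linarith)

private noncomputable def pr (A B u : E) : E := A + tau A B u • (B - A)

private theorem pr_lip (A B u v : E) : dist (pr A B u) (pr A B v) ≤ dist u v := by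
  unfold pr
  rw [dist_add_left, dist_eq_norm, ← sub_smul, norm_smul, Real.norm_eq_abs]
  by_cases hw : B - A = 0
  · rw [hw, norm_zero, mul_zero]; exact dist_nonneg
  · have hn : 0 < ‖B - A‖ := norm_pos_iff.mpr hw
    have h1 : |tau A B u - tau A B v| ≤
        |inner ℝ (u - A) (B - A) / ‖B - A‖ ^ 2 - inner ℝ (v - A) (B - A) / ‖B - A‖ ^ 2| :=
      clamp_lip _ _
    have h2 : inner ℝ (u - A) (B - A) / ‖B - A‖ ^ 2 - inner ℝ (v - A) (B - A) / ‖B - A‖ ^ 2 =
        inner ℝ (u - v) (B - A) / ‖B - A‖ ^ 2 := by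
      rw [← sub_div, ← inner_sub_left]
      congr 2
      abel
    rw [h2, abs_div, abs_of_pos (pow_pos hn 2)] at h1
    have h3 : |inner ℝ (u - v) (B - A)| ≤ ‖u - v‖ * ‖B - A‖ := abs_real_inner_le_norm _ _
    have h4 : |tau A B u - tau A B v| ≤ ‖u - v‖ * ‖B - A‖ / ‖B - A‖ ^ 2 :=
      le_trans h1 (div_le_div_of_nonneg_right h3 (pow_pos hn 2).le)
    calc |tau A B u - tau A B v| * ‖B - A‖ ≤ ‖u - v‖ * ‖B - A‖ / ‖B - A‖ ^ 2 * ‖B - A‖ :=
          mul_le_mul_of_nonneg_right h4 hn.le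
      _ = ‖u - v‖ := by field_simp
      _ = dist u v := (dist_eq_norm u v).symm

private theorem pr_seg (A B : E) (t : ℝ) (h0 : 0 ≤ t) (h1 : t ≤ 1) :
    pr A B (A + t • (B - A)) = A + t • (B - A) := by
  unfold pr
  by_cases hw : B - A = 0
  · rw [hw, smul_zero, smul_zero]
  · have hn : 0 < ‖B - A‖ := norm_pos_iff.mpr hw
    have : tau A B (A + t • (B - A)) = t := by
      unfold tau
      have e : inner ℝ (A + t • (B - A) - A) (B - A) / ‖B - A‖ ^ 2 = t := by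
        rw [add_sub_cancel_left, real_inner_smul_left, real_inner_self_eq_norm_sq]
        field_simp
      rw [e, min_eq_right h1, max_eq_right h0]
    rw [this]

private theorem mem_edge {N : ℕ} (a b : Fin N) (P : PT N) :
    ∃ f ∈ (Dsc.mk a b P PT.nil).K, a ∈ f ∧ b ∈ f := by
  cases P with
  | nil =>
    refine ⟨{a, b}, ?_, by simp, by simp⟩
    unfold Dsc.K
    rw [if_pos ⟨rfl, rfl⟩]
    exact Finset.mem_singleton_self _
  | node w l r =>
    refine ⟨{a, b, w}, ?_, by simp, by simp⟩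
    unfold Dsc.K
    rw [if_neg (fun h => by cases h.1)]
    exact Finset.mem_union_left _ (Finset.mem_insert_self _ _)

/-- the point of the edge `a b` with parameter `t` -/
private noncomputable def ep {N : ℕ} (a b : Fin N) (t : ℝ) : Pt N := (1 - t) • vx a + t • vx b

private theorem ep_facts {N : ℕ} {a b : Fin N} (hA1 : S_A1) {f : Finset (Fin N)} {K : Cx N}
    (hf : f ∈ K) (ha : a ∈ f) (hb : b ∈ f) {t : ℝ} (h0 : 0 ≤ t) (h1 : t ≤ 1) (p : Fin N → E) :
    In K (ep a b t) ∧ Sup (ep a b t) f ∧ pos p (ep a b t) = p a + t • (p b - p a) := by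
  obtain ⟨_, _, _, _, h5, h6, h7, h8, _⟩ := hA1 N
  obtain ⟨⟨ia0, ia1, _⟩, sa⟩ := h5 K f a hf ha
  obtain ⟨⟨ib0, ib1, _⟩, sb⟩ := h5 K f b hf hb
  obtain ⟨e1, e2, e3⟩ := h7 f (vx a) (vx b) t ia0 ia1 sa ib0 ib1 sb h0 h1
  refine ⟨⟨e1, e2, f, hf, e3⟩, e3, ?_⟩
  have := h8 p (vx a) (vx b) t
  unfold ep
  rw [this, h6, h6, sub_smul, one_smul, smul_sub]
  abel

private theorem eq_ep {N : ℕ} {a b : Fin N} (hab : a ≠ b) {x : Pt N} (h1 : ∑ v, x v = 1)
    (hs : ∀ v, v ≠ a → v ≠ b → x v = 0) : x = ep a b (x b) := by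
  have h2 : x a + x b = 1 := by
    rw [← h1, ← Finset.sum_subset (Finset.subset_univ ({a, b} : Finset (Fin N)))]
    · rw [Finset.sum_insert (by simpa using hab), Finset.sum_singleton]
    · intro v _ hv
      simp only [Finset.mem_insert, Finset.mem_singleton, not_or] at hv
      exact hs v hv.1 hv.2
  funext v
  unfold ep vx
  by_cases hva : v = a
  · subst hva
    simp only [Pi.add_apply, Pi.smul_apply, Pi.single_eq_same, Pi.single_eq_of_ne hab, smul_eq_mul]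
    linarith
  · by_cases hvb : v = b
    · subst hvb
      simp [Pi.single_eq_of_ne hva]
    · simp [Pi.single_eq_of_ne hva, Pi.single_eq_of_ne hvb, hs v hva hvb]

end PF25

open PF25 in
theorem t_F25 (hA1 : S_A1) (hA2 : S_A2) (hB4 : S_B4) (hB5 : S_B5) (hF21 : S_F21) : S_F25 := by
  intro N a b P R p hok
  classical
  obtain ⟨hc1, _⟩ := hA1 N
  have hce := hc1 p
  obtain ⟨_, _, _, _, _, hokP, hokR, h8, h9, h10⟩ := hB4 N (Dsc.mk a b P R) hok
  simp only at hokP hokR h8 h9 h10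
  have hCn := hB5 N _ hok
  have hCnP := hB5 N _ hokP
  have hnd : (a :: b :: (P.vs ++ R.vs)).Nodup := hok
  rw [List.nodup_cons, List.nodup_cons, List.nodup_append] at hnd
  obtain ⟨hna, hnb, _, _, hdis⟩ := hnd
  simp only [List.mem_cons, List.mem_append, not_or] at hna hnb
  have hab : a ≠ b := hna.1
  -- points of the `P` side vanish on `R.vs`
  have hPz : ∀ f ∈ (Dsc.mk a b P PT.nil).K, ∀ x : Pt N, Sup x f → ∀ v ∈ R.vs, x v = 0 := by
    intro f hf x hx v hv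
    apply hx
    intro hvf
    rcases (h9 f hf).2 v hvf with h | h | h
    · exact hna.2.2 (h ▸ hv)
    · exact hnb.2 (h ▸ hv)
    · exact hdis v h v hv rfl
  obtain ⟨e, he, hae, hbe⟩ := mem_edge a b P
  let F : Pt N → Pt N := fun x => if (∀ v ∈ R.vs, x v = 0) then x else ep a b (tau (p a) (p b) (pos p x))
  have hFP : ∀ f ∈ (Dsc.mk a b P PT.nil).K, ∀ x : Pt N, Sup x f → F x = x := by
    intro f hf x hx
    exact if_pos (hPz f hf x hx)
  have hFR : ∀ f ∈ (Dsc.mk b a R PT.nil).K, ∀ x : Pt N, (∀ v, 0 ≤ x v) → ∑ v, x v = 1 → Sup x f →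
      ∃ t : ℝ, 0 ≤ t ∧ t ≤ 1 ∧ F x = ep a b t ∧ p a + t • (p b - p a) = pr (p a) (p b) (pos p x) := by
    intro f hf x hx0 hx1 hxs
    by_cases hc : ∀ v ∈ R.vs, x v = 0
    · have hz : ∀ v, v ≠ a → v ≠ b → x v = 0 := by
        intro v hva hvb
        by_cases hvf : v ∈ f
        · rcases (h10 f hf).2 v hvf with h | h | h
          · exact absurd h hva
          · exact absurd h hvb
          · exact hc v h
        · exact hxs v hvf
      have hxe := eq_ep hab hx1 hz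
      have hb1 : x b ≤ 1 := by
        rw [← hx1]
        exact Finset.single_le_sum (f := x) (fun v _ => hx0 v) (Finset.mem_univ b)
      have hpos := (ep_facts hA1 he hae hbe (hx0 b) hb1 p).2.2
      refine ⟨x b, hx0 b, hb1, ?_, ?_⟩
      · rw [← hxe]
        exact if_pos hc
      · rw [← hxe] at hpos
        rw [hpos, pr_seg _ _ _ (hx0 b) hb1]
    · exact ⟨tau (p a) (p b) (pos p x), tau_nonneg _ _ _, tau_le_one _ _ _, if_neg hc, rfl⟩
  have hIn : ∀ x, In (Dsc.mk a b P R).K x → In (Dsc.mk a b P PT.nil).K (F x) := by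
    intro x hx
    obtain ⟨hx0, hx1, f, hf, hxs⟩ := hx
    rcases h8 f hf with h | h
    · rw [hFP f h x hxs]
      exact ⟨hx0, hx1, f, h, hxs⟩
    · obtain ⟨t, ht0, ht1, hFx, _⟩ := hFR f h x hx0 hx1 hxs
      rw [hFx]
      exact (ep_facts hA1 he hae hbe ht0 ht1 p).1
  obtain ⟨_, hsub⟩ := hF21 N (Dsc.mk a b P PT.nil).K (Dsc.mk a b P R).K (ce p) (ce p) hce hce hCnP hCn
  obtain ⟨hs1, _, hs3⟩ := hsub (fun f hf => (h9 f hf).1)
  obtain ⟨_, _, _, _, hstep⟩ := hA2 N (Dsc.mk a b P PT.nil).K (ce p) hce hCnP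
  refine ⟨F, hIn, ?_, ?_, hs3⟩
  · intro x hx
    obtain ⟨hx0, hx1, f, hf, hxs⟩ := hx
    exact ⟨hFP f hf x hxs, hs1 x ⟨hx0, hx1, f, hf, hxs⟩⟩
  · refine (hF21 N (Dsc.mk a b P R).K (Dsc.mk a b P PT.nil).K (ce p) (ce p) hce hce hCn hCnP).1
      F hIn ?_
    intro x y hxy
    obtain ⟨⟨hx0, hx1, _⟩, ⟨hy0, hy1, _⟩, f, hf, hxs, hys⟩ := hxy
    rcases h8 f hf with h | h
    · rw [hFP f h x hxs, hFP f h y hys]
      exact hstep x y ⟨⟨hx0, hx1, f, h, hxs⟩, ⟨hy0, hy1, f, h, hys⟩, f, h, hxs, hys⟩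
    · obtain ⟨t, ht0, ht1, hFx, hpx⟩ := hFR f h x hx0 hx1 hxs
      obtain ⟨s, hs0, hs1', hFy, hpy⟩ := hFR f h y hy0 hy1 hys
      obtain ⟨i1, i2, i3⟩ := ep_facts hA1 he hae hbe ht0 ht1 p
      obtain ⟨j1, j2, j3⟩ := ep_facts hA1 he hae hbe hs0 hs1' p
      rw [hFx, hFy]
      refine le_trans (hstep _ _ ⟨i1, j1, e, he, i2, j2⟩) ?_
      show dist (pos p (ep a b t)) (pos p (ep a b s)) ≤ dist (pos p x) (pos p y)
      rw [i3, j3, hpx, hpy]
      exact pr_lip _ _ _ _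

end Pool.Agent.Lib.MP_9f84a9_co
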