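import Pool.Agent.Lib.MP_9f84a9_co.F.StmF2

set_option autoImplicit false

namespace Pool.Agent.Lib.MP_9f84a9_co

open Finset Filter Topology

theorem t_F26 (hA1 : S_A1) (hA2 : S_A2) (hA3 : S_A3) : S_F26 := by
  classical
  intro N K p v X1 X2 hc hv hcov hstep x y hx hy hx1 hy2
  have hcost : IsCost (ce p) := (hA1 N).1 p
  obtain ⟨h0, h1, hs, ht, hle⟩ := hA2 N K (ce p) hcost hc
  let φ : Pt N → ℝ := fun x => if X1 x then - dK K (ce p) x (vx v) else dK K (ce p) x (vx v)
  have key := hA3 N K (ce p) (fun x y => φ y - φ x) hc (fun x _ => by simp)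
    (fun x y z _ _ _ => by show φ z - φ x ≤ (φ y - φ x) + (φ z - φ y); linarith)
    (fun x y hxy => by
      have hxK : In K x := hxy.1
      have hyK : In K y := hxy.2.1
      have hcxy := hle x y hxy
      have hnn := hcost.nonneg x y
      have t1 := ht x y (vx v) hxK hyK hv
      have t2 := ht y x (vx v) hyK hxK hv
      rw [hs y x] at t2
      have n1 := h0 x (vx v)
      have n2 := h0 y (vx v)
      simp only [φ]
      by_cases hX : X1 x <;> by_cases hY : X1 y
      · rw [if_pos hX, if_pos hY]; linarith
      · rw [if_pos hX, if_neg hY]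
        have hY2 : X2 y := (hcov y hyK).resolve_left hY
        have := hstep x y hxy hX hY2
        rw [hs (vx v) y] at this
        linarith
      · rw [if_neg hX, if_pos hY]; linarith
      · rw [if_neg hX, if_neg hY]; linarith) x y hx hy
  have hφx : φ x = - dK K (ce p) x (vx v) := if_pos hx1
  have hφy : φ y = dK K (ce p) y (vx v) := by
    by_cases hY : X1 y
    · have hst : Stp K y y := by
        obtain ⟨f, hf, hsf⟩ := hy.2.2
        exact ⟨hy, hy, f, hf, hsf, hsf⟩
      have h2 := hstep y y hst hY hy2
      rw [hcost.self y, hs (vx v) y] at h2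
      have n2 := h0 y (vx v)
      have : dK K (ce p) y (vx v) = 0 := by linarith
      simp only [φ]
      rw [if_pos hY, this, neg_zero]
    · exact if_neg hY
  simp only [hφx, hφy] at key
  rw [hs (vx v) y]
  linarith

end Pool.Agent.Lib.MP_9f84a9_co
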