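import Pool.Agent.Lib.MP_9f84a9_co.F.StmF2

/-! Piece F27. -/

set_option autoImplicit false

namespace Pool.Agent.Lib.MP_9f84a9_co

open Finset Filter Topology

private lemma f27_pos {N : ℕ} {a b : Fin N} {p : Fin N → E} (hab : p a = p b) {y : Pt N}
    (hs : ∑ v, y v = 1) (hy : Sup y {a, b}) : pos p y = p a := by
  have h1 : pos p y = ∑ v, y v • p a := by
    unfold pos
    apply sum_congr rfl
    intro v _
    by_cases hv : v ∈ ({a, b} : Finset (Fin N))
    · rw [mem_insert, mem_singleton] at hv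
      rcases hv with rfl | rfl
      · rfl
      · rw [hab]
    · rw [hy v hv, zero_smul, zero_smul]
  rw [h1, ← sum_smul, hs, one_smul]

private lemma f27_edge {N : ℕ} (a b : Fin N) (P R : PT N) :
    ∃ g ∈ (Dsc.mk a b P R).K, a ∈ g ∧ b ∈ g := by
  classical
  unfold Dsc.K
  by_cases h : P = PT.nil ∧ R = PT.nil
  · refine ⟨{a, b}, ?_, by simp, by simp⟩
    rw [if_pos h]
    exact mem_singleton_self _
  · simp only [h, if_false]
    rcases P with _ | ⟨w, l, r⟩
    · rcases R with _ | ⟨w, l, r⟩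
      · exact absurd ⟨rfl, rfl⟩ h
      · refine ⟨{b, a, w}, ?_, by simp, by simp⟩
        apply mem_union_right
        unfold PT.fac
        exact mem_insert_self _ _
    · refine ⟨{a, b, w}, ?_, by simp, by simp⟩
      apply mem_union_left
      unfold PT.fac
      exact mem_insert_self _ _

theorem t_F27 (hA1 : S_A1) (hA2 : S_A2) (hB4 : S_B4) (hB5 : S_B5) (hF20 : S_F20) (hF26 : S_F26) :
    S_F27 := by
  classical
  intro N a b P R p hok hab
  obtain ⟨_, b2, _, _, _, _, _, b8, b9, b10⟩ := hB4 N _ hok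
  have hCn : Cn (Dsc.mk a b P R).K := hB5 N _ hok
  have hcost : IsCost (ce p) := (hA1 N).1 p
  obtain ⟨_, _, _, _, ⟨a5, a6, _⟩⟩ := hA1 N
  obtain ⟨_, _, dsymm, dtri, dstp⟩ := hA2 N _ (ce p) hcost hCn
  have hF := (hF20 N _ p hCn).2.2
  -- the cover
  have hcov : ∀ x, In (Dsc.mk a b P R).K x →
      In (Dsc.mk a b P PT.nil).K x ∨ In (Dsc.mk b a R PT.nil).K x := by
    rintro x ⟨h1, h2, f, hf, h3⟩
    rcases b8 f hf with h | h
    · exact Or.inl ⟨h1, h2, f, h, h3⟩
    · exact Or.inr ⟨h1, h2, f, h, h3⟩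
  refine ⟨hcov, ?_⟩
  have ha : In (Dsc.mk a b P R).K (vx a) := by
    obtain ⟨f, hf, haf⟩ := b2 a (by simp [Dsc.vl])
    exact (a5 _ f a hf haf).1
  have hinP : ∀ x, In (Dsc.mk a b P PT.nil).K x → In (Dsc.mk a b P R).K x := by
    rintro x ⟨h1, h2, f, hf, h3⟩
    obtain ⟨⟨g, hg, hfg⟩, _⟩ := b9 f hf
    exact ⟨h1, h2, g, hg, fun v hv => h3 v (fun h => hv (hfg h))⟩
  have hinR : ∀ x, In (Dsc.mk b a R PT.nil).K x → In (Dsc.mk a b P R).K x := by
    rintro x ⟨h1, h2, f, hf, h3⟩
    obtain ⟨⟨g, hg, hfg⟩, _⟩ := b10 f hf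
    exact ⟨h1, h2, g, hg, fun v hv => h3 v (fun h => hv (hfg h))⟩
  -- disjointness
  have hdis : ∀ v, v ∈ P.vs → v ∈ R.vs → False := by
    have h : (a :: b :: (P.vs ++ R.vs)).Nodup := hok
    intro v h1 h2
    have h3 := (List.nodup_cons.1 (List.nodup_cons.1 h).2).2
    exact List.disjoint_of_nodup_append h3 h1 h2
  -- points supported in both kinds of facets
  have hab2 : ∀ (x : Pt N) (f g : Finset (Fin N)), f ∈ (Dsc.mk a b P PT.nil).K →
      g ∈ (Dsc.mk b a R PT.nil).K → Sup x f → Sup x g → Sup x {a, b} := by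
    intro x f g hf hg hxf hxg v hv
    rw [mem_insert, mem_singleton, not_or] at hv
    by_contra hne
    have h1 : v ∈ f := by by_contra h; exact hne (hxf v h)
    have h2 : v ∈ g := by by_contra h; exact hne (hxg v h)
    rcases (b9 f hf).2 v h1 with h | h | h
    · exact hv.1 h
    · exact hv.2 h
    · rcases (b10 g hg).2 v h2 with h' | h' | h'
      · exact hv.1 h'
      · exact hv.2 h'
      · exact hdis v h h'
  -- points supported in the diagonal are at distance zero from `vx a`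
  have hzero : ∀ x, In (Dsc.mk a b P R).K x → Sup x {a, b} →
      dK (Dsc.mk a b P R).K (ce p) (vx a) x = 0 := by
    intro x hx hs
    obtain ⟨g, hg, hag, hbg⟩ := f27_edge a b P R
    apply hF
    · refine ⟨ha, hx, g, hg, (a5 _ g a hg hag).2, ?_⟩
      intro v hv
      apply hs
      rw [mem_insert, mem_singleton, not_or]
      exact ⟨fun h => hv (h ▸ hag), fun h => hv (h ▸ hbg)⟩
    · rw [a6, f27_pos hab hx.2.1 hs]
  have key := hF26 N (Dsc.mk a b P R).K p a (fun x => In (Dsc.mk a b P PT.nil).K x)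
    (fun x => In (Dsc.mk b a R PT.nil).K x) hCn ha hcov (by
      intro x y hst hx hy
      obtain ⟨f, hf, hxf, hyf⟩ := hst.2.2
      have hxK := hst.1
      have hyK := hst.2.1
      have hxy := dstp x y hst
      rcases b8 f hf with h | h
      · obtain ⟨g, hg, hyg⟩ := hy.2.2
        have h1 := hzero y hyK (hab2 y f g h hg hyf hyg)
        have h2 := dtri x y (vx a) hxK hyK ha
        rw [dsymm y (vx a), h1] at h2
        rw [h1]
        linarith
      · obtain ⟨g, hg, hxg⟩ := hx.2.2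
        have h1 := hzero x hxK (hab2 x g f hg h hxg hxf)
        have h2 := dtri (vx a) x y ha hxK hyK
        rw [h1] at h2
        rw [dsymm x (vx a), h1]
        linarith)
  intro x y hx hy
  exact key x y (hinP x hx) (hinR y hy) hx hy

end Pool.Agent.Lib.MP_9f84a9_co
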