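import Pool.Agent.Lib.MP_9f84a9_co.F.StmF2

/-!
# MP_9f84a9_co, module F: the piece F28 (contraction of a zero boundary edge, metrically)
-/

set_option autoImplicit false

namespace Pool.Agent.Lib.MP_9f84a9_co

open Finset Filter Topology

private theorem f28_fac {N : ℕ} (P : PT N) : ∀ (u v z : Fin N) (f : Finset (Fin N)),
    f ∈ P.fac u v → z ∈ f → z = u ∨ z = v ∨ z ∈ P.vs := by
  induction P with
  | nil => intro u v z f hf; simp [PT.fac] at hf
  | node w l r ihl ihr =>
    intro u v z f hf hz
    unfold PT.fac at hf
    unfold PT.vs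
    rw [Finset.mem_insert, Finset.mem_union] at hf
    rcases hf with rfl | hf | hf
    · simp only [Finset.mem_insert, Finset.mem_singleton] at hz
      rcases hz with h | h | h
      · exact Or.inl h
      · exact Or.inr (Or.inl h)
      · exact Or.inr (Or.inr (by rw [h]; simp))
    · rcases ihl u w z f hf hz with h | h | h
      · exact Or.inl h
      · exact Or.inr (Or.inr (by rw [h]; simp))
      · exact Or.inr (Or.inr (by simp [h]))
    · rcases ihr w v z f hf hz with h | h | h
      · exact Or.inr (Or.inr (by rw [h]; simp))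
      · exact Or.inr (Or.inl h)
      · exact Or.inr (Or.inr (by simp [h]))

/-- move the weight of `u` to `v` -/
private def f28_mv {N : ℕ} (u v : Fin N) (x : Pt N) : Pt N := x + x u • (vx v - vx u)

private theorem f28_mv_self {N : ℕ} {u v : Fin N} (h : u ≠ v) (x : Pt N) : f28_mv u v x u = 0 := by
  simp [f28_mv, vx, h]

private theorem f28_mv_to {N : ℕ} {u v : Fin N} (h : u ≠ v) (x : Pt N) :
    f28_mv u v x v = x v + x u := by
  simp [f28_mv, vx, h.symm]

private theorem f28_mv_ne {N : ℕ} {u v z : Fin N} (h1 : z ≠ u) (h2 : z ≠ v) (x : Pt N) :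
    f28_mv u v x z = x z := by
  simp [f28_mv, vx, h1, h2]

private theorem f28_mv_sum {N : ℕ} (u v : Fin N) (x : Pt N) :
    ∑ z, f28_mv u v x z = ∑ z, x z := by
  simp [f28_mv, vx, Finset.sum_add_distrib, ← Finset.mul_sum]

private theorem f28_mv_nn {N : ℕ} {u v : Fin N} (h : u ≠ v) (x : Pt N) (hx : ∀ z, 0 ≤ x z)
    (z : Fin N) : 0 ≤ f28_mv u v x z := by
  by_cases h1 : z = u
  · rw [h1, f28_mv_self h]
  · by_cases h2 : z = v
    · rw [h2, f28_mv_to h]; exact add_nonneg (hx _) (hx _)
    · rw [f28_mv_ne h1 h2]; exact hx z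

private theorem f28_mv_pos {N : ℕ} {u v : Fin N} (p : Fin N → E) (hp : p u = p v) (x : Pt N) :
    pos p (f28_mv u v x) = pos p x := by
  unfold pos f28_mv vx
  simp only [Pi.add_apply, Pi.smul_apply, Pi.sub_apply, smul_eq_mul, add_smul, mul_smul, sub_smul,
    Finset.sum_add_distrib, ← Finset.smul_sum, Finset.sum_sub_distrib]
  simp [Pi.single_apply, ite_smul, hp]

theorem t_F28 (hA1 : S_A1) (hA2 : S_A2) (hA3 : S_A3) (hB4 : S_B4) (hB5 : S_B5) (hB10 : S_B10)
    (hF20 : S_F20) (hF21 : S_F21) : S_F28 := by
  classical
  intro N a b w l r p hok hp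
  obtain ⟨hok', hperm, hfac, hfac', -⟩ := hB10 N a b w l r hok
  set D : Dsc N := Dsc.mk a b (PT.node w l r) PT.nil with hD
  set D' : Dsc N := Dsc.mk a w l r with hD'
  have hcn : Cn D.K := hB5 N D hok
  have hcn' : Cn D'.K := hB5 N D' hok'
  have hcost : IsCost (ce p) := (hA1 N).1 p
  obtain ⟨hA2a, hA2b, hA2c, hA2d, hA2e⟩ := hA2 N D.K (ce p) hcost hcn
  have hnd : (a :: b :: ((w :: (l.vs ++ r.vs)) ++ [])).Nodup := hok
  simp only [List.nodup_cons, List.nodup_append, List.mem_cons, List.mem_append, List.append_nil,
    not_or] at hnd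
  obtain ⟨⟨hab, haw, hal, har⟩, ⟨hbw, hbl, hbr⟩, ⟨hwl, hwr⟩, -, -, hlr⟩ := hnd
  have hKD : D.K = insert {a, b, w} (l.fac a w ∪ r.fac w b) := by
    unfold Dsc.K
    rw [if_neg (by simp [hD])]
    show insert {a, b, w} (l.fac a w ∪ r.fac w b) ∪ ∅ = _
    rw [Finset.union_empty]
  -- the map F
  have hFsup : ∀ (x : Pt N) (f : Finset (Fin N)), Sup x f →
      Sup (f28_mv b a x) (f.image fun v => if v = b then a else v) := by
    intro x f hx v hv
    rw [Finset.mem_image] at hv
    by_cases h1 : v = b
    · rw [h1, f28_mv_self (Ne.symm hab)]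
    · by_cases h2 : v = a
      · rw [h2, f28_mv_to (Ne.symm hab)]
        have ha : a ∉ f := fun h => hv ⟨a, h, by rw [if_neg hab, h2]⟩
        have hb : b ∉ f := fun h => hv ⟨b, h, by rw [if_pos rfl, h2]⟩
        rw [hx a ha, hx b hb, add_zero]
      · rw [f28_mv_ne h1 h2]
        exact hx v fun h => hv ⟨v, h, by rw [if_neg h1]⟩
  have hFin : ∀ (x : Pt N) (f : Finset (Fin N)), (∀ v, 0 ≤ x v) → ∑ v, x v = 1 → f ∈ D.K →
      Sup x f → ∃ f' ∈ D'.K, f.image (fun v => if v = b then a else v) ⊆ f' ∧
        Sup (f28_mv b a x) f' ∧ In D'.K (f28_mv b a x) := by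
    intro x f h0 h1 hf hx
    obtain ⟨f', hf', hsub⟩ := hfac f hf
    have hs : Sup (f28_mv b a x) f' := fun v hv => hFsup x f hx v fun h => hv (hsub h)
    exact ⟨f', hf', hsub, hs, f28_mv_nn (Ne.symm hab) x h0, by rw [f28_mv_sum]; exact h1, f', hf', hs⟩
  have hInF : ∀ x, In D.K x → In D'.K (f28_mv b a x) := by
    rintro x ⟨h0, h1, f, hf, hx⟩
    obtain ⟨f', -, -, -, h⟩ := hFin x f h0 h1 hf hx
    exact h
  have hA2' := hA2 N D'.K (ce p) hcost hcn'
  refine ⟨f28_mv b a, hInF, ?_, ?_, ?_⟩
  · apply (hF21 N D.K D'.K (ce p) (ce p) hcost hcost hcn hcn').1 _ hInF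
    rintro x y ⟨hx, hy, f, hf, hxf, hyf⟩
    obtain ⟨f', hf', hsub, -⟩ := hFin x f hx.1 hx.2.1 hf hxf
    have hst : Stp D'.K (f28_mv b a x) (f28_mv b a y) :=
      ⟨hInF x hx, hInF y hy, f', hf', fun v hv => hFsup x f hxf v fun h => hv (hsub h),
        fun v hv => hFsup y f hyf v fun h => hv (hsub h)⟩
    refine (hA2'.2.2.2.2 _ _ hst).trans ?_
    unfold ce
    rw [f28_mv_pos p hp.symm, f28_mv_pos p hp.symm]
  · intro v
    by_cases h : v = b
    · rw [if_pos h, h]
      simp [f28_mv, vx]
    · rw [if_neg h]
      simp [f28_mv, vx, Ne.symm h]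
  · -- the reverse inequality
    have hbK' : ∀ x, In D'.K x → x b = 0 := by
      rintro x ⟨-, -, f', hf', hx⟩
      exact hx b (hfac' f' hf').1
    have hGsup : ∀ (x : Pt N) (f : Finset (Fin N)), x b = 0 → a ∉ f →
        Sup x (f.image fun v => if v = b then a else v) → Sup (f28_mv a b x) f := by
      intro x f hxb haf hx v hv
      by_cases h1 : v = a
      · rw [h1, f28_mv_self hab]
      · by_cases h2 : v = b
        · rw [h2, f28_mv_to hab, hxb, zero_add]
          apply hx
          rw [Finset.mem_image]
          rintro ⟨u, hu, hua⟩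
          by_cases h3 : u = b
          · exact hv (by rw [h2, ← h3]; exact hu)
          · rw [if_neg h3] at hua
            exact haf (by rw [← hua]; exact hu)
        · rw [f28_mv_ne h1 h2]
          apply hx
          rw [Finset.mem_image]
          rintro ⟨u, hu, huv⟩
          by_cases h3 : u = b
          · rw [if_pos h3] at huv; exact h1 huv.symm
          · rw [if_neg h3] at huv; exact hv (by rw [← huv]; exact hu)
    have hGin : ∀ (x : Pt N) (f : Finset (Fin N)), In D'.K x → f ∈ D.K → a ∉ f →
        Sup x (f.image fun v => if v = b then a else v) → In D.K (f28_mv a b x) := by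
      intro x f hxK hf haf hx
      exact ⟨f28_mv_nn hab x hxK.1, by rw [f28_mv_sum]; exact hxK.2.1, f, hf,
        hGsup x f (hbK' x hxK) haf hx⟩
    set lift : Pt N → Pt N := fun x => if In D.K x then x else f28_mv a b x with hlift
    have hlK : ∀ x, In D.K x → lift x = x := fun x hx => if_pos hx
    have hlG : ∀ (x : Pt N) (f : Finset (Fin N)), In D'.K x → f ∈ D.K → a ∉ f →
        Sup x (f.image fun v => if v = b then a else v) →
        In D.K (lift x) ∧ dK D.K (ce p) (lift x) (f28_mv a b x) = 0 := by
      intro x f hxK hf haf hx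
      have hG := hGin x f hxK hf haf hx
      by_cases hxD : In D.K x
      · rw [hlK x hxD]
        refine ⟨hxD, ?_⟩
        by_cases hxa : x a = 0
        · have : f28_mv a b x = x := by
            unfold f28_mv; rw [hxa, zero_smul, add_zero]
          rw [this]; exact hA2b x hxD
        · obtain ⟨h0, h1, f1, hf1, hx1⟩ := hxD
          have haf1 : a ∈ f1 := by
            by_contra h
            exact hxa (hx1 a h)
          have hfr : f ∈ r.fac w b := by
            have hb : b ∈ f := by
              have h : a ∈ f.image fun v => if v = b then a else v := by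
                by_contra h
                exact hxa (hx a h)
              obtain ⟨u, hu, hua⟩ := Finset.mem_image.1 h
              by_cases h3 : u = b
              · rw [← h3]; exact hu
              · rw [if_neg h3] at hua; exact absurd (by rw [← hua]; exact hu) haf
            rw [hKD, Finset.mem_insert, Finset.mem_union] at hf
            rcases hf with h | h | h
            · exact absurd (by rw [h]; simp) haf
            · rcases f28_fac l a w b f h hb with h4 | h4 | h4
              · exact absurd h4.symm hab
              · exact absurd h4 hbw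
              · exact absurd h4 hbl
            · exact h
          have hv : ∀ v, v ≠ a → x v ≠ 0 → v = w := by
            intro v hva hxv
            have hvb : v ≠ b := by rintro rfl; exact hxv (hbK' x hxK)
            have hv1 : v ∈ f1 := by
              by_contra h; exact hxv (hx1 v h)
            have hv2 : v ∈ f := by
              have h : v ∈ f.image fun v => if v = b then a else v := by
                by_contra h
                exact hxv (hx v h)
              obtain ⟨u, hu, huv⟩ := Finset.mem_image.1 h
              by_cases h3 : u = b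
              · rw [if_pos h3] at huv; exact absurd huv.symm hva
              · rw [if_neg h3] at huv; rw [← huv]; exact hu
            rcases f28_fac r w b v f hfr hv2 with h4 | h4 | h4
            · exact h4
            · exact absurd h4 hvb
            · rw [hKD, Finset.mem_insert, Finset.mem_union] at hf1
              rcases hf1 with h | h | h
              · rw [h] at hv1
                simp only [Finset.mem_insert, Finset.mem_singleton] at hv1
                rcases hv1 with h5 | h5 | h5
                · exact absurd h5 hva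
                · exact absurd h5 hvb
                · exact h5
              · rcases f28_fac l a w v f1 h hv1 with h5 | h5 | h5
                · exact absurd h5 hva
                · exact h5
                · exact absurd rfl (hlr v h5 v h4)
              · rcases f28_fac r w b a f1 h haf1 with h5 | h5 | h5
                · exact absurd h5 haw
                · exact absurd h5 hab
                · exact absurd h5 har
          have hmem : ({a, b, w} : Finset (Fin N)) ∈ D.K := by
            rw [hKD]; exact Finset.mem_insert_self _ _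
          have hs1 : Sup x {a, b, w} := by
            intro v hv0
            by_contra h
            simp only [Finset.mem_insert, Finset.mem_singleton, not_or] at hv0
            exact hv0.2.2 (hv v hv0.1 h)
          have hs2 : Sup (f28_mv a b x) {a, b, w} := by
            intro v hv0
            have hv1 := hv0
            simp only [Finset.mem_insert, Finset.mem_singleton, not_or] at hv0
            rw [f28_mv_ne hv0.1 hv0.2.1]
            exact hs1 v hv1
          exact (hF20 N D.K p hcn).2.2 x _ ⟨⟨h0, h1, f1, hf1, hx1⟩, hG, _, hmem, hs1, hs2⟩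
            (f28_mv_pos p hp x).symm
      · have : lift x = f28_mv a b x := if_neg hxD
        rw [this]
        exact ⟨hG, hA2b _ hG⟩
    have hlin : ∀ x, In D'.K x → In D.K (lift x) := by
      intro x hx
      obtain ⟨h0, h1, f', hf', hxf⟩ := hx
      obtain ⟨-, f, hf, h | ⟨haf, himg⟩⟩ := hfac' f' hf'
      · have hxD : In D.K x := ⟨h0, h1, f, hf, fun v hv => hxf v fun hv' => hv (h hv')⟩
        rw [hlK x hxD]; exact hxD
      · rw [himg] at hxf
        exact (hlG x f ⟨h0, h1, f', hf', by rw [himg]; exact hxf⟩ hf haf hxf).1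
    have hmain := hA3 N D'.K (ce p) (fun x y => dK D.K (ce p) (lift x) (lift y)) hcn'
      (fun x hx => (hA2b _ (hlin x hx)).le)
      (fun x y z hx hy hz => hA2d _ _ _ (hlin x hx) (hlin y hy) (hlin z hz)) (by
        rintro x y ⟨hx, hy, f', hf', hxf, hyf⟩
        obtain ⟨-, f, hf, h | ⟨haf, himg⟩⟩ := hfac' f' hf'
        · have hxs : Sup x f := fun v hv => hxf v fun hv' => hv (h hv')
          have hys : Sup y f := fun v hv => hyf v fun hv' => hv (h hv')
          have hxD : In D.K x := ⟨hx.1, hx.2.1, f, hf, hxs⟩
          have hyD : In D.K y := ⟨hy.1, hy.2.1, f, hf, hys⟩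
          show dK D.K (ce p) (lift x) (lift y) ≤ ce p x y
          rw [hlK x hxD, hlK y hyD]
          exact hA2e x y ⟨hxD, hyD, f, hf, hxs, hys⟩
        · rw [himg] at hxf hyf
          obtain ⟨hlx, hdx⟩ := hlG x f hx hf haf hxf
          obtain ⟨hly, hdy⟩ := hlG y f hy hf haf hyf
          have hGx := hGin x f hx hf haf hxf
          have hGy := hGin y f hy hf haf hyf
          have h1 := hA2d _ _ _ hlx hGx hly
          have h2 := hA2d _ _ _ hGx hGy hly
          have h3 := hA2e _ _ ⟨hGx, hGy, f, hf, hGsup x f (hbK' x hx) haf hxf,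
            hGsup y f (hbK' y hy) haf hyf⟩
          have h4 : ce p (f28_mv a b x) (f28_mv a b y) = ce p x y := by
            unfold ce; rw [f28_mv_pos p hp, f28_mv_pos p hp]
          have h5 : dK D.K (ce p) (f28_mv a b y) (lift y) = 0 := by rw [hA2c]; exact hdy
          show dK D.K (ce p) (lift x) (lift y) ≤ ce p x y
          linarith)
    intro v hv v' hv'
    have hin : ∀ u ∈ D'.vl, In D.K (vx u) ∧ In D'.K (vx u) := by
      intro u hu
      constructor
      · obtain ⟨f, hf, huf⟩ := (hB4 N D hok).2.1 u (hperm.mem_iff.2 (List.mem_cons_of_mem _ hu))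
        exact ((hA1 N).2.2.2.2.1 D.K f u hf huf).1
      · obtain ⟨f, hf, huf⟩ := (hB4 N D' hok').2.1 u hu
        exact ((hA1 N).2.2.2.2.1 D'.K f u hf huf).1
    have := hmain (vx v) (vx v') (hin v hv).2 (hin v' hv').2
    rw [hlK _ (hin v hv).1, hlK _ (hin v' hv').1] at this
    exact this

end Pool.Agent.Lib.MP_9f84a9_co
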