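import Pool.Agent.Lib.MP_9f84a9_co.F.StmF2

/-!
Piece F29 (MP_9f84a9): the flip map.
-/

set_option autoImplicit false

namespace Pool.Agent.Lib.MP_9f84a9_co

open Finset Filter Topology

namespace PF29

variable {N : ℕ}

private noncomputable def mm (a b : Fin N) (s : ℝ) (y : Pt N) : ℝ := min (y a / (1 - s)) (y b / s)

private noncomputable def FF (a b w x : Fin N) (s t : ℝ) (y : Pt N) : Pt N :=
  fun v => y v - mm a b s y * (((1 - s) * vx a v + s * vx b v) - ((1 - t) * vx x v + t * vx w v))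

theorem sub1 (a b w x : Fin N) : ({a, b, w} : Finset (Fin N)) ⊆ {a, b, w, x} := by
  intro v hv
  simp only [Finset.mem_insert, Finset.mem_singleton] at hv ⊢
  rcases hv with h | h | h
  · exact Or.inl h
  · exact Or.inr (Or.inl h)
  · exact Or.inr (Or.inr (Or.inl h))

theorem sub2 (a b w x : Fin N) : ({a, b, x} : Finset (Fin N)) ⊆ {a, b, w, x} := by
  intro v hv
  simp only [Finset.mem_insert, Finset.mem_singleton] at hv ⊢
  rcases hv with h | h | h
  · exact Or.inl h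
  · exact Or.inr (Or.inl h)
  · exact Or.inr (Or.inr (Or.inr h))

theorem sub3 (a b w x v : Fin N) (h1 : v ≠ a) (h2 : v ≠ b) (h3 : v ≠ w) (h4 : v ≠ x) :
    v ∉ ({a, b, w, x} : Finset (Fin N)) := by
  simp only [Finset.mem_insert, Finset.mem_singleton, not_or]
  exact ⟨h1, h2, h3, h4⟩

private theorem vx_self (v : Fin N) : vx v v = 1 := by simp [vx]

private theorem vx_ne (v u : Fin N) (h : u ≠ v) : vx v u = 0 := by simp [vx, h]

private theorem mm_nonneg (a b : Fin N) (s : ℝ) (hs0 : 0 < s) (hs1 : s < 1) (y : Pt N)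
    (hy : ∀ v, 0 ≤ y v) : 0 ≤ mm a b s y :=
  le_min (div_nonneg (hy a) (by linarith)) (div_nonneg (hy b) hs0.le)

private theorem mm_a (a b : Fin N) (s : ℝ) (hs1 : s < 1) (y : Pt N) :
    mm a b s y * (1 - s) ≤ y a := by
  have h : mm a b s y ≤ y a / (1 - s) := min_le_left _ _
  have h1 : 0 < 1 - s := by linarith
  calc mm a b s y * (1 - s) ≤ y a / (1 - s) * (1 - s) := mul_le_mul_of_nonneg_right h h1.le
    _ = y a := by field_simp

private theorem mm_b (a b : Fin N) (s : ℝ) (hs0 : 0 < s) (y : Pt N) :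
    mm a b s y * s ≤ y b := by
  have h : mm a b s y ≤ y b / s := min_le_right _ _
  calc mm a b s y * s ≤ y b / s * s := mul_le_mul_of_nonneg_right h hs0.le
    _ = y b := by field_simp

private theorem FF_sum (a b w x : Fin N) (s t : ℝ) (y : Pt N) (hy : ∑ v, y v = 1) :
    ∑ v, FF a b w x s t y v = 1 := by
  have h : ∀ u : Fin N, ∑ v, vx u v = (1 : ℝ) := by
    intro u
    simp [vx]
  unfold FF
  rw [Finset.sum_sub_distrib, ← Finset.mul_sum, Finset.sum_sub_distrib, Finset.sum_add_distrib,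
    Finset.sum_add_distrib, ← Finset.mul_sum, ← Finset.mul_sum, ← Finset.mul_sum, ← Finset.mul_sum,
    h, h, h, h, hy]
  ring

private theorem pos_lin (p : Fin N → E) (y z : Pt N) (c : ℝ) :
    pos p (fun v => y v - c * z v) = pos p y - c • pos p z := by
  simp only [pos, sub_smul, mul_smul, Finset.sum_sub_distrib, Finset.smul_sum]

private theorem pos_vx4 (p : Fin N → E) (a b w x : Fin N) (s t : ℝ) :
    pos p (fun v => ((1 - s) * vx a v + s * vx b v) - ((1 - t) * vx x v + t * vx w v))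
      = ((1 - s) • p a + s • p b) - ((1 - t) • p x + t • p w) := by
  have h : ∀ u : Fin N, ∑ v, vx u v • p v = p u := by
    intro u
    rw [Finset.sum_eq_single u]
    · rw [vx_self, one_smul]
    · intro v _ hv
      rw [vx_ne u v hv, zero_smul]
    · intro hu
      exact absurd (Finset.mem_univ u) hu
  simp only [pos, sub_smul, add_smul, mul_smul, Finset.sum_sub_distrib, Finset.sum_add_distrib,
    ← Finset.smul_sum, h]

private theorem FF_pos (p : Fin N → E) (a b w x : Fin N) (s t : ℝ) (y : Pt N)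
    (hp : (1 - s) • p a + s • p b = (1 - t) • p x + t • p w) :
    pos p (FF a b w x s t y) = pos p y := by
  unfold FF
  rw [pos_lin p y (fun v => ((1 - s) * vx a v + s * vx b v) - ((1 - t) * vx x v + t * vx w v)),
    pos_vx4, hp, sub_self, smul_zero, sub_zero]

private theorem FF_fix (a b w x : Fin N) (s t : ℝ) (hs0 : 0 < s) (hs1 : s < 1) (y : Pt N)
    (hy : ∀ v, 0 ≤ y v) (h : y a = 0 ∨ y b = 0) : FF a b w x s t y = y := by
  have hm : mm a b s y = 0 := by
    apply le_antisymm _ (mm_nonneg a b s hs0 hs1 y hy)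
    rcases h with h | h
    · have : mm a b s y ≤ y a / (1 - s) := min_le_left _ _
      rwa [h, zero_div] at this
    · have : mm a b s y ≤ y b / s := min_le_right _ _
      rwa [h, zero_div] at this
  funext v
  simp [FF, hm]

private theorem FF_nonneg (a b w x : Fin N) (s t : ℝ) (hs0 : 0 < s) (hs1 : s < 1) (ht0 : 0 ≤ t)
    (ht1 : t ≤ 1) (hab : a ≠ b) (y : Pt N) (hy : ∀ v, 0 ≤ y v) (v : Fin N) :
    0 ≤ FF a b w x s t y v := by
  have hm := mm_nonneg a b s hs0 hs1 y hy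
  have h1 := mm_a a b s hs1 y
  have h2 := mm_b a b s hs0 y
  have hv : ∀ u : Fin N, 0 ≤ vx u v := by
    intro u
    unfold vx
    by_cases h : v = u
    · rw [h]; simp
    · simp [h]
  have h3 : 0 ≤ mm a b s y * ((1 - t) * vx x v + t * vx w v) :=
    mul_nonneg hm (add_nonneg (mul_nonneg (by linarith) (hv x)) (mul_nonneg ht0 (hv w)))
  unfold FF
  by_cases hva : v = a
  · subst hva
    rw [vx_self, vx_ne b v hab]
    nlinarith
  · by_cases hvb : v = b
    · subst hvb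
      rw [vx_self, vx_ne a v hva]
      nlinarith
    · rw [vx_ne a v hva, vx_ne b v hvb]
      have := hy v
      nlinarith

private theorem FF_supb (a b w x : Fin N) (s t : ℝ) (hs0 : 0 < s) (hs1 : s < 1)
    (hab : a ≠ b) (hbw : b ≠ w) (hbx : b ≠ x) (y : Pt N)
    (hS : ∀ v, v ≠ a → v ≠ b → v ≠ w → v ≠ x → y v = 0) (hh : (1 - s) * y b ≤ s * y a) :
    Sup (FF a b w x s t y) {a, x, w} := by
  have hm : mm a b s y = y b / s := by
    apply min_eq_right
    rw [div_le_div_iff₀ hs0 (by linarith)]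
    linarith
  intro v hv
  simp only [Finset.mem_insert, Finset.mem_singleton, not_or] at hv
  obtain ⟨hva, hvx, hvw⟩ := hv
  by_cases hvb : v = b
  · subst hvb
    simp only [FF, hm]
    rw [vx_self, vx_ne a v hva, vx_ne x v hvx, vx_ne w v hvw]
    field_simp
    ring
  · simp only [FF]
    rw [vx_ne a v hva, vx_ne b v hvb, vx_ne x v hvx, vx_ne w v hvw, hS v hva hvb hvw hvx]
    ring

private theorem FF_supa (a b w x : Fin N) (s t : ℝ) (hs0 : 0 < s) (hs1 : s < 1)
    (y : Pt N)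
    (hS : ∀ v, v ≠ a → v ≠ b → v ≠ w → v ≠ x → y v = 0) (hh : s * y a ≤ (1 - s) * y b) :
    Sup (FF a b w x s t y) {b, x, w} := by
  have h1s : 0 < 1 - s := by linarith
  have hm : mm a b s y = y a / (1 - s) := by
    apply min_eq_left
    rw [div_le_div_iff₀ h1s hs0]
    linarith
  intro v hv
  simp only [Finset.mem_insert, Finset.mem_singleton, not_or] at hv
  obtain ⟨hvb, hvx, hvw⟩ := hv
  by_cases hva : v = a
  · subst hva
    simp only [FF, hm]
    rw [vx_self, vx_ne b v hvb, vx_ne x v hvx, vx_ne w v hvw]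
    field_simp
    ring
  · simp only [FF]
    rw [vx_ne a v hva, vx_ne b v hvb, vx_ne x v hvx, vx_ne w v hvw, hS v hva hvb hvw hvx]
    ring

end PF29

open PF29 in
private theorem PF29.core (hA1 : S_A1) (hA2 : S_A2) (hF21 : S_F21) (N : ℕ) (M K K' : Cx N) (a b w x : Fin N)
    (p : Fin N → E) (s t : ℝ) (hab : a ≠ b) (hbw : b ≠ w) (hbx : b ≠ x)
    (hM : ∀ f ∈ M, ¬ (a ∈ f ∧ b ∈ f)) (hC : Cn K) (hC' : Cn K')
    (hs0 : 0 < s) (hs1 : s < 1) (ht0 : 0 ≤ t) (ht1 : t ≤ 1)
    (hp : (1 - s) • p a + s • p b = (1 - t) • p x + t • p w)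
    (hKf : ∀ f ∈ K, f ∈ M ∨ f ⊆ ({a, b, w, x} : Finset (Fin N)))
    (m1 : ({a, x, w} : Finset (Fin N)) ∈ K') (m2 : ({b, x, w} : Finset (Fin N)) ∈ K')
    (hMK' : ∀ f ∈ M, f ∈ K') :
    ∃ F : Pt N → Pt N,
      (∀ y, In K y → In K' (F y) ∧ pos p (F y) = pos p y) ∧
      (∀ y z, In K y → In K z → dK K' (ce p) (F y) (F z) ≤ dK K (ce p) y z) ∧
      (∀ v, F (vx v) = vx v) := by
  have hc : IsCost (ce p) := (hA1 N).1 p
  have A8 := (hA1 N).2.2.2.2.2.2.2.1
  have B3 := (hA2 N K' (ce p) hc hC').2.2.1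
  have B4 := (hA2 N K' (ce p) hc hC').2.2.2.1
  have B5 := (hA2 N K' (ce p) hc hC').2.2.2.2
  set F : Pt N → Pt N := FF a b w x s t with hF
  have c2 : ∀ y, pos p (F y) = pos p y := fun y => FF_pos p a b w x s t y hp
  have cb : ∀ y : Pt N, (∀ v, 0 ≤ y v) → ∑ v, y v = 1 →
      (∀ v, v ≠ a → v ≠ b → v ≠ w → v ≠ x → y v = 0) → (1 - s) * y b ≤ s * y a →
      In K' (F y) ∧ Sup (F y) {a, x, w} := fun y h1 h2 h3 h4 =>
    have h5 := FF_supb a b w x s t hs0 hs1 hab hbw hbx y h3 h4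
    ⟨⟨FF_nonneg a b w x s t hs0 hs1 ht0 ht1 hab y h1, FF_sum a b w x s t y h2, _, m1, h5⟩, h5⟩
  have ca : ∀ y : Pt N, (∀ v, 0 ≤ y v) → ∑ v, y v = 1 →
      (∀ v, v ≠ a → v ≠ b → v ≠ w → v ≠ x → y v = 0) → s * y a ≤ (1 - s) * y b →
      In K' (F y) ∧ Sup (F y) {b, x, w} := fun y h1 h2 h3 h4 =>
    have h5 := FF_supa a b w x s t hs0 hs1 y h3 h4
    ⟨⟨FF_nonneg a b w x s t hs0 hs1 ht0 ht1 hab y h1, FF_sum a b w x s t y h2, _, m2, h5⟩, h5⟩
  have hS4 : ∀ (f : Finset (Fin N)) (y : Pt N), f ⊆ ({a, b, w, x} : Finset (Fin N)) → Sup y f →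
      (∀ v, v ≠ a → v ≠ b → v ≠ w → v ≠ x → y v = 0) := by
    intro f y hf hy v h1 h2 h3 h4
    exact hy v fun hv => PF29.sub3 a b w x v h1 h2 h3 h4 (hf hv)
  have hfix : ∀ f ∈ M, ∀ y : Pt N, (∀ v, 0 ≤ y v) → Sup y f → F y = y := by
    intro f hf y hy hS
    apply FF_fix a b w x s t hs0 hs1 y hy
    by_contra h
    rw [not_or] at h
    apply hM f hf
    constructor
    · by_contra ha; exact h.1 (hS a ha)
    · by_contra hb; exact h.2 (hS b hb)
  have hIn : ∀ y, In K y → In K' (F y) := by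
    rintro y ⟨h1, h2, f, hf, hS⟩
    rcases hKf f hf with hfM | hf4
    · rw [hfix f hfM y h1 hS]
      exact ⟨h1, h2, f, hMK' f hfM, hS⟩
    · rcases le_total ((1 - s) * y b) (s * y a) with h | h
      · exact (cb y h1 h2 (hS4 f y hf4 hS) h).1
      · exact (ca y h1 h2 (hS4 f y hf4 hS) h).1
  have hce : ∀ y z, ce p (F y) (F z) = ce p y z := by
    intro y z
    simp only [ce, c2]
  -- steps on one side
  have sb : ∀ y z : Pt N, (∀ v, 0 ≤ y v) → ∑ v, y v = 1 →
      (∀ v, v ≠ a → v ≠ b → v ≠ w → v ≠ x → y v = 0) → (1 - s) * y b ≤ s * y a →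
      (∀ v, 0 ≤ z v) → ∑ v, z v = 1 →
      (∀ v, v ≠ a → v ≠ b → v ≠ w → v ≠ x → z v = 0) → (1 - s) * z b ≤ s * z a →
      dK K' (ce p) (F y) (F z) ≤ ce p y z := by
    intro y z h1 h2 h3 h4 g1 g2 g3 g4
    rw [← hce y z]
    obtain ⟨e1, e2⟩ := cb y h1 h2 h3 h4
    obtain ⟨e3, e4⟩ := cb z g1 g2 g3 g4
    exact B5 _ _ ⟨e1, e3, _, m1, e2, e4⟩
  have sa : ∀ y z : Pt N, (∀ v, 0 ≤ y v) → ∑ v, y v = 1 →
      (∀ v, v ≠ a → v ≠ b → v ≠ w → v ≠ x → y v = 0) → s * y a ≤ (1 - s) * y b →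
      (∀ v, 0 ≤ z v) → ∑ v, z v = 1 →
      (∀ v, v ≠ a → v ≠ b → v ≠ w → v ≠ x → z v = 0) → s * z a ≤ (1 - s) * z b →
      dK K' (ce p) (F y) (F z) ≤ ce p y z := by
    intro y z h1 h2 h3 h4 g1 g2 g3 g4
    rw [← hce y z]
    obtain ⟨e1, e2⟩ := ca y h1 h2 h3 h4
    obtain ⟨e3, e4⟩ := ca z g1 g2 g3 g4
    exact B5 _ _ ⟨e1, e3, _, m2, e2, e4⟩
  -- a crossing step
  have scr : ∀ y z : Pt N, (∀ v, 0 ≤ y v) → ∑ v, y v = 1 →
      (∀ v, v ≠ a → v ≠ b → v ≠ w → v ≠ x → y v = 0) → (1 - s) * y b < s * y a →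
      (∀ v, 0 ≤ z v) → ∑ v, z v = 1 →
      (∀ v, v ≠ a → v ≠ b → v ≠ w → v ≠ x → z v = 0) → s * z a < (1 - s) * z b →
      dK K' (ce p) (F y) (F z) ≤ ce p y z := by
    intro y z h1 h2 h3 h4 g1 g2 g3 g4
    set hy : ℝ := s * y a - (1 - s) * y b with hhy
    set hz : ℝ := s * z a - (1 - s) * z b with hhz
    have hy0 : 0 < hy := by linarith
    have hz0 : hz < 0 := by linarith
    have hd : 0 < hy - hz := by linarith
    set l : ℝ := hy / (hy - hz) with hl
    have l0 : 0 ≤ l := by positivity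
    have l1 : l ≤ 1 := by
      rw [hl, div_le_one hd]; linarith
    set u : Pt N := (1 - l) • y + l • z with hu
    have hu1 : ∀ v, 0 ≤ u v := by
      intro v
      simp only [hu, Pi.add_apply, Pi.smul_apply, smul_eq_mul]
      exact add_nonneg (mul_nonneg (by linarith) (h1 v)) (mul_nonneg l0 (g1 v))
    have hu2 : ∑ v, u v = 1 := by
      simp only [hu, Pi.add_apply, Pi.smul_apply, smul_eq_mul, Finset.sum_add_distrib,
        ← Finset.mul_sum, h2, g2]
      ring
    have hu3 : ∀ v, v ≠ a → v ≠ b → v ≠ w → v ≠ x → u v = 0 := by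
      intro v k1 k2 k3 k4
      simp only [hu, Pi.add_apply, Pi.smul_apply, smul_eq_mul, h3 v k1 k2 k3 k4, g3 v k1 k2 k3 k4]
      ring
    have hu4 : s * u a - (1 - s) * u b = 0 := by
      have : s * u a - (1 - s) * u b = (1 - l) * hy + l * hz := by
        simp only [hu, hhy, hhz, Pi.add_apply, Pi.smul_apply, smul_eq_mul]
        ring
      rw [this, hl]
      field_simp
      ring
    have e1 := sb y u h1 h2 h3 h4.le hu1 hu2 hu3 (by linarith)
    have e2 := sa u z hu1 hu2 hu3 (by linarith) g1 g2 g3 g4.le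
    have i1 := (cb y h1 h2 h3 h4.le).1
    have i2 := (cb u hu1 hu2 hu3 (by linarith)).1
    have i3 := (ca z g1 g2 g3 g4.le).1
    refine (B4 _ _ _ i1 i2 i3).trans ((add_le_add e1 e2).trans (le_of_eq ?_))
    have hpu : pos p u = (1 - l) • pos p y + l • pos p z := A8 p y z l
    simp only [ce, dist_eq_norm]
    have k1 : pos p y - pos p u = l • (pos p y - pos p z) := by
      rw [hpu, sub_smul, one_smul, smul_sub]; abel
    have k2 : pos p u - pos p z = (1 - l) • (pos p y - pos p z) := by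
      rw [hpu, sub_smul, sub_smul, one_smul, one_smul, smul_sub]; abel
    rw [k1, k2, norm_smul, norm_smul, Real.norm_of_nonneg l0, Real.norm_of_nonneg (by linarith)]
    ring
  refine ⟨F, fun y hy => ⟨hIn y hy, c2 y⟩, ?_, ?_⟩
  · refine (hF21 N K K' (ce p) (ce p) hc hc hC hC').1 F hIn ?_
    rintro y z ⟨⟨h1, h2, -⟩, ⟨g1, g2, -⟩, f, hf, hSy, hSz⟩
    rcases hKf f hf with hfM | hf4
    · rw [hfix f hfM y h1 hSy, hfix f hfM z g1 hSz]
      exact B5 _ _ ⟨⟨h1, h2, f, hMK' f hfM, hSy⟩, ⟨g1, g2, f, hMK' f hfM, hSz⟩, f, hMK' f hfM,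
        hSy, hSz⟩
    · have h3 := hS4 f y hf4 hSy
      have g3 := hS4 f z hf4 hSz
      rcases le_or_gt ((1 - s) * y b) (s * y a) with h | h
      · rcases le_or_gt ((1 - s) * z b) (s * z a) with g | g
        · exact sb y z h1 h2 h3 h g1 g2 g3 g
        · rcases eq_or_lt_of_le h with h' | h'
          · exact sa y z h1 h2 h3 h'.ge g1 g2 g3 g.le
          · exact scr y z h1 h2 h3 h' g1 g2 g3 g
      · rcases le_or_gt (s * z a) ((1 - s) * z b) with g | g
        · exact sa y z h1 h2 h3 h.le g1 g2 g3 g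
        · have := scr z y g1 g2 g3 g h1 h2 h3 h
          rw [B3, hc.symm y z]
          exact this
  · intro v
    apply FF_fix a b w x s t hs0 hs1 (vx v)
    · intro u
      unfold vx
      by_cases h : u = v
      · rw [h]; simp
      · simp [h]
    · by_cases h : a = v
      · right
        exact vx_ne v b (by rw [← h]; exact fun h' => hab h'.symm)
      · left
        exact vx_ne v a h

theorem t_F29 (hA1 : S_A1) (hA2 : S_A2) (hF21 : S_F21) : S_F29 := by
  intro N M a b w x p s t hnd hM hC hC' hs0 hs1 ht0 ht1 hp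
  simp only [List.nodup_cons, List.mem_cons, List.not_mem_nil, or_false, not_or,
    List.nodup_nil, and_true, not_false_eq_true] at hnd
  have hab : a ≠ b := hnd.1.1
  have hbw : b ≠ w := hnd.2.1.1
  have hbx : b ≠ x := hnd.2.1.2
  refine PF29.core hA1 hA2 hF21 N M _ _ a b w x p s t hab hbw hbx hM hC hC' hs0 hs1 ht0 ht1 hp
    ?_ ?_ ?_ ?_
  · intro f hf
    rw [Finset.mem_union, Finset.mem_insert, Finset.mem_singleton] at hf
    rcases hf with h | h | h
    · exact Or.inl h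
    · right; rw [h]; exact PF29.sub1 a b w x
    · right; rw [h]; exact PF29.sub2 a b w x
  · rw [Finset.mem_union, Finset.mem_insert]
    exact Or.inr (Or.inl rfl)
  · rw [Finset.mem_union, Finset.mem_insert, Finset.mem_singleton]
    exact Or.inr (Or.inr rfl)
  · intro f hf
    exact Finset.mem_union_left _ hf

end Pool.Agent.Lib.MP_9f84a9_co
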