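import Pool.Agent.Lib.MP_9f84a9_co.F.StmF2

set_option autoImplicit false

namespace Pool.Agent.Lib.MP_9f84a9_co

open Finset Filter Topology

namespace PF30

theorem pos_add {N : ℕ} (p : Fin N → E) (x y : Pt N) : pos p (x + y) = pos p x + pos p y := by
  simp [pos, add_smul, Finset.sum_add_distrib]

theorem pos_smul {N : ℕ} (p : Fin N → E) (c : ℝ) (x : Pt N) : pos p (c • x) = c • pos p x := by
  simp [pos, mul_smul, Finset.smul_sum]

theorem pos_vx {N : ℕ} (p : Fin N → E) (v : Fin N) : pos p (vx v) = p v := by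
  unfold pos vx
  rw [Finset.sum_eq_single v]
  · simp
  · intro u _ hu
    rw [Pi.single_eq_of_ne hu, zero_smul]
  · intro h
    exact absurd (Finset.mem_univ v) h

/-- the first map -/
noncomputable def G1 {N : ℕ} (a b w : Fin N) (s : ℝ) (y : Pt N) : Pt N :=
  y + y w • ((1 - s) • vx a + s • vx b + (-1 : ℝ) • vx w)

theorem G1_pos {N : ℕ} (a b w : Fin N) (s : ℝ) (p : Fin N → E)
    (h : (1 - s) • p a + s • p b = p w) (y : Pt N) : pos p (G1 a b w s y) = pos p y := by
  unfold G1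
  rw [pos_add, pos_smul, pos_add, pos_add, pos_smul, pos_smul, pos_smul, pos_vx, pos_vx, pos_vx, h,
    neg_one_smul, add_neg_cancel, smul_zero, add_zero]

theorem G1_apply {N : ℕ} (a b w : Fin N) (s : ℝ) (y : Pt N) (v : Fin N) :
    G1 a b w s y v = y v + y w * ((1 - s) * (if v = a then 1 else 0) +
      s * (if v = b then 1 else 0) - (if v = w then 1 else 0)) := by
  simp only [G1, vx, Pi.add_apply, Pi.smul_apply, smul_eq_mul, Pi.single_apply]
  ring

theorem G1_sum {N : ℕ} (a b w : Fin N) (s : ℝ) (y : Pt N) :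
    ∑ v, G1 a b w s y v = ∑ v, y v := by
  simp only [G1_apply, Finset.sum_add_distrib, ← Finset.mul_sum, Finset.sum_sub_distrib]
  simp

theorem G1_nonneg {N : ℕ} (a b w : Fin N) (s : ℝ) (haw : a ≠ w) (hbw : b ≠ w)
    (h0 : 0 ≤ s) (h1 : s ≤ 1) (y : Pt N) (hy : ∀ v, 0 ≤ y v) (v : Fin N) :
    0 ≤ G1 a b w s y v := by
  rw [G1_apply]
  by_cases hv : v = w
  · subst hv
    rw [if_neg (Ne.symm haw), if_neg (Ne.symm hbw), if_pos rfl]
    apply le_of_eq
    ring
  · rw [if_neg hv]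
    have h2 : (0 : ℝ) ≤ if v = a then (1 : ℝ) else 0 := by split_ifs <;> norm_num
    have h3 : (0 : ℝ) ≤ if v = b then (1 : ℝ) else 0 := by split_ifs <;> norm_num
    have h4 : 0 ≤ 1 - s := by linarith
    have h5 := mul_nonneg h4 h2
    have h6 := mul_nonneg h0 h3
    have h7 : 0 ≤ (1 - s) * (if v = a then (1 : ℝ) else 0) + s * (if v = b then (1 : ℝ) else 0) - 0 := by
      linarith
    have h8 := mul_nonneg (hy w) h7
    have h9 := hy v
    linarith

theorem G1_w {N : ℕ} (a b w : Fin N) (s : ℝ) (haw : a ≠ w) (hbw : b ≠ w) (y : Pt N) :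
    G1 a b w s y w = 0 := by
  rw [G1_apply, if_neg (Ne.symm haw), if_neg (Ne.symm hbw), if_pos rfl]
  ring

theorem G1_other {N : ℕ} (a b w : Fin N) (s : ℝ) (y : Pt N) (v : Fin N)
    (ha : v ≠ a) (hb : v ≠ b) (hw : v ≠ w) :
    G1 a b w s y v = y v := by
  rw [G1_apply, if_neg ha, if_neg hb, if_neg hw]
  ring

theorem G1_id {N : ℕ} (a b w : Fin N) (s : ℝ) (y : Pt N) (h : y w = 0) :
    G1 a b w s y = y := by
  unfold G1
  rw [h, zero_smul, add_zero]


section core

variable {N : ℕ} (M K K' : Cx N) (a b w x : Fin N) (s : ℝ)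

open Classical in
/-- the map -/
noncomputable def G {N : ℕ} (a b w x : Fin N) (s : ℝ) (y : Pt N) : Pt N :=
  if y x = 0 then y else G1 a b w s y

theorem G_z {N : ℕ} (a b w x : Fin N) (s : ℝ) (y : Pt N) (h : y x = 0) : G a b w x s y = y := by
  unfold G
  rw [if_pos h]

theorem G_nz {N : ℕ} (a b w x : Fin N) (s : ℝ) (y : Pt N) (h : y x ≠ 0) :
    G a b w x s y = G1 a b w s y := by
  unfold G
  rw [if_neg h]

theorem G_pos {N : ℕ} (a b w x : Fin N) (s : ℝ) (p : Fin N → E)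
    (h : (1 - s) • p a + s • p b = p w) (y : Pt N) : pos p (G a b w x s y) = pos p y := by
  by_cases hx : y x = 0
  · rw [G_z a b w x s y hx]
  · rw [G_nz a b w x s y hx]
    exact G1_pos a b w s p h y

theorem G_vx {N : ℕ} (a b w x : Fin N) (s : ℝ) (hwx : w ≠ x) (v : Fin N) :
    G a b w x s (vx v) = vx v := by
  by_cases hx : (vx v : Pt N) x = 0
  · exact G_z a b w x s _ hx
  · rw [G_nz a b w x s _ hx]
    apply G1_id
    have hvx' : v = x := by
      by_contra h
      apply hx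
      unfold vx
      exact Pi.single_eq_of_ne (Ne.symm h) _
    rw [hvx']
    unfold vx
    exact Pi.single_eq_of_ne hwx _

theorem G_M {N : ℕ} (a b w x : Fin N) (s : ℝ) (f : Finset (Fin N)) (hf : ¬ (x ∈ f ∧ w ∈ f))
    (y : Pt N) (hy : Sup y f) : G a b w x s y = y := by
  by_cases hx : y x = 0
  · exact G_z a b w x s y hx
  · have hxf : x ∈ f := by
      by_contra h
      exact hx (hy x h)
    have hwf : w ∉ f := fun h => hf ⟨hxf, h⟩
    rw [G_nz a b w x s y hx]
    exact G1_id a b w s y (hy w hwf)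

/-- support in one of the two triangles -/
def Tri {N : ℕ} (a b w x : Fin N) (y : Pt N) : Prop :=
  ∀ v, v ≠ x → v ≠ w → y v ≠ 0 → v = a ∨ v = b

theorem S1 {N : ℕ} (a b w x : Fin N) (s : ℝ) (haw : a ≠ w) (hbw : b ≠ w) (y : Pt N)
    (hy : Tri a b w x y) (v : Fin N) (h1 : v ≠ a) (h2 : v ≠ b) (h3 : v ≠ x) :
    G1 a b w s y v = 0 := by
  by_cases hvw : v = w
  · rw [hvw]
    exact G1_w a b w s haw hbw y
  · rw [G1_other a b w s y v h1 h2 hvw]
    by_contra h
    rcases hy v h3 hvw h with h4 | h4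
    · exact h1 h4
    · exact h2 h4

theorem S2 {N : ℕ} (a b w x : Fin N) (s : ℝ) (y : Pt N)
    (hy : Tri a b w x y) (hx : y x = 0) (v : Fin N) (h1 : v ≠ a) (h2 : v ≠ b) (h3 : v ≠ w) :
    y v = 0 ∧ G1 a b w s y v = 0 := by
  have h5 : y v = 0 := by
    by_cases hvx : v = x
    · rw [hvx]; exact hx
    · by_contra h
      rcases hy v hvx h3 h with h4 | h4
      · exact h1 h4
      · exact h2 h4
  refine ⟨h5, ?_⟩
  rw [G1_other a b w s y v h1 h2 h3]
  exact h5

theorem core (p : Fin N → E) (haw : a ≠ w) (hbw : b ≠ w)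
    (h0 : 0 ≤ s) (h1 : s ≤ 1) (hp : (1 - s) • p a + s • p b = p w)
    (hM : ∀ f ∈ M, ¬ (x ∈ f ∧ w ∈ f)) (hMK : ∀ f ∈ M, f ∈ K)
    (T1 T2 : Finset (Fin N)) (hT1K : T1 ∈ K) (hT2K : T2 ∈ K)
    (hT1 : ∀ v, v ∉ T1 → v ≠ a ∧ v ≠ b ∧ v ≠ w)
    (hT2 : ∀ v, v ∉ T2 → v ≠ a ∧ v ≠ b ∧ v ≠ x)
    (hK' : ∀ f ∈ K', f ∈ M ∨ ∀ v ∈ f, v ≠ x → v ≠ w → v = a ∨ v = b)
    (d0 : ∀ x, In K x → dK K (ce p) x x = 0)
    (dsym : ∀ x y, dK K (ce p) x y = dK K (ce p) y x)
    (dtri : ∀ x y z, In K x → In K y → In K z →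
      dK K (ce p) x z ≤ dK K (ce p) x y + dK K (ce p) y z)
    (dstp : ∀ x y, Stp K x y → dK K (ce p) x y ≤ ce p x y)
    (dzero : ∀ x y, Stp K x y → pos p x = pos p y → dK K (ce p) x y = 0) :
    (∀ y, In K' y → In K (G a b w x s y)) ∧
    (∀ y z, Stp K' y z → dK K (ce p) (G a b w x s y) (G a b w x s z) ≤ ce p y z) := by
  have hsup : ∀ (f : Finset (Fin N)) (y : Pt N), Sup y f →
      (∀ v ∈ f, v ≠ x → v ≠ w → v = a ∨ v = b) → Tri a b w x y := by
    intro f y hy hf v h1 h2 h3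
    apply hf v ?_ h1 h2
    by_contra h
    exact h3 (hy v h)
  have hIn1 : ∀ y, In K' y → Tri a b w x y → In K (G1 a b w s y) := by
    intro y hy hs
    refine ⟨fun v => G1_nonneg a b w s haw hbw h0 h1 y hy.1 v, ?_, T2, hT2K, ?_⟩
    · rw [G1_sum]; exact hy.2.1
    · intro v hv
      obtain ⟨e1, e2, e3⟩ := hT2 v hv
      exact S1 a b w x s haw hbw y hs v e1 e2 e3
  have hIn : ∀ y, In K' y → In K (G a b w x s y) := by
    intro y hy
    obtain ⟨f, hf, hyf⟩ := hy.2.2
    rcases hK' f hf with hf1 | hf1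
    · rw [G_M a b w x s f (hM f hf1) y hyf]
      exact ⟨hy.1, hy.2.1, f, hMK f hf1, hyf⟩
    · have hs : Tri a b w x y := hsup f y hyf hf1
      by_cases hx : y x = 0
      · rw [G_z a b w x s y hx]
        refine ⟨hy.1, hy.2.1, T1, hT1K, ?_⟩
        intro v hv
        obtain ⟨e1, e2, e3⟩ := hT1 v hv
        exact (S2 a b w x s y hs hx v e1 e2 e3).1
      · rw [G_nz a b w x s y hx]
        exact hIn1 y hy hs
  have hd0 : ∀ y, In K' y → Tri a b w x y →
      dK K (ce p) (G a b w x s y) (G1 a b w s y) = 0 := by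
    intro y hy hs
    by_cases hx : y x = 0
    · have h4 := hIn y hy
      rw [G_z a b w x s y hx] at h4 ⊢
      apply dzero
      · refine ⟨h4, hIn1 y hy hs, T1, hT1K, ?_, ?_⟩
        · intro v hv
          obtain ⟨e1, e2, e3⟩ := hT1 v hv
          exact (S2 a b w x s y hs hx v e1 e2 e3).1
        · intro v hv
          obtain ⟨e1, e2, e3⟩ := hT1 v hv
          exact (S2 a b w x s y hs hx v e1 e2 e3).2
      · exact (G1_pos a b w s p hp y).symm
    · rw [G_nz a b w x s y hx]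
      exact d0 _ (hIn1 y hy hs)
  refine ⟨hIn, ?_⟩
  intro y z hyz
  obtain ⟨hy, hz, f, hf, hyf, hzf⟩ := hyz
  rcases hK' f hf with hf1 | hf1
  · rw [G_M a b w x s f (hM f hf1) y hyf, G_M a b w x s f (hM f hf1) z hzf]
    apply dstp
    have hfK : f ∈ K := hMK f hf1
    exact ⟨⟨hy.1, hy.2.1, f, hfK, hyf⟩, ⟨hz.1, hz.2.1, f, hfK, hzf⟩, f, hfK, hyf, hzf⟩
  · have hsy : Tri a b w x y := hsup f y hyf hf1
    have hsz : Tri a b w x z := hsup f z hzf hf1
    have e1 := hd0 y hy hsy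
    have e2 := hd0 z hz hsz
    have i1 := hIn1 y hy hsy
    have i2 := hIn1 z hz hsz
    have j1 := hIn y hy
    have j2 := hIn z hz
    have t1 := dtri (G a b w x s y) (G1 a b w s y) (G a b w x s z) j1 i1 j2
    have t2 := dtri (G1 a b w s y) (G1 a b w s z) (G a b w x s z) i1 i2 j2
    have e3 : dK K (ce p) (G1 a b w s z) (G a b w x s z) = 0 := by
      rw [dsym]; exact e2
    have t3 : dK K (ce p) (G1 a b w s y) (G1 a b w s z) ≤
        ce p (G1 a b w s y) (G1 a b w s z) := by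
      apply dstp
      refine ⟨i1, i2, T2, hT2K, ?_, ?_⟩
      · intro v hv
        obtain ⟨e1, e2, e3⟩ := hT2 v hv
        exact S1 a b w x s haw hbw y hsy v e1 e2 e3
      · intro v hv
        obtain ⟨e1, e2, e3⟩ := hT2 v hv
        exact S1 a b w x s haw hbw z hsz v e1 e2 e3
    have t4 : ce p (G1 a b w s y) (G1 a b w s z) = ce p y z := by
      unfold ce
      rw [G1_pos a b w s p hp y, G1_pos a b w s p hp z]
    linarith

end core

end PF30

open PF30 in
theorem t_F30 (hA1 : S_A1) (hA2 : S_A2) (hF20 : S_F20) (hF21 : S_F21) : S_F30 := by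
  intro N M a b w x p s hnd hM
  have haw : a ≠ w := by
    intro h; subst h; simp at hnd
  have hbw : b ≠ w := by
    intro h; subst h; simp at hnd
  have hwx : w ≠ x := by
    intro h; subst h; simp at hnd
  have hmK : ∀ f, f ∈ M ∪ {{a, b, w}, {a, b, x}} ↔ f ∈ M ∨ f = {a, b, w} ∨ f = {a, b, x} := by
    intro f
    simp only [Finset.mem_union, Finset.mem_insert, Finset.mem_singleton]
  have hmK' : ∀ f, f ∈ M ∪ {{a, x, w}, {b, x, w}} ↔ f ∈ M ∨ f = {a, x, w} ∨ f = {b, x, w} := by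
    intro f
    simp only [Finset.mem_union, Finset.mem_insert, Finset.mem_singleton]
  revert hmK hmK'
  generalize (M ∪ {{a, b, w}, {a, b, x}}) = K
  generalize (M ∪ {{a, x, w}, {b, x, w}}) = K'
  intro hmK hmK' hK hK' h0 h1 hp
  have hc := (hA1 N).1 p
  obtain ⟨-, d0, dsym, dtri, dstp⟩ := hA2 N K (ce p) hc hK
  obtain ⟨-, -, dzero⟩ := hF20 N K p hK
  have r1 : ∀ v : Fin N, v ∉ ({a, b, w} : Finset (Fin N)) → v ≠ a ∧ v ≠ b ∧ v ≠ w := by
    intro v hv
    simp only [Finset.mem_insert, Finset.mem_singleton, not_or] at hv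
    exact hv
  have r2 : ∀ v : Fin N, v ∉ ({a, b, x} : Finset (Fin N)) → v ≠ a ∧ v ≠ b ∧ v ≠ x := by
    intro v hv
    simp only [Finset.mem_insert, Finset.mem_singleton, not_or] at hv
    exact hv
  have r3 : ∀ f ∈ K', f ∈ M ∨ ∀ v ∈ f, v ≠ x → v ≠ w → v = a ∨ v = b := by
    intro f hf
    rw [hmK'] at hf
    rcases hf with hf | hf | hf
    · left; exact hf
    · right
      intro v hv hvx hvw
      rw [hf] at hv
      simp only [Finset.mem_insert, Finset.mem_singleton] at hv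
      rcases hv with hv | hv | hv
      · left; exact hv
      · exact absurd hv hvx
      · exact absurd hv hvw
    · right
      intro v hv hvx hvw
      rw [hf] at hv
      simp only [Finset.mem_insert, Finset.mem_singleton] at hv
      rcases hv with hv | hv | hv
      · right; exact hv
      · exact absurd hv hvx
      · exact absurd hv hvw
  have hcore := core M K K' a b w x s p haw hbw h0 h1 hp hM
    (fun f hf => (hmK f).2 (Or.inl hf)) {a, b, w} {a, b, x}
    ((hmK _).2 (Or.inr (Or.inl rfl))) ((hmK _).2 (Or.inr (Or.inr rfl)))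
    r1 r2 r3 d0 dsym dtri dstp dzero
  exact ⟨G a b w x s, fun y hy => ⟨hcore.1 y hy, G_pos a b w x s p hp y⟩,
    (hF21 N _ _ (ce p) (ce p) hc hc hK' hK).1 (G a b w x s) hcore.1 hcore.2,
    fun v => G_vx a b w x s hwx v⟩

end Pool.Agent.Lib.MP_9f84a9_co
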