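import Pool.Agent.Lib.MP_9f84a9_co.F.StmF2

/-!
# MP_9f84a9_co, module F: the piece F31 (the flipped disc, both maps)
-/

set_option autoImplicit false

namespace Pool.Agent.Lib.MP_9f84a9_co

open Finset Filter Topology

private theorem f31_fac {N : ℕ} (P : PT N) : ∀ (u v z : Fin N) (f : Finset (Fin N)),
    f ∈ P.fac u v → z ∈ f → z = u ∨ z = v ∨ z ∈ P.vs := by
  induction P with
  | nil => intro u v z f hf; simp [PT.fac] at hf
  | node w l r ihl ihr =>
    intro u v z f hf hz
    unfold PT.fac at hf
    unfold PT.vs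
    rw [Finset.mem_insert, Finset.mem_union] at hf
    rcases hf with rfl | hf | hf
    · simp only [Finset.mem_insert, Finset.mem_singleton] at hz
      rcases hz with h | h | h
      · exact Or.inl h
      · exact Or.inr (Or.inl h)
      · exact Or.inr (Or.inr (by rw [h]; simp))
    · rcases ihl u w z f hf hz with h | h | h
      · exact Or.inl h
      · exact Or.inr (Or.inr (by rw [h]; simp))
      · exact Or.inr (Or.inr (by simp [h]))
    · rcases ihr w v z f hf hz with h | h | h
      · exact Or.inr (Or.inr (by rw [h]; simp))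
      · exact Or.inr (Or.inl h)
      · exact Or.inr (Or.inr (by simp [h]))

private theorem f31_t3 {N : ℕ} (a b c : Fin N) : ({a, b, c} : Finset (Fin N)) = {b, a, c} := by
  ext z; simp only [Finset.mem_insert, Finset.mem_singleton]; tauto

theorem t_F31 (hB5 : S_B5) (hB9 : S_B9) (hF29 : S_F29) (hF30 : S_F30) : S_F31 := by
  intro N a b w x l r l' r' p s t hok hs0 hs1 ht0 ht1 heq
  have hok' : (flp a b w x l r l' r').ok := by
    unfold Dsc.ok at hok ⊢
    exact (hB9 N a b w x l r l' r').1.nodup_iff.1 hok
  refine ⟨hok', ?_⟩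
  set M : Cx N := ((l.fac a w ∪ r.fac w b) ∪ l'.fac b x) ∪ r'.fac x a with hM
  have hK : (Dsc.mk a b (PT.node w l r) (PT.node x l' r')).K = M ∪ {{a, b, w}, {a, b, x}} := by
    unfold Dsc.K
    rw [if_neg (by simp)]
    show insert {a, b, w} (l.fac a w ∪ r.fac w b) ∪ insert {b, a, x} (l'.fac b x ∪ r'.fac x a) = _
    rw [f31_t3 b a x]
    ext f
    simp only [hM, Finset.mem_union, Finset.mem_insert, Finset.mem_singleton]
    tauto
  have hK' : (flp a b w x l r l' r').K = M ∪ {{a, x, w}, {b, x, w}} := by
    unfold Dsc.K flp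
    rw [if_neg (by simp)]
    show insert {x, w, a} (r'.fac x a ∪ l.fac a w) ∪ insert {w, x, b} (r.fac w b ∪ l'.fac b x) = _
    have e1 : ({x, w, a} : Finset (Fin N)) = {a, x, w} := by
      ext z; simp only [Finset.mem_insert, Finset.mem_singleton]; tauto
    have e2 : ({w, x, b} : Finset (Fin N)) = {b, x, w} := by
      ext z; simp only [Finset.mem_insert, Finset.mem_singleton]; tauto
    rw [e1, e2]
    ext f
    simp only [hM, Finset.mem_union, Finset.mem_insert, Finset.mem_singleton]
    tauto
  have hC : Cn (M ∪ {{a, b, w}, {a, b, x}}) := by rw [← hK]; exact hB5 N _ hok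
  have hC' : Cn (M ∪ {{a, x, w}, {b, x, w}}) := by rw [← hK']; exact hB5 N _ hok'
  rw [hK, hK']
  have hnd : (a :: b :: ((w :: (l.vs ++ r.vs)) ++ (x :: (l'.vs ++ r'.vs)))).Nodup := hok
  simp only [List.nodup_cons, List.nodup_append, List.mem_cons, List.mem_append, List.cons_append,
    not_or] at hnd
  obtain ⟨⟨hab, haw, hal, hax, hal'⟩, ⟨hbw, hbl, hbx, hbl'⟩, ⟨hwl, hwx, hwl'⟩, h1, h2, h3⟩ := hnd
  have hMab : ∀ f ∈ M, ¬ (a ∈ f ∧ b ∈ f) := by
    rintro f hf ⟨ha, hb⟩
    simp only [hM, Finset.mem_union] at hf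
    rcases hf with ((hf | hf) | hf) | hf
    · rcases f31_fac l a w b f hf hb with h | h | h
      · exact hab h.symm
      · exact hbw h
      · exact hbl.1 h
    · rcases f31_fac r w b a f hf ha with h | h | h
      · exact haw h
      · exact hab h
      · exact hal.2 h
    · rcases f31_fac l' b x a f hf ha with h | h | h
      · exact hab h
      · exact hax h
      · exact hal'.1 h
    · rcases f31_fac r' x a b f hf hb with h | h | h
      · exact hbx h
      · exact hab h.symm
      · exact hbl'.2 h
  have hMxw : ∀ f ∈ M, ¬ (x ∈ f ∧ w ∈ f) := by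
    rintro f hf ⟨hx, hw⟩
    simp only [hM, Finset.mem_union] at hf
    rcases hf with ((hf | hf) | hf) | hf
    · rcases f31_fac l a w x f hf hx with h | h | h
      · exact hax h.symm
      · exact hwx h.symm
      · exact h3 x (Or.inl h) x (Or.inl rfl) rfl
    · rcases f31_fac r w b x f hf hx with h | h | h
      · exact hwx h.symm
      · exact hbx h.symm
      · exact h3 x (Or.inr h) x (Or.inl rfl) rfl
    · rcases f31_fac l' b x w f hf hw with h | h | h
      · exact hbw h.symm
      · exact hwx h
      · exact hwl'.1 h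
    · rcases f31_fac r' x a w f hf hw with h | h | h
      · exact hwx h
      · exact haw h.symm
      · exact hwl'.2 h
  have hnd1 : [a, b, w, x].Nodup := by
    simp only [List.nodup_cons, List.mem_cons, List.not_mem_nil, not_or, or_false]
    exact ⟨⟨hab, haw, hax⟩, ⟨hbw, hbx⟩, hwx, not_false, List.nodup_nil⟩
  have hnd2 : [x, w, b, a].Nodup := by
    have h : [x, w, b, a] = [a, b, w, x].reverse := rfl
    rw [h, List.nodup_reverse]; exact hnd1
  clear_value M
  clear hK hK' hM
  constructor
  · exact hF29 N M a b w x p s t hnd1 hMab hC hC' hs0 hs1 ht0.le ht1 heq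
  · rcases lt_or_eq_of_le ht1 with ht | ht
    · have e1 : ({{x, w, b}, {x, w, a}} : Cx N) = {{a, x, w}, {b, x, w}} := by
        have h1 : ({x, w, b} : Finset (Fin N)) = {b, x, w} := by
          ext z; simp only [Finset.mem_insert, Finset.mem_singleton]; tauto
        have h2 : ({x, w, a} : Finset (Fin N)) = {a, x, w} := by
          ext z; simp only [Finset.mem_insert, Finset.mem_singleton]; tauto
        rw [h1, h2]
        exact Finset.pair_comm _ _
      have e2 : ({{x, a, b}, {w, a, b}} : Cx N) = {{a, b, w}, {a, b, x}} := by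
        have h1 : ({x, a, b} : Finset (Fin N)) = {a, b, x} := by
          ext z; simp only [Finset.mem_insert, Finset.mem_singleton]; tauto
        have h2 : ({w, a, b} : Finset (Fin N)) = {a, b, w} := by
          ext z; simp only [Finset.mem_insert, Finset.mem_singleton]; tauto
        rw [h1, h2]
        exact Finset.pair_comm _ _
      obtain ⟨G, hG1, hG2, hG3⟩ := hF29 N M x w b a p t s hnd2 hMxw (by rw [e1]; exact hC')
        (by rw [e2]; exact hC) ht0 ht hs0.le hs1.le heq.symm
      rw [e1, e2] at hG1 hG2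
      exact ⟨G, fun y hy => (hG1 y hy).1, hG2, hG3⟩
    · obtain ⟨G, hG1, hG2, hG3⟩ := hF30 N M a b w x p s hnd1 hMxw hC hC' hs0.le hs1.le (by
        rw [heq, ht, sub_self, zero_smul, one_smul, zero_add])
      exact ⟨G, fun y hy => (hG1 y hy).1, hG2, hG3⟩

end Pool.Agent.Lib.MP_9f84a9_co
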