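import Pool.Agent.Lib.MP_9f84a9_co.F.StmF2

/-!
# MP_9f84a9_co, piece F32: areas and the Delaunay functional under a flip
-/

set_option autoImplicit false

namespace Pool.Agent.Lib.MP_9f84a9_co

open Finset Filter Topology

namespace F32

private theorem nsq (a : E) : ‖a‖ ^ 2 = a 0 ^ 2 + a 1 ^ 2 := by
  rw [EuclideanSpace.norm_eq, Real.sq_sqrt (by positivity), Fin.sum_univ_two,
    Real.norm_eq_abs, Real.norm_eq_abs, sq_abs, sq_abs]

private theorem dsq (a b : E) : dist a b ^ 2 = (a 0 - b 0) ^ 2 + (a 1 - b 1) ^ 2 := by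
  rw [dist_eq_norm, nsq]
  rfl

end F32

theorem t_F32 : S_F32 := by
  intro a b w x s t h
  have h0 : (1 - s) * a 0 + s * b 0 = (1 - t) * x 0 + t * w 0 := by
    have := congrArg (fun v : E => v 0) h
    simpa using this
  have h1 : (1 - s) * a 1 + s * b 1 = (1 - t) * x 1 + t * w 1 := by
    have := congrArg (fun v : E => v 1) h
    simpa using this
  have e1 : ar a b w = (1 - t) * (ar a b w + ar b a x) := by
    unfold ar
    linear_combination (b 1 - a 1) * h0 - (b 0 - a 0) * h1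
  have e2 : ar b a x = t * (ar a b w + ar b a x) := by
    unfold ar
    linear_combination (-(b 1 - a 1)) * h0 + (b 0 - a 0) * h1
  have e3 : ar x w a = s * (ar a b w + ar b a x) := by
    unfold ar
    linear_combination (w 0 - x 0) * h1 - (w 1 - x 1) * h0
  have e4 : ar w x b = (1 - s) * (ar a b w + ar b a x) := by
    unfold ar
    linear_combination (-(w 0 - x 0)) * h1 + (w 1 - x 1) * h0
  refine ⟨e1, e2, e3, e4, ?_⟩
  rw [F32.nsq, F32.nsq, F32.nsq, F32.nsq, F32.dsq, F32.dsq]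
  linear_combination (a 0 ^ 2 + a 1 ^ 2 + (b 0 ^ 2 + b 1 ^ 2) + (w 0 ^ 2 + w 1 ^ 2)) * e1 +
    (b 0 ^ 2 + b 1 ^ 2 + (a 0 ^ 2 + a 1 ^ 2) + (x 0 ^ 2 + x 1 ^ 2)) * e2 -
    (x 0 ^ 2 + x 1 ^ 2 + (w 0 ^ 2 + w 1 ^ 2) + (a 0 ^ 2 + a 1 ^ 2)) * e3 -
    (w 0 ^ 2 + w 1 ^ 2 + (x 0 ^ 2 + x 1 ^ 2) + (b 0 ^ 2 + b 1 ^ 2)) * e4 +
    (ar a b w + ar b a x) * (((1 - s) * a 0 + s * b 0 + ((1 - t) * x 0 + t * w 0)) * h0 +
      ((1 - s) * a 1 + s * b 1 + ((1 - t) * x 1 + t * w 1)) * h1)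

end Pool.Agent.Lib.MP_9f84a9_co
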