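import Pool.Agent.Lib.MP_9f84a9_co.F.StmF2

/-!
# MP_9f84a9_co, piece [GP F34]: three collinear points
-/

set_option autoImplicit false

namespace Pool.Agent.Lib.MP_9f84a9_co

open Finset Filter Topology

private theorem f34_lam (u v w : E) (h : ar u v w = 0) (huv : u ≠ v) :
    ∃ r : ℝ, w = (1 - r) • u + r • v := by
  have hD : (v 0 - u 0) ^ 2 + (v 1 - u 1) ^ 2 ≠ 0 := by
    intro h0
    apply huv
    have h1 : v 0 - u 0 = 0 := by nlinarith [sq_nonneg (v 0 - u 0), sq_nonneg (v 1 - u 1)]
    have h2 : v 1 - u 1 = 0 := by nlinarith [sq_nonneg (v 0 - u 0), sq_nonneg (v 1 - u 1)]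
    ext i
    fin_cases i
    · simpa using (sub_eq_zero.mp h1).symm
    · simpa using (sub_eq_zero.mp h2).symm
  refine ⟨((w 0 - u 0) * (v 0 - u 0) + (w 1 - u 1) * (v 1 - u 1)) /
    ((v 0 - u 0) ^ 2 + (v 1 - u 1) ^ 2), ?_⟩
  unfold ar at h
  ext i
  fin_cases i
  · simp only [Fin.zero_eta, PiLp.add_apply, PiLp.smul_apply, smul_eq_mul]
    field_simp
    linear_combination (-(v 1 - u 1)) * h
  · simp only [Fin.mk_one, PiLp.add_apply, PiLp.smul_apply, smul_eq_mul]
    field_simp
    linear_combination (v 0 - u 0) * h

private theorem f34_dist (u v : E) (s s' : ℝ) :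
    dist ((1 - s') • u + s' • v) ((1 - s) • u + s • v) = |s' - s| * dist u v := by
  rw [dist_eq_norm, show (1 - s') • u + s' • v - ((1 - s) • u + s • v) = (s' - s) • (v - u) by module,
    norm_smul, Real.norm_eq_abs, dist_comm u v, dist_eq_norm]

theorem t_F34 : S_F34 := by
  refine ⟨?_, ?_, ?_, ?_⟩
  · intro u v w h huv hvw huw
    obtain ⟨r, hr⟩ := f34_lam u v w h huv
    have h0 : r ≠ 0 := by
      rintro rfl
      apply huw
      rw [hr]; module
    have h1 : r ≠ 1 := by
      rintro rfl
      apply hvw
      rw [hr]; module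
    rcases lt_or_gt_of_ne h0 with h2 | h2
    · right; left
      refine ⟨1 / (1 - r), by apply div_pos <;> linarith, ?_, ?_⟩
      · rw [div_lt_one (by linarith)]; linarith
      · rw [hr]
        have h3 : (1 : ℝ) - r ≠ 0 := by linarith
        have h4 : (1 - 1 / (1 - r)) + 1 / (1 - r) * r = 0 := by field_simp; ring
        have h5 : 1 / (1 - r) * (1 - r) = 1 := by field_simp
        calc u = (0 : ℝ) • v + (1 : ℝ) • u := by module
          _ = ((1 - 1 / (1 - r)) + 1 / (1 - r) * r) • v + (1 / (1 - r) * (1 - r)) • u := by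
              rw [h4, h5]
          _ = _ := by module
    · rcases lt_or_gt_of_ne h1 with h3 | h3
      · left
        exact ⟨r, h2, h3, hr⟩
      · right; right
        refine ⟨1 - 1 / r, ?_, ?_, ?_⟩
        · have : 1 / r < 1 := by rw [div_lt_one (by linarith)]; exact h3
          linarith
        · have : 0 < 1 / r := by positivity
          linarith
        · rw [hr]
          have h4 : (1 - (1 - 1 / r)) * (1 - r) + (1 - 1 / r) = 0 := by field_simp; ring
          have h5 : (1 - (1 - 1 / r)) * r = 1 := by field_simp; ring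
          calc v = (0 : ℝ) • u + (1 : ℝ) • v := by module
            _ = ((1 - (1 - 1 / r)) * (1 - r) + (1 - 1 / r)) • u +
                ((1 - (1 - 1 / r)) * r) • v := by rw [h4, h5]
            _ = _ := by module
  · intro u v w s hs hs1 huv hw
    have hd : 0 < dist u v := dist_pos.mpr huv
    have e0 : dist u w = s * dist u v := by
      have := f34_dist u v s 0
      rw [hw]
      calc dist u ((1 - s) • u + s • v) = dist ((1 - (0 : ℝ)) • u + (0 : ℝ) • v)
            ((1 - s) • u + s • v) := by congr 1; module
        _ = |0 - s| * dist u v := this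
        _ = s * dist u v := by rw [zero_sub, abs_neg, abs_of_pos hs]
    have e1 : dist w v = (1 - s) * dist u v := by
      have := f34_dist u v s 1
      rw [hw, dist_comm]
      calc dist v ((1 - s) • u + s • v) = dist ((1 - (1 : ℝ)) • u + (1 : ℝ) • v)
            ((1 - s) • u + s • v) := by congr 1; module
        _ = |1 - s| * dist u v := this
        _ = (1 - s) * dist u v := by rw [abs_of_pos (by linarith)]
    refine ⟨?_, ?_, ?_, ?_⟩
    · rw [e0]; nlinarith
    · rw [e1]; nlinarith
    · intro h
      have : dist u w = 0 := by rw [h, dist_self]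
      rw [e0] at this
      nlinarith [mul_pos hs hd]
    · intro h
      have : dist w v = 0 := by rw [h, dist_self]
      rw [e1] at this
      nlinarith [mul_pos (show 0 < 1 - s by linarith) hd]
  · intro u v w x s s' hs hs1 hs' hs1' huv hw hx
    have hd : 0 < dist u v := dist_pos.mpr huv
    rw [hw, hx, f34_dist]
    have : |s' - s| < 1 := by
      rw [abs_lt]; constructor <;> linarith
    nlinarith
  · intro u v w
    unfold ar
    refine ⟨by ring, by ring, by ring⟩

end Pool.Agent.Lib.MP_9f84a9_co
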