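import Pool.Agent.Lib.MP_9f84a9_co.F.StmF2

/-!
# MP_9f84a9_co, piece F35: degenerate boundary triangle, pinch at its middle vertex
-/

set_option autoImplicit false

namespace Pool.Agent.Lib.MP_9f84a9_co

open Finset Filter Topology

private theorem f35_vx {N : ℕ} {y : Pt N} {w : Fin N} (h1 : ∑ v, y v = 1)
    (h : ∀ v, v ≠ w → y v = 0) : y = vx w := by
  have hw : y w = 1 := by
    rw [← h1, Finset.sum_eq_single w (fun v _ hv => h v hv) (fun h => absurd (Finset.mem_univ _) h)]
  funext v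
  by_cases hv : v = w
  · subst hv
    rw [hw, vx, Pi.single_eq_same]
  · rw [h v hv, vx, Pi.single_eq_of_ne hv]

private theorem f35_pos {N : ℕ} {a b w : Fin N} {p : Fin N → E} {s : ℝ} (hab : a ≠ b)
    (haw : a ≠ w) (hbw : b ≠ w) (hp : p w = (1 - s) • p a + s • p b) (z : Pt N)
    (hz : Sup z {a, b, w}) (h1 : ∑ v, z v = 1) :
    pos p z = p w + (s * z a - (1 - s) * z b) • (p a - p b) := by
  have e1 : pos p z = z a • p a + (z b • p b + z w • p w) := by
    have h2 : ∑ v ∈ ({a, b, w} : Finset (Fin N)), z v • p v = ∑ v, z v • p v :=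
      Finset.sum_subset (Finset.subset_univ _) fun v _ hv => by rw [hz v hv, zero_smul]
    rw [pos, ← h2, Finset.sum_insert (by simp [hab, haw]), Finset.sum_insert (by simp [hbw]),
      Finset.sum_singleton]
  have e2 : z a + (z b + z w) = 1 := by
    have h2 : ∑ v ∈ ({a, b, w} : Finset (Fin N)), z v = ∑ v, z v :=
      Finset.sum_subset (Finset.subset_univ _) fun v _ hv => hz v hv
    rw [Finset.sum_insert (by simp [hab, haw]), Finset.sum_insert (by simp [hbw]),
      Finset.sum_singleton, h1] at h2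
    exact h2
  have e3 : z w = 1 - z a - z b := by linarith
  rw [e1, e3, hp]
  module

private theorem f35_sub {N : ℕ} {a w : Fin N} {l : PT N} {f : Finset (Fin N)}
    (hf : f ∈ l.fac a w) : f ∈ (Dsc.mk a w l PT.nil).K := by
  cases l with
  | nil => simp [PT.fac] at hf
  | node x l1 l2 =>
    unfold Dsc.K
    rw [if_neg (by rintro ⟨h, -⟩; cases h)]
    exact Finset.mem_union_left _ hf

private theorem f35_dist {u v : E} {r t : ℝ} (hr : 0 ≤ r) (ht : t ≤ 0) :
    dist (u + r • v) u + dist u (u + t • v) ≤ dist (u + r • v) (u + t • v) := by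
  rw [dist_eq_norm, dist_eq_norm, dist_eq_norm]
  have e1 : u + r • v - u = r • v := by module
  have e2 : u - (u + t • v) = (-t) • v := by module
  have e3 : u + r • v - (u + t • v) = (r - t) • v := by module
  rw [e1, e2, e3, norm_smul, norm_smul, norm_smul, Real.norm_of_nonneg hr,
    Real.norm_of_nonneg (by linarith : 0 ≤ -t), Real.norm_of_nonneg (by linarith : 0 ≤ r - t)]
  exact le_of_eq (by ring)

theorem t_F35 (hA1 : S_A1) (hA2 : S_A2) (hB4 : S_B4) (hB5 : S_B5) (hF26 : S_F26) : S_F35 := by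
  classical
  intro N a b w l r p s hok hs0 hs1 hp
  set D : Dsc N := ⟨a, b, PT.node w l r, PT.nil⟩ with hD
  obtain ⟨hce, -, hstps, -, hvxf, hposv, -, -, -⟩ := hA1 N
  -- distinctness
  have hnd : (a :: b :: ((w :: (l.vs ++ r.vs)) ++ [])).Nodup := hok
  rw [List.append_nil] at hnd
  have hab : a ≠ b := by
    rintro rfl
    simp at hnd
  have haw : a ≠ w := by
    rintro rfl
    simp at hnd
  have hbw : b ≠ w := by
    rintro rfl
    simp at hnd
  simp only [List.nodup_cons, List.mem_cons, List.mem_append, not_or] at hnd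
  obtain ⟨⟨-, -, hal, har⟩, ⟨-, hbl, hbr⟩, ⟨hwl, hwr⟩, hlr⟩ := hnd
  have hlr' := List.nodup_append.mp hlr
  have hokl : (Dsc.mk a w l PT.nil).ok := by
    show (a :: w :: (l.vs ++ [])).Nodup
    rw [List.append_nil]
    simp only [List.nodup_cons, List.mem_cons, not_or]
    exact ⟨⟨haw, hal⟩, hwl, hlr'.1⟩
  have hokr : (Dsc.mk w b r PT.nil).ok := by
    show (w :: b :: (r.vs ++ [])).Nodup
    rw [List.append_nil]
    simp only [List.nodup_cons, List.mem_cons, not_or]
    exact ⟨⟨hbw.symm, hwr⟩, hbr, hlr'.2.1⟩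
  have hvl : ∀ f ∈ (Dsc.mk a w l PT.nil).K, ∀ v ∈ f, v = a ∨ v = w ∨ v ∈ l.vs := by
    intro f hf v hv
    have h := (hB4 N _ hokl).1 f hf v hv
    have h' : v ∈ a :: w :: (l.vs ++ []) := h
    rwa [List.append_nil, List.mem_cons, List.mem_cons] at h'
  have hvr : ∀ f ∈ (Dsc.mk w b r PT.nil).K, ∀ v ∈ f, v = w ∨ v = b ∨ v ∈ r.vs := by
    intro f hf v hv
    have h := (hB4 N _ hokr).1 f hf v hv
    have h' : v ∈ w :: b :: (r.vs ++ []) := h
    rwa [List.append_nil, List.mem_cons, List.mem_cons] at h'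
  have hbnl : ∀ f ∈ (Dsc.mk a w l PT.nil).K, b ∉ f := by
    intro f hf hb
    rcases hvl f hf b hb with h | h | h
    · exact hab h.symm
    · exact hbw h
    · exact hbl h
  have hanr : ∀ f ∈ (Dsc.mk w b r PT.nil).K, a ∉ f := by
    intro f hf ha
    rcases hvr f hf a ha with h | h | h
    · exact haw h
    · exact hab h
    · exact har h
  have hmeet : ∀ f ∈ (Dsc.mk a w l PT.nil).K, ∀ g ∈ (Dsc.mk w b r PT.nil).K, ∀ v ∈ f, v ∈ g →
      v = w := by
    intro f hf g hg v hvf hvg
    rcases hvl f hf v hvf with h | h | h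
    · exact absurd (h ▸ hvg) (hanr g hg)
    · exact h
    · rcases hvr g hg v hvg with h' | h' | h'
      · exact h'
      · exact absurd (h' ▸ h) hbl
      · exact absurd rfl (hlr'.2.2 v h v h')
  have hKmem : ∀ f, f ∈ D.K ↔ f = {a, b, w} ∨ f ∈ l.fac a w ∨ f ∈ r.fac w b := by
    intro f
    unfold Dsc.K
    rw [if_neg (by rintro ⟨h, -⟩; cases h)]
    show f ∈ insert ({a, b, w} : Finset (Fin N)) (l.fac a w ∪ r.fac w b) ∪ ∅ ↔ _
    rw [Finset.union_empty, Finset.mem_insert, Finset.mem_union]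
  have htri : ({a, b, w} : Finset (Fin N)) ∈ D.K := (hKmem _).mpr (Or.inl rfl)
  have hcn : Cn D.K := hB5 N D hok
  have hwK : In D.K (vx w) := (hvxf D.K {a, b, w} w htri (by simp)).1
  obtain ⟨hd0, hdself, hdsymm, hdtri, hdstp⟩ := hA2 N D.K (ce p) (hce p) hcn
  -- signs
  have hX1 : ∀ x : Pt N, (∀ v, 0 ≤ x v) →
      (In (Dsc.mk a w l PT.nil).K x ∨ (Sup x {a, b, w} ∧ (1 - s) * x b ≤ s * x a)) →
      0 ≤ s * x a - (1 - s) * x b := by
    intro x hx0 h
    rcases h with h | h
    · obtain ⟨-, -, f, hf, hsup⟩ := h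
      rw [hsup b (hbnl f hf), mul_zero, sub_zero]
      exact mul_nonneg hs0.le (hx0 a)
    · linarith [h.2]
  have hX2 : ∀ x : Pt N, (∀ v, 0 ≤ x v) →
      (In (Dsc.mk w b r PT.nil).K x ∨ (Sup x {a, b, w} ∧ s * x a ≤ (1 - s) * x b)) →
      s * x a - (1 - s) * x b ≤ 0 := by
    intro x hx0 h
    rcases h with h | h
    · obtain ⟨-, -, f, hf, hsup⟩ := h
      rw [hsup a (hanr f hf), mul_zero, zero_sub]
      have := mul_nonneg (by linarith : (0 : ℝ) ≤ 1 - s) (hx0 b)
      linarith
    · linarith [h.2]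
  have hcover : ∀ x, In D.K x →
      (In (Dsc.mk a w l PT.nil).K x ∨ (Sup x {a, b, w} ∧ (1 - s) * x b ≤ s * x a)) ∨
      (In (Dsc.mk w b r PT.nil).K x ∨ (Sup x {a, b, w} ∧ s * x a ≤ (1 - s) * x b)) := by
    intro x hx
    obtain ⟨hx0, hx1, f, hf, hsup⟩ := hx
    rcases (hKmem f).mp hf with h | h | h
    · subst h
      rcases le_total ((1 - s) * x b) (s * x a) with h | h
      · exact Or.inl (Or.inr ⟨hsup, h⟩)
      · exact Or.inr (Or.inr ⟨hsup, h⟩)
    · exact Or.inl (Or.inl ⟨hx0, hx1, f, f35_sub h, hsup⟩)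
    · exact Or.inr (Or.inl ⟨hx0, hx1, f, f35_sub h, hsup⟩)
  refine ⟨hcover, ?_⟩
  refine hF26 N D.K p w _ _ hcn hwK hcover ?_
  intro x y hst h1 h2
  obtain ⟨hx, hy, f, hf, hxf, hyf⟩ := hst
  have hx' := hx
  have hy' := hy
  obtain ⟨hx0, hxs, -⟩ := hx'
  obtain ⟨hy0, hys, -⟩ := hy'
  rcases (hKmem f).mp hf with h | h | h
  · subst h
    have hpx := f35_pos hab haw hbw hp x hxf hxs
    have hpy := f35_pos hab haw hbw hp y hyf hys
    have hsw : Sup (vx w : Pt N) {a, b, w} := (hvxf D.K {a, b, w} w htri (by simp)).2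
    have hs1 : dK D.K (ce p) x (vx w) ≤ ce p x (vx w) :=
      hdstp x (vx w) ⟨hx, hwK, {a, b, w}, htri, hxf, hsw⟩
    have hs2 : dK D.K (ce p) (vx w) y ≤ ce p (vx w) y :=
      hdstp (vx w) y ⟨hwK, hy, {a, b, w}, htri, hsw, hyf⟩
    have hs3 : ce p x (vx w) + ce p (vx w) y ≤ ce p x y := by
      unfold ce
      rw [hpx, hpy, hposv p w]
      exact f35_dist (hX1 x hx0 h1) (hX2 y hy0 h2)
    linarith
  · have hf' := f35_sub (w := w) (l := l) h
    have hyw : y = vx w := by
      refine f35_vx hys fun v hv => ?_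
      rcases h2 with h2 | h2
      · obtain ⟨-, -, g, hg, hyg⟩ := h2
        by_contra hne
        have hvf : v ∈ f := by
          by_contra hcon
          exact hne (hyf v hcon)
        have hvg : v ∈ g := by
          by_contra hcon
          exact hne (hyg v hcon)
        exact hv (hmeet f hf' g hg v hvf hvg)
      · obtain ⟨hsup, hle⟩ := h2
        have hyb : y b = 0 := hyf b (hbnl f hf')
        have hya : y a = 0 := by
          rw [hyb, mul_zero] at hle
          have h3 := hy0 a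
          nlinarith
        by_cases hva : v = a
        · rw [hva]; exact hya
        · by_cases hvb : v = b
          · rw [hvb]; exact hyb
          · exact hsup v (by simp [hva, hvb, hv])
    subst hyw
    rw [hdself _ hwK, add_zero]
    exact hdstp x _ ⟨hx, hwK, f, hf, hxf, hyf⟩
  · have hf' := f35_sub (a := w) (w := b) (l := r) h
    have hxw : x = vx w := by
      refine f35_vx hxs fun v hv => ?_
      rcases h1 with h1 | h1
      · obtain ⟨-, -, g, hg, hxg⟩ := h1
        by_contra hne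
        have hvf : v ∈ f := by
          by_contra hcon
          exact hne (hxf v hcon)
        have hvg : v ∈ g := by
          by_contra hcon
          exact hne (hxg v hcon)
        exact hv (hmeet g hg f hf' v hvg hvf)
      · obtain ⟨hsup, hle⟩ := h1
        have hxa : x a = 0 := hxf a (hanr f hf')
        have hxb : x b = 0 := by
          rw [hxa, mul_zero] at hle
          have h3 := hx0 b
          nlinarith
        by_cases hva : v = a
        · rw [hva]; exact hxa
        · by_cases hvb : v = b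
          · rw [hvb]; exact hxb
          · exact hsup v (by simp [hva, hvb, hv])
    subst hxw
    rw [hdself _ hwK, zero_add]
    exact hdstp _ y ⟨hwK, hy, f, hf, hxf, hyf⟩

end Pool.Agent.Lib.MP_9f84a9_co
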