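import Pool.Agent.Lib.MP_9f84a9_co.F.StmF2

/-!
# MP_9f84a9_co, piece F36: positivity from positivity of all top triangles
-/

set_option autoImplicit false

namespace Pool.Agent.Lib.MP_9f84a9_co

open Finset Filter Topology

private theorem f36_lf {N : ℕ} {D : Dsc N} {a b w : Fin N} {l r R : PT N}
    (h : Dsc.Eqv D ⟨a, b, PT.node w l r, R⟩) : Dsc.Eqv D ⟨a, w, l, PT.node b r R⟩ :=
  h.tail (Dsc.Mv.lf a b w l r R)

private theorem f36_rt {N : ℕ} {D : Dsc N} {a b w : Fin N} {l r R : PT N}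
    (h : Dsc.Eqv D ⟨a, b, PT.node w l r, R⟩) : Dsc.Eqv D ⟨w, b, r, PT.node a R l⟩ :=
  h.tail (Dsc.Mv.rt a b w l r R)

private theorem f36_sw {N : ℕ} {D : Dsc N} {a b : Fin N} {P R : PT N}
    (h : Dsc.Eqv D ⟨a, b, P, R⟩) : Dsc.Eqv D ⟨b, a, R, P⟩ :=
  h.tail (Dsc.Mv.sw a b P R)

private theorem f36_main {N : ℕ} (D : Dsc N) (p : Fin N → E)
    (h : ∀ (a b w : Fin N) (l r R : PT N), Dsc.Eqv D ⟨a, b, PT.node w l r, R⟩ →
      0 < ar (p a) (p b) (p w)) (P : PT N) :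
    ∀ (a b : Fin N) (R : PT N), Dsc.Eqv D ⟨a, b, P, R⟩ → P.SPos p a b := by
  induction P with
  | nil => intro a b R _; trivial
  | node w l r ihl ihr =>
    intro a b R hD
    exact ⟨h a b w l r R hD, ihl a w _ (f36_lf hD), ihr w b _ (f36_rt hD)⟩

theorem t_F36 (hB1 : S_B1) : S_F36 := by
  intro N D p
  refine ⟨?_, ?_, ?_⟩
  · intro h
    obtain ⟨a, b, P, R⟩ := D
    exact ⟨f36_main _ p h P a b R Relation.ReflTransGen.refl,
      f36_main _ p h R b a P (f36_sw Relation.ReflTransGen.refl)⟩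
  · intro hW a b w l r R hD
    have h1 := ((hB1 N D _ hD).2.2.2.2 p).1.mp hW
    exact h1.1.1
  · intro a b w l r R hD
    exact ⟨f36_sw (f36_lf hD), f36_sw (f36_rt hD), f36_lf hD, f36_rt hD, f36_sw hD⟩

end Pool.Agent.Lib.MP_9f84a9_co
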