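import Pool.Agent.Lib.MP_9f84a9_co.F.StmF4

/-!
# MP_9f84a9_co, section 3, piece [F40]: pinch
-/

set_option autoImplicit false

namespace Pool.Agent.Lib.MP_9f84a9_co

theorem t_F40 (hA1 : S_A1) (hA2 : S_A2) (hB5 : S_B5) (hF23 : S_F23) (hF24 : S_F24) : S_F40 := by
  intro N Cl P R1 q hFi v hv X1 X2 hcov h12
  by_contra hcon
  push Not at hcon
  obtain ⟨⟨u1, hu1, hd1, hn1⟩, ⟨u2, hu2, hd2, hn2⟩⟩ := hcon
  obtain ⟨hin, htop⟩ := hF24 N Cl P q hFi.ok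
  have hx2 : X1 (vx u2) := by
    rcases hcov (vx u2) (hin u2 (hFi.ok.lvs u2 hu2)) with h | h
    · exact h
    · exact absurd h hn2
  obtain ⟨T', hT', h1, h2, h3, h4⟩ := hF23 N q.T X1 u1 u2 hu1 hu2 hn1 hx2
  obtain ⟨hi1, hi2⟩ := htop T' hT'
  have hX2 : X2 T'.1.top := by
    rcases hcov _ hi1 with h | h
    · exact absurd h h1
    · exact h
  have hsym : ∀ x y, q.d x y = q.d y x :=
    (hA2 N q.D.K (ce q.p) ((hA1 N).1 q.p) (hB5 N q.D hFi.ok.dok)).2.2.1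
  have hle := h12 _ _ hi2 hi1 h2 hX2
  have hle' : q.d T'.1.top (vx v) + q.d (vx v) T'.2.top ≤ q.d T'.1.top T'.2.top := by
    rw [hsym T'.1.top (vx v), hsym (vx v) T'.2.top, hsym T'.1.top T'.2.top]
    linarith
  rcases hFi.split T' hT' v hv hle' with ⟨u, hu, hu0⟩ | ⟨u, hu, hu0⟩
  · rw [h3 u hu] at hu0
    exact absurd hu0 hd1.ne'
  · rw [h4 u hu] at hu0
    exact absurd hu0 hd2.ne'

end Pool.Agent.Lib.MP_9f84a9_co
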