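import Pool.Agent.Lib.MP_9f84a9_co.F.StmF4

set_option autoImplicit false

namespace Pool.Agent.Lib.MP_9f84a9_co

open Finset Filter Topology

theorem t_F41 (hA1 : S_A1) (hA2 : S_A2) (hB1 : S_B1) (hB4 : S_B4) (hB5 : S_B5) (hF22 : S_F22)
    (hF24 : S_F24) (hF25 : S_F25) : S_F41 := by
  intro N Cl P R1 q hq a b P' R hE hR
  classical
  obtain ⟨hvl, hok, hK, hsym, hB⟩ := hB1 N q.D ⟨a, b, P', R⟩ hE
  have hqok := hq.ok
  have hDok : (Dsc.mk a b P' R).ok := hok.1 hqok.dok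
  obtain ⟨b1, b2, b3, b4, b5, b6, b7, b8, b9, b10⟩ := hB4 N ⟨a, b, P', R⟩ hDok
  dsimp only at b6 b7 b8 b9 b10
  by_contra hcon
  push Not at hcon
  have hCn : Cn q.D.K := hB5 N q.D hqok.dok
  have hCn1 : Cn (Dsc.mk a b P' PT.nil).K := hB5 N _ b6
  have hce : IsCost (ce q.p) := (hA1 N).1 q.p
  obtain ⟨d0, dself, dsymm, dtri, dstp⟩ := hA2 N q.D.K (ce q.p) hce hCn
  obtain ⟨e0, eself, esymm, etri, estp⟩ := hA2 N _ (ce q.p) hce hCn1
  obtain ⟨F, F1, F2, F3, F4⟩ := hF25 N a b P' R q.p hDok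
  obtain ⟨-, -, -, -, a5, -, -, -, -⟩ := hA1 N
  have hin : ∀ v ∈ q.D.vl, In q.D.K (vx v) := (hF24 N Cl P q hqok).1
  have hin1 : ∀ v ∈ (Dsc.mk a b P' PT.nil).vl, In (Dsc.mk a b P' PT.nil).K (vx v) := by
    intro v hv
    obtain ⟨f, hf, hvf⟩ := (hB4 N _ b6).2.1 v hv
    exact (a5 _ f v hf hvf).1
  have hsub : ∀ v ∈ (Dsc.mk a b P' PT.nil).vl, v ∈ q.D.vl := by
    intro v hv
    rw [hvl.mem_iff]
    simp only [Dsc.vl, PT.vs, List.append_nil, List.mem_cons, List.mem_append] at hv ⊢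
    tauto
  have hsplit : ∀ v ∈ q.D.vl, v ∈ (Dsc.mk a b P' PT.nil).vl ∨ v ∈ R.vs := by
    intro v hv
    rw [hvl.mem_iff] at hv
    simp only [Dsc.vl, PT.vs, List.append_nil, List.mem_cons, List.mem_append] at hv ⊢
    tauto
  have ha1 : a ∈ (Dsc.mk a b P' PT.nil).vl := by simp [Dsc.vl]
  have hb1 : b ∈ (Dsc.mk a b P' PT.nil).vl := by simp [Dsc.vl]
  -- the map of the vertices
  obtain ⟨ν, hν⟩ : ∃ ν : Fin N → Fin N, ν = fun v => if v ∈ (Dsc.mk a b P' PT.nil).vl then v else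
    if dK q.D.K (ce q.p) (vx v) (vx a) = 0 then a else b := ⟨_, rfl⟩
  have hν1 : ∀ v, v ∈ (Dsc.mk a b P' PT.nil).vl → ν v = v := by
    intro v hv
    rw [hν]
    simp only [if_pos hv]
  have hν2 : ∀ v, ν v ∈ (Dsc.mk a b P' PT.nil).vl := by
    intro v
    rw [hν]
    dsimp only
    split_ifs
    · assumption
    · exact ha1
    · exact hb1
  have hν3 : ∀ v ∈ q.lv, dK q.D.K (ce q.p) (vx v) (vx (ν v)) = 0 := by
    intro v hv
    by_cases h1 : v ∈ (Dsc.mk a b P' PT.nil).vl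
    · rw [hν1 v h1]
      exact dself _ (hin v (hqok.lvs v hv))
    · have hvR : v ∈ R.vs := (hsplit v (hqok.lvs v hv)).resolve_left h1
      by_cases h2 : dK q.D.K (ce q.p) (vx v) (vx a) = 0
      · have : ν v = a := by
          rw [hν]
          simp only [if_neg h1, if_pos h2]
        rw [this]
        exact h2
      · have : ν v = b := by
          rw [hν]
          simp only [if_neg h1, if_neg h2]
        rw [this]
        have h3 : 0 < dK q.D.K (ce q.p) (vx v) (vx a) :=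
          lt_of_le_of_ne (d0 _ _) (Ne.symm h2)
        exact le_antisymm (hcon v hv hvR h3) (d0 _ _)
  have hKK : ∀ x, In q.D.K x ↔ In (Dsc.mk a b P' R).K x := by
    intro x
    rw [hK]
  obtain ⟨g1, g2, g3, g4, g5⟩ := hF22 N q.D.K (Dsc.mk a b P' PT.nil).K (ce q.p) (ce q.p) hce hce
    hCn hCn1 F ν q.T (fun x hx => F1 x ((hKK x).1 hx))
    (fun x y hx hy => by
      have := F3 x y ((hKK x).1 hx) ((hKK y).1 hy)
      rw [hK]
      exact this)
    (fun z hz => hqok.nods z hz)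
    (fun v hv => by
      have hv' : v ∈ q.lv := hv
      refine ⟨hin v (hqok.lvs v hv'), hin1 _ (hν2 v), ?_⟩
      have hFν : F (vx (ν v)) = vx (ν v) := (F2 _ (hin1 _ (hν2 v))).1
      have h1 := F3 (vx v) (vx (ν v)) ((hKK _).1 (hin v (hqok.lvs v hv')))
        ((hKK _).1 (hin _ (hsub _ (hν2 v))))
      rw [hFν, ← hK, hν3 v hv'] at h1
      exact le_antisymm h1 (e0 _ _))
  obtain ⟨q', hq'⟩ : ∃ q' : Piece N, q' = ⟨Dsc.mk a b P' PT.nil, q.p, q.lab,
    (q.T.1.mp F ν, q.T.2.mp F ν)⟩ := ⟨_, rfl⟩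
  have hlv' : q'.lv = q.lv.map ν := by
    rw [hq']
    exact g3
  have hok' : q'.ok Cl P := by
    refine ⟨?_, ?_, ?_, ?_, ?_, ?_⟩
    · rw [hq']
      exact b6
    · rw [hq']
      have hw := ((hB q.p).1).1 hqok.wpos
      exact ⟨hw.1, trivial⟩
    · rw [hq']
      exact hqok.labs
    · rw [hq']
      exact g2
    · intro v hv
      rw [hlv', List.mem_map] at hv
      obtain ⟨u, hu, rfl⟩ := hv
      rw [hq']
      exact hν2 u
    · rw [hq']
      intro v hv w hw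
      exact hqok.diam v (hsub v hv) w (hsub w hw)
  have hL' : q'.L ≤ q.L := by
    rw [hq']
    exact g1
  have hlab' : q'.lv.map q'.lab = q.lv.map q.lab := by
    rw [hlv', List.map_map]
    apply List.map_congr_left
    intro v hv
    have h1 : q'.lab = q.lab := by rw [hq']
    rw [Function.comp_apply, h1]
    exact (hq.nmin v (hqok.lvs v hv) (ν v) (hsub _ (hν2 v)) (hν3 v hv)).symm
  have htr := (hq.tr q' hok' hL' hlab' (by
    intro v' hv' w' hw'
    rw [hq'] at hv' hw'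
    refine ⟨v', hsub v' hv', w', hsub w' hw', by rw [hq'], by rw [hq'], ?_⟩
    have h1 := F4 (vx v') (vx w') (hin1 v' hv') (hin1 w' hw')
    rw [← hK] at h1
    rw [hq']
    exact h1)).1
  rw [hvl.length_eq, hq'] at htr
  have hRne : 0 < R.vs.length := by
    cases R with
    | nil => exact absurd rfl hR
    | node w l r => simp [PT.vs]
  simp only [Dsc.vl, PT.vs, List.append_nil, List.length_cons, List.length_append] at htr
  omega

end Pool.Agent.Lib.MP_9f84a9_co
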