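import Pool.Agent.Lib.MP_9f84a9_co.F.StmF4

set_option autoImplicit false

namespace Pool.Agent.Lib.MP_9f84a9_co

open Finset Filter Topology

theorem t_F42 (hA1 : S_A1) (hA2 : S_A2) (hB1 : S_B1) (hB4 : S_B4) (hB5 : S_B5) (hB10 : S_B10)
    (hF20 : S_F20) (hF22 : S_F22) (hF24 : S_F24) (hF28 : S_F28) : S_F42 := by
  intro N Cl P R1 q hq a b w l r hE hab
  classical
  obtain ⟨hvl, hok, hK, hsym, hB⟩ := hB1 N q.D _ hE
  have hqok := hq.ok
  have hDok : (Dsc.mk a b (PT.node w l r) PT.nil).ok := hok.1 hqok.dok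
  obtain ⟨c1, c2, c3, c4, c5⟩ := hB10 N a b w l r hDok
  have hCn : Cn q.D.K := hB5 N q.D hqok.dok
  have hCn1 : Cn (Dsc.mk a w l r).K := hB5 N _ c1
  have hce : IsCost (ce q.p) := (hA1 N).1 q.p
  obtain ⟨d0, dself, dsymm, dtri, dstp⟩ := hA2 N q.D.K (ce q.p) hce hCn
  obtain ⟨e0, eself, esymm, etri, estp⟩ := hA2 N _ (ce q.p) hce hCn1
  obtain ⟨F, F1, F2, F3, F4⟩ := hF28 N a b w l r q.p hDok hab
  obtain ⟨-, -, -, -, a5, a6, -, -, -⟩ := hA1 N
  have hin : ∀ v ∈ q.D.vl, In q.D.K (vx v) := (hF24 N Cl P q hqok).1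
  have hin1 : ∀ v ∈ (Dsc.mk a w l r).vl, In (Dsc.mk a w l r).K (vx v) := by
    intro v hv
    obtain ⟨f, hf, hvf⟩ := (hB4 N _ c1).2.1 v hv
    exact (a5 _ f v hf hvf).1
  have hsub : ∀ v ∈ (Dsc.mk a w l r).vl, v ∈ q.D.vl := by
    intro v hv
    rw [hvl.mem_iff, c2.mem_iff]
    exact List.mem_cons_of_mem _ hv
  have ha1 : a ∈ (Dsc.mk a w l r).vl := by simp [Dsc.vl]
  have haD : a ∈ q.D.vl := hsub a ha1
  have hbD : b ∈ q.D.vl := by
    rw [hvl.mem_iff, c2.mem_iff]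
    exact List.mem_cons_self
  have hface : ({a, b, w} : Finset (Fin N)) ∈ q.D.K := by
    rw [hK]
    simp [Dsc.K, PT.fac]
  have hd0 : dK q.D.K (ce q.p) (vx a) (vx b) = 0 := by
    refine (hF20 N q.D.K q.p hCn).2.2 (vx a) (vx b) ⟨hin a haD, hin b hbD, _, hface, ?_, ?_⟩ ?_
    · exact (a5 _ _ a hface (by simp)).2
    · exact (a5 _ _ b hface (by simp)).2
    · rw [a6, a6]
      exact hab
  have hlab0 : q.lab a = q.lab b := hq.nmin a haD b hbD hd0
  -- the map of the vertices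
  obtain ⟨ν, hν⟩ : ∃ ν : Fin N → Fin N, ν = fun v => if v = b then a else v := ⟨_, rfl⟩
  have hν2 : ∀ v ∈ q.D.vl, ν v ∈ (Dsc.mk a w l r).vl := by
    intro v hv
    rw [hν]
    dsimp only
    split_ifs with h
    · exact ha1
    · rw [hvl.mem_iff, c2.mem_iff, List.mem_cons] at hv
      exact hv.resolve_left h
  have hνlab : ∀ v, q.lab (ν v) = q.lab v := by
    intro v
    rw [hν]
    dsimp only
    split_ifs with h
    · rw [h]
      exact hlab0
    · rfl
  have hFν : ∀ v, F (vx v) = vx (ν v) := by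
    intro v
    rw [hν, F3]
  have hKK : ∀ x, In q.D.K x ↔ In (Dsc.mk a b (PT.node w l r) PT.nil).K x := by
    intro x
    rw [hK]
  obtain ⟨g1, g2, g3, g4, g5⟩ := hF22 N q.D.K (Dsc.mk a w l r).K (ce q.p) (ce q.p) hce hce
    hCn hCn1 F ν q.T (fun x hx => F1 x ((hKK x).1 hx))
    (fun x y hx hy => by
      have := F2 x y ((hKK x).1 hx) ((hKK y).1 hy)
      rw [hK]
      exact this)
    (fun z hz => hqok.nods z hz)
    (fun v hv => by
      have hv' : v ∈ q.lv := hv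
      have h1 := hin1 _ (hν2 v (hqok.lvs v hv'))
      refine ⟨hin v (hqok.lvs v hv'), h1, ?_⟩
      rw [hFν]
      exact eself _ h1)
  obtain ⟨q', hq'⟩ : ∃ q' : Piece N, q' = ⟨Dsc.mk a w l r, q.p, q.lab,
    (q.T.1.mp F ν, q.T.2.mp F ν)⟩ := ⟨_, rfl⟩
  have hlv' : q'.lv = q.lv.map ν := by
    rw [hq']
    exact g3
  have hok' : q'.ok Cl P := by
    refine ⟨?_, ?_, ?_, ?_, ?_, ?_⟩
    · rw [hq']
      exact c1
    · rw [hq']
      exact c5 q.p hab (((hB q.p).1).1 hqok.wpos)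
    · rw [hq']
      exact hqok.labs
    · rw [hq']
      exact g2
    · intro v hv
      rw [hlv', List.mem_map] at hv
      obtain ⟨u, hu, rfl⟩ := hv
      rw [hq']
      exact hν2 u (hqok.lvs u hu)
    · rw [hq']
      intro v hv w hw
      exact hqok.diam v (hsub v hv) w (hsub w hw)
  have hL' : q'.L ≤ q.L := by
    rw [hq']
    exact g1
  have hlab' : q'.lv.map q'.lab = q.lv.map q.lab := by
    rw [hlv', List.map_map]
    apply List.map_congr_left
    intro v hv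
    have h1 : q'.lab = q.lab := by rw [hq']
    rw [Function.comp_apply, h1]
    exact hνlab v
  have htr := (hq.tr q' hok' hL' hlab' (by
    intro v' hv' w' hw'
    rw [hq'] at hv' hw'
    refine ⟨v', hsub v' hv', w', hsub w' hw', by rw [hq'], by rw [hq'], ?_⟩
    have h1 := F4 v' hv' w' hw'
    rw [← hK] at h1
    rw [hq']
    exact h1)).1
  rw [hvl.length_eq, hq', c2.length_eq] at htr
  simp only [List.length_cons] at htr
  omega

end Pool.Agent.Lib.MP_9f84a9_co
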