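import Pool.Agent.Lib.MP_9f84a9_co.F.StmF4

set_option autoImplicit false

namespace Pool.Agent.Lib.MP_9f84a9_co

open Finset Filter Topology

private theorem F43_leaf {N : ℕ} : ∀ A : Net N, 1 ≤ A.leaves.length
  | Net.leaf _ => by simp [Net.leaves]
  | Net.node _ l r => by
    have := F43_leaf l
    simp only [Net.leaves, List.length_append]
    omega

theorem t_F43 (hA1 : S_A1) (hB1 : S_B1) (hB4 : S_B4) (hB5 : S_B5)
    (hF20 : S_F20) (hF27 : S_F27) (hF40 : S_F40) (hF41 : S_F41) (hF42 : S_F42) : S_F43 := by
  intro N Cl P R1 q hq a b P' R hE hab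
  classical
  obtain ⟨hvl, hok, hK, hsym, hB⟩ := hB1 N q.D _ hE
  have hqok := hq.ok
  have hDok : (Dsc.mk a b P' R).ok := hok.1 hqok.dok
  have hEs : Dsc.Eqv q.D ⟨b, a, R, P'⟩ := hE.trans (Relation.ReflTransGen.single (Dsc.Mv.sw a b P' R))
  by_cases hP : P' = PT.nil
  · by_cases hR : R = PT.nil
    · -- no triangle
      subst hP
      subst hR
      have hCn : Cn q.D.K := hB5 N q.D hqok.dok
      obtain ⟨-, -, -, -, a5, a6, -, -, -⟩ := hA1 N
      have hface : ({a, b} : Finset (Fin N)) ∈ q.D.K := by
        rw [hK]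
        simp [Dsc.K]
      have ha := a5 _ _ a hface (by simp)
      have hb := a5 _ _ b hface (by simp)
      have hd0 : dK q.D.K (ce q.p) (vx a) (vx b) = 0 := by
        refine (hF20 N q.D.K q.p hCn).2.2 (vx a) (vx b) ⟨ha.1, hb.1, _, hface, ha.2, hb.2⟩ ?_
        rw [a6, a6]
        exact hab
      have haD : a ∈ q.D.vl := by
        rw [hvl.mem_iff]
        simp [Dsc.vl]
      have hbD : b ∈ q.D.vl := by
        rw [hvl.mem_iff]
        simp [Dsc.vl]
      have hlab0 : q.lab a = q.lab b := hq.nmin a haD b hbD hd0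
      have hall : ∀ v ∈ q.lv, q.lab v = q.lab b := by
        intro v hv
        have := hqok.lvs v hv
        rw [hvl.mem_iff] at this
        simp only [Dsc.vl, PT.vs, List.append_nil, List.mem_cons, List.not_mem_nil, or_false] at this
        rcases this with h | h
        · rw [h]
          exact hlab0
        · rw [h]
      have hlen : 2 ≤ q.lv.length := by
        have h1 := F43_leaf q.T.1
        have h2 := F43_leaf q.T.2
        unfold Piece.lv
        rw [List.length_append]
        omega
      have hcls := hq.cls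
      have h0 : (q.lv.map q.lab)[0]'(by rw [List.length_map]; omega) =
          (q.lv.map q.lab)[1]'(by rw [List.length_map]; omega) := by
        rw [List.getElem_map, List.getElem_map, hall _ (List.getElem_mem _),
          hall _ (List.getElem_mem _)]
      have := (hcls.getElem_inj_iff).1 h0
      omega
    · obtain ⟨w, l, r, rfl⟩ : ∃ w l r, R = PT.node w l r := by
        cases R with
        | nil => exact absurd rfl hR
        | node w l r => exact ⟨w, l, r, rfl⟩
      subst hP
      exact hF42 N Cl P R1 q hq b a w l r hEs hab.symm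
  · obtain ⟨w, l, r, hPw⟩ : ∃ w l r, P' = PT.node w l r := by
      cases P' with
      | nil => exact absurd rfl hP
      | node w l r => exact ⟨w, l, r, rfl⟩
    by_cases hR : R = PT.nil
    · subst hR
      rw [hPw] at hE
      exact hF42 N Cl P R1 q hq a b w l r hE hab
    · obtain ⟨b1, b2, b3, b4, b5, b6, b7, b8, b9, b10⟩ := hB4 N ⟨a, b, P', R⟩ hDok
      dsimp only at b6 b7 b8 b9 b10
      have haD : a ∈ q.D.vl := by
        rw [hvl.mem_iff]
        simp [Dsc.vl]
      obtain ⟨k1, k2⟩ := hF27 N a b P' R q.p hDok hab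
      have hnd : (a :: b :: (P'.vs ++ R.vs)).Nodup := hDok
      rw [List.nodup_cons, List.nodup_cons, List.nodup_append] at hnd
      obtain ⟨n1, n2, n3, n4, n5⟩ := hnd
      rw [List.mem_cons, List.mem_append, not_or, not_or] at n1
      rw [List.mem_append, not_or] at n2
      have hvxin : ∀ (K : Cx N) (u : Fin N), In K (vx u) → ∃ f ∈ K, u ∈ f := by
        intro K u hu
        obtain ⟨-, -, f, hf, hs⟩ := hu
        refine ⟨f, hf, ?_⟩
        by_contra h
        have := hs u h
        simp [vx] at this
      rcases hF40 N Cl P R1 q hq a haD (fun x => In (Dsc.mk a b P' PT.nil).K x)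
        (fun x => In (Dsc.mk b a R PT.nil).K x)
        (fun x hx => k1 x (by rw [← hK]; exact hx))
        (fun x y _ _ hx hy => by
          have := k2 x y hx hy
          rw [← hK] at this
          exact this) with h | h
      · obtain ⟨u, hu, huR, hu1, hu2⟩ := hF41 N Cl P R1 q hq a b P' R hE hR
        obtain ⟨f, hf, huf⟩ := hvxin _ u (h u hu hu1)
        rcases (b9 f hf).2 u huf with h1 | h1 | h1
        · exact n1.2.2 (h1 ▸ huR)
        · exact n2.2 (h1 ▸ huR)
        · exact n5 u h1 u huR rfl
      · obtain ⟨u, hu, huP, hu1, hu2⟩ := hF41 N Cl P R1 q hq b a R P' hEs hP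
        obtain ⟨f, hf, huf⟩ := hvxin _ u (h u hu hu2)
        rcases (b10 f hf).2 u huf with h1 | h1 | h1
        · exact n1.2.1 (h1 ▸ huP)
        · exact n2.1 (h1 ▸ huP)
        · exact n5 u huP u h1 rfl

end Pool.Agent.Lib.MP_9f84a9_co
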