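import Pool.Agent.Lib.MP_9f84a9_co.F.StmF4

set_option autoImplicit false

namespace Pool.Agent.Lib.MP_9f84a9_co

open Finset Filter Topology

private theorem F44_ar (u v w c : E) : ar (u - c) (v - c) (w - c) = ar u v w := by
  unfold ar
  simp only [PiLp.sub_apply]
  ring

theorem t_F44 (hA1 : S_A1) (hA2 : S_A2) (hB1 : S_B1) (hB4 : S_B4) (hB5 : S_B5) (hB9 : S_B9)
    (hF22 : S_F22) (hF24 : S_F24) (hF31 : S_F31) (hF33 : S_F33) : S_F44 := by
  intro N Cl P R1 q hq a b w x l r l' r' hE s t hs0 hs1 ht0 ht1 heq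
  classical
  obtain ⟨hvl, hok, hK, hsym, hB⟩ := hB1 N q.D _ hE
  have hqok := hq.ok
  have hDok : (Dsc.mk a b (PT.node w l r) (PT.node x l' r')).ok := hok.1 hqok.dok
  obtain ⟨c1, ⟨F, F1, F2, F3⟩, ⟨G, G1, G2, G3⟩⟩ :=
    hF31 N a b w x l r l' r' q.p s t hDok hs0 hs1 ht0 ht1 heq
  have hper := (hB9 N a b w x l r l' r').1
  have hCn : Cn q.D.K := hB5 N q.D hqok.dok
  have hCn1 : Cn (flp a b w x l r l' r').K := hB5 N _ c1
  have hce : IsCost (ce q.p) := (hA1 N).1 q.p
  obtain ⟨e0, eself, esymm, etri, estp⟩ := hA2 N _ (ce q.p) hce hCn1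
  obtain ⟨-, -, -, -, a5, a6, -, -, -⟩ := hA1 N
  have hin : ∀ v ∈ q.D.vl, In q.D.K (vx v) := (hF24 N Cl P q hqok).1
  have hin1 : ∀ v ∈ (flp a b w x l r l' r').vl, In (flp a b w x l r l' r').K (vx v) := by
    intro v hv
    obtain ⟨f, hf, hvf⟩ := (hB4 N _ c1).2.1 v hv
    exact (a5 _ f v hf hvf).1
  have hmem : ∀ v, v ∈ (flp a b w x l r l' r').vl ↔ v ∈ q.D.vl := by
    intro v
    rw [hvl.mem_iff, hper.mem_iff]
  have hKK : ∀ y, In q.D.K y ↔ In (Dsc.mk a b (PT.node w l r) (PT.node x l' r')).K y := by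
    intro y
    rw [hK]
  obtain ⟨g1, g2, g3, g4, g5⟩ := hF22 N q.D.K (flp a b w x l r l' r').K (ce q.p) (ce q.p) hce hce
    hCn hCn1 F id q.T (fun y hy => (F1 y ((hKK y).1 hy)).1)
    (fun y z hy hz => by
      have := F2 y z ((hKK y).1 hy) ((hKK z).1 hz)
      rw [hK]
      exact this)
    (fun z hz => hqok.nods z hz)
    (fun v hv => by
      have hv' : v ∈ q.lv := hv
      have h1 := hin1 _ ((hmem v).2 (hqok.lvs v hv'))
      refine ⟨hin v (hqok.lvs v hv'), h1, ?_⟩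
      rw [F3]
      exact eself _ h1)
  obtain ⟨q', hq'⟩ : ∃ q' : Piece N, q' = ⟨flp a b w x l r l' r', q.p, q.lab,
    (q.T.1.mp F id, q.T.2.mp F id)⟩ := ⟨_, rfl⟩
  have hlv' : q'.lv = q.lv := by
    rw [hq']
    rw [List.map_id] at g3
    exact g3
  have hnd' : q'.nd = q.nd.map F := by
    rw [hq']
    exact g4
  have hroot : q'.root = q.root := by
    rw [hq']
    exact g5
  have hp' : q'.p = q.p := by rw [hq']
  have hvl' : q'.D.vl.Perm q.D.vl := by
    rw [hq']
    exact (hvl.trans hper).symm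
  have hok' : q'.ok Cl P := by
    refine ⟨?_, ?_, ?_, ?_, ?_, ?_⟩
    · rw [hq']
      exact c1
    · rw [hq']
      exact ((hF33 N a b w x l r l' r' q.p s t hs0.le hs1.le heq).1 (((hB q.p).1).1 hqok.wpos)).1
    · rw [hq']
      exact hqok.labs
    · rw [hq']
      exact g2
    · intro v hv
      rw [hlv'] at hv
      rw [hvl'.mem_iff]
      exact hqok.lvs v hv
    · intro v hv w hw
      rw [hvl'.mem_iff] at hv hw
      rw [hp']
      exact hqok.diam v hv w hw
  have hL' : q'.L ≤ q.L := by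
    rw [hq']
    exact g1
  have hlab' : q'.lv.map q'.lab = q.lv.map q.lab := by
    rw [hlv', hq']
  have hPhi : q.Phi R1 ≤ q'.Phi R1 := by
    apply le_of_eq
    unfold Piece.Phi
    rw [hp', hroot, hnd', List.map_map]
    congr 1
    · exact ((hvl'.map _).sum_eq).symm
    · congr 1
      apply List.map_congr_left
      intro z hz
      rw [Function.comp_apply, (F1 z ((hKK z).1 (hqok.nods z hz))).2]
  obtain ⟨-, htr⟩ := hq.tr q' hok' hL' hlab' (by
    intro v' hv' w' hw'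
    rw [hvl'.mem_iff] at hv' hw'
    refine ⟨v', hv', w', hw', by rw [hq'], by rw [hq'], ?_⟩
    have h1 := G2 (vx v') (vx w') (hin1 v' ((hmem v').2 hv')) (hin1 w' ((hmem w').2 hw'))
    rw [G3, G3, ← hK] at h1
    rw [hq']
    exact h1)
  obtain ⟨ht1', ht2'⟩ := htr hvl'.length_eq.le hPhi
  -- the functional I
  have hI : Iq q - Iq q' = (ar (q.p a) (q.p b) (q.p w) + ar (q.p b) (q.p a) (q.p x)) *
      (s * (1 - s) * dist (q.p a) (q.p b) ^ 2 - t * (1 - t) * dist (q.p x) (q.p w) ^ 2) := by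
    unfold Iq
    rw [hp', hroot, (hB _).2.2.1]
    have h1 := (hF33 N a b w x l r l' r' (fun v => q.p v - q.p q.root) s t hs0.le hs1.le (by
      have e1 : (1 - s) • (q.p a - q.p q.root) + s • (q.p b - q.p q.root) =
        ((1 - s) • q.p a + s • q.p b) - q.p q.root := by module
      have e2 : (1 - t) • (q.p x - q.p q.root) + t • (q.p w - q.p q.root) =
        ((1 - t) • q.p x + t • q.p w) - q.p q.root := by module
      rw [e1, e2, heq])).2.1
    rw [F44_ar, F44_ar, dist_sub_right, dist_sub_right] at h1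
    rw [hq']
    exact h1
  refine ⟨by linarith, fun h0 => ?_⟩
  have h2 := ht2' (by linarith)
  have h3 := (hF33 N a b w x l r l' r' q.p s t hs0.le hs1.le heq).2.2
  rw [(hB q.p).2.2.2, hp', hq'] at h2
  dsimp only at h2
  have h4 : dist (q.p a) (q.p b) ^ 2 ≤ dist (q.p x) (q.p w) ^ 2 := by linarith
  exact (pow_le_pow_iff_left₀ dist_nonneg dist_nonneg two_ne_zero).1 h4

end Pool.Agent.Lib.MP_9f84a9_co
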