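import Pool.Agent.Lib.MP_9f84a9_co.F.StmF4

/-!
# MP_9f84a9_co, [GP F45]
-/

set_option autoImplicit false

namespace Pool.Agent.Lib.MP_9f84a9_co

open Finset Filter Topology

namespace F45

theorem vx_self {N : ℕ} (v : Fin N) : vx v v = 1 := by
  simp [vx]

theorem vx_ne {N : ℕ} {v u : Fin N} (h : u ≠ v) : vx v u = 0 := by
  simp [vx, h]

theorem sup_mem {N : ℕ} {v : Fin N} {f : Finset (Fin N)} (h : Sup (vx v) f) : v ∈ f := by
  by_contra hv
  have := h v hv
  rw [vx_self] at this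
  exact one_ne_zero this

/-- a vertex in the `P` side is not in the `R` side -/
theorem side {N : ℕ} (hB4 : S_B4) (a b : Fin N) (P R : PT N) (hok : (Dsc.mk a b P R).ok)
    (u : Fin N) (hu : u ∈ R.vs) : ¬ In (Dsc.mk a b P PT.nil).K (vx u) := by
  rintro ⟨_, _, f, hf, hs⟩
  have huf := sup_mem hs
  have h := ((hB4 N _ hok).2.2.2.2.2.2.2.2.1 f hf).2 u huf
  have hnd : (a :: b :: (P.vs ++ R.vs)).Nodup := hok
  rw [List.nodup_cons, List.nodup_cons, List.nodup_append] at hnd
  obtain ⟨h1, h2, _, _, h5⟩ := hnd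
  have h' : u = a ∨ u = b ∨ u ∈ P.vs := h
  rcases h' with h | h | h
  · subst h
    exact h1 (List.mem_cons_of_mem _ (List.mem_append_right _ hu))
  · subst h
    exact h2 (List.mem_append_right _ hu)
  · exact h5 u h u hu rfl

end F45

theorem t_F45 (hB1 : S_B1) (hB4 : S_B4) (hF35 : S_F35) (hF40 : S_F40) (hF41 : S_F41) : S_F45 := by
  intro N Cl P R1 q hFi a b w l r s hE hs0 hs1 hw
  have hD := hB1 N q.D _ hE
  have hDok : (Dsc.mk a b (PT.node w l r) PT.nil).ok := hD.2.1.1 hFi.ok.dok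
  have hK : q.D.K = (Dsc.mk a b (PT.node w l r) PT.nil).K := hD.2.2.1
  have hwv : w ∈ q.D.vl := by
    refine hD.1.symm.subset ?_
    simp [Dsc.vl, PT.vs]
  have hE1 : Dsc.Eqv q.D ⟨a, w, l, PT.node b r PT.nil⟩ := hE.tail (Dsc.Mv.lf a b w l r PT.nil)
  have hE2 : Dsc.Eqv q.D ⟨w, b, r, PT.node a PT.nil l⟩ := hE.tail (Dsc.Mv.rt a b w l r PT.nil)
  have hok1 := (hB1 N q.D _ hE1).2.1.1 hFi.ok.dok
  have hok2 := (hB1 N q.D _ hE2).2.1.1 hFi.ok.dok
  obtain ⟨hcov, hpin⟩ := hF35 N a b w l r q.p s hDok hs0 hs1 hw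
  have hnd : (a :: b :: ((w :: (l.vs ++ r.vs)) ++ [])).Nodup := hDok
  have hab : a ≠ b := by
    intro h
    rw [List.nodup_cons] at hnd
    exact hnd.1 (h ▸ List.mem_cons_self)
  have hcases := hF40 N Cl P R1 q hFi w hwv
    (fun x => In (Dsc.mk a w l PT.nil).K x ∨ (Sup x {a, b, w} ∧ (1 - s) * x b ≤ s * x a))
    (fun x => In (Dsc.mk w b r PT.nil).K x ∨ (Sup x {a, b, w} ∧ s * x a ≤ (1 - s) * x b))
    (by
      intro x hx
      rw [hK] at hx
      exact hcov x hx)
    (by
      intro x y hx hy h1 h2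
      unfold Piece.d
      rw [hK] at hx hy ⊢
      exact hpin x y hx hy h1 h2)
  rcases hcases with hc | hc
  · obtain ⟨u, hu, huR, _, huw⟩ := hF41 N Cl P R1 q hFi a w l (PT.node b r PT.nil) hE1
      (by intro h; cases h)
    have hX := hc u hu huw
    rcases hX with hX | ⟨hS, hle⟩
    · exact F45.side hB4 a w l (PT.node b r PT.nil) hok1 u huR hX
    · have hmem := F45.sup_mem hS
      have hnd1 : (a :: w :: (l.vs ++ (PT.node b r PT.nil).vs)).Nodup := hok1
      rw [List.nodup_cons, List.nodup_cons] at hnd1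
      rw [Finset.mem_insert, Finset.mem_insert, Finset.mem_singleton] at hmem
      rcases hmem with h | h | h
      · exact hnd1.1 (List.mem_cons_of_mem _ (List.mem_append_right _ (h ▸ huR)))
      · subst h
        rw [F45.vx_self, F45.vx_ne hab] at hle
        linarith
      · exact hnd1.2.1 (List.mem_append_right _ (h ▸ huR))
  · obtain ⟨u, hu, huR, huw, _⟩ := hF41 N Cl P R1 q hFi w b r (PT.node a PT.nil l) hE2
      (by intro h; cases h)
    have hX := hc u hu huw
    rcases hX with hX | ⟨hS, hle⟩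
    · exact F45.side hB4 w b r (PT.node a PT.nil l) hok2 u huR hX
    · have hmem := F45.sup_mem hS
      have hnd1 : (w :: b :: (r.vs ++ (PT.node a PT.nil l).vs)).Nodup := hok2
      rw [List.nodup_cons, List.nodup_cons] at hnd1
      rw [Finset.mem_insert, Finset.mem_insert, Finset.mem_singleton] at hmem
      rcases hmem with h | h | h
      · subst h
        rw [F45.vx_self, F45.vx_ne hab.symm] at hle
        linarith
      · exact hnd1.2.1 (List.mem_append_right _ (h ▸ huR))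
      · exact hnd1.1 (List.mem_cons_of_mem _ (List.mem_append_right _ (h ▸ huR)))

end Pool.Agent.Lib.MP_9f84a9_co
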