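import Pool.Agent.Lib.MP_9f84a9_co.F.StmF4

/-!
# MP_9f84a9_co, F46: all triangles of a piece of the extremal configuration are positive.
-/

set_option autoImplicit false

namespace Pool.Agent.Lib.MP_9f84a9_co

open Finset Filter Topology

namespace F46

/-- `(a,b)` is the long side of a degenerate triangle of `D` -/
private def Nd {N : ℕ} (D : Dsc N) (p : Fin N → E) (a b : Fin N) : Prop :=
  ∃ (w : Fin N) (l r R : PT N) (s : ℝ), Dsc.Eqv D ⟨a, b, PT.node w l r, R⟩ ∧ 0 < s ∧ s < 1 ∧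
    p w = (1 - s) • p a + s • p b

private lemma ar_col (u v w : E) (s : ℝ) (h : w = (1 - s) • u + s • v) : ar u v w = 0 := by
  subst h
  simp only [ar, PiLp.add_apply, PiLp.smul_apply, smul_eq_mul]
  ring

/-- a degenerate triangle can be rotated into normal form -/
private lemma nd_of {N : ℕ} {Cl : Finset ℕ} {P R1 : ℝ} {q : Piece N} (h34 : S_F34) (h36 : S_F36)
    (h43 : S_F43) (hq : Fi Cl P R1 q) {a b w : Fin N} {l r R : PT N}
    (he : Dsc.Eqv q.D ⟨a, b, PT.node w l r, R⟩) (h0 : ar (q.p a) (q.p b) (q.p w) = 0) :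
    ∃ a' b', Nd q.D q.p a' b' := by
  obtain ⟨e1, e2, -, -, -⟩ := (h36 N q.D q.p).2.2 a b w l r R he
  have n1 := h43 N Cl P R1 q hq _ _ _ _ he
  have n2 := h43 N Cl P R1 q hq _ _ _ _ e1
  have n3 := h43 N Cl P R1 q hq _ _ _ _ e2
  rcases h34.1 (q.p a) (q.p b) (q.p w) h0 n1 n3 n2.symm with ⟨s, hs0, hs1, h⟩ | ⟨s, hs0, hs1, h⟩ |
    ⟨s, hs0, hs1, h⟩
  · exact ⟨a, b, w, l, r, R, s, he, hs0, hs1, h⟩
  · exact ⟨b, w, a, R, l, r, s, e2, hs0, hs1, h⟩
  · exact ⟨w, a, b, r, R, l, s, e1, hs0, hs1, h⟩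

/-- the longest degenerate triangle gives a contradiction -/
private lemma no_max {N : ℕ} {Cl : Finset ℕ} {P R1 : ℝ} {q : Piece N} (h34 : S_F34)
    (h36 : S_F36) (h43 : S_F43) (h44 : S_F44) (h45 : S_F45) (hq : Fi Cl P R1 q) {a b : Fin N}
    (hn : Nd q.D q.p a b)
    (hm : ∀ a' b', Nd q.D q.p a' b' → dist (q.p a') (q.p b') ≤ dist (q.p a) (q.p b)) : False := by
  obtain ⟨w, l, r, R, s, he, hs0, hs1, hw⟩ := hn
  have nab : q.p a ≠ q.p b := h43 N Cl P R1 q hq _ _ _ _ he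
  have hd : 0 < dist (q.p a) (q.p b) := dist_pos.2 nab
  cases R with
  | nil => exact h45 N Cl P R1 q hq a b w l r s he hs0 hs1 hw
  | node x l' r' =>
    obtain ⟨-, -, -, -, e5⟩ := (h36 N q.D q.p).2.2 a b w l r _ he
    have hb : 0 ≤ ar (q.p b) (q.p a) (q.p x) := (h36 N q.D q.p).2.1 hq.ok.wpos b a x l' r' _ e5
    have hA : ar (q.p a) (q.p b) (q.p w) = 0 := ar_col _ _ _ s hw
    have hc : (1 - s) • q.p a + s • q.p b = (1 - (1 : ℝ)) • q.p x + (1 : ℝ) • q.p w := by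
      rw [hw]; simp
    obtain ⟨c1, c2⟩ := h44 N Cl P R1 q hq a b w x l r l' r' he s 1 hs0 hs1 one_pos le_rfl hc
    rw [hA] at c1 c2
    rcases hb.lt_or_eq with hb | hb
    · have h1 : 0 < s * (1 - s) * dist (q.p a) (q.p b) ^ 2 :=
        mul_pos (mul_pos hs0 (by linarith)) (pow_pos hd 2)
      have h2 := mul_pos hb h1
      nlinarith
    · have hb' : ar (q.p b) (q.p a) (q.p x) = 0 := hb.symm
      have c3 := c2 (by rw [hb']; ring)
      obtain ⟨e1, e2, -, -, -⟩ := (h36 N q.D q.p).2.2 b a x l' r' _ e5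
      have n2 := h43 N Cl P R1 q hq _ _ _ _ e1
      have n3 := h43 N Cl P R1 q hq _ _ _ _ e2
      rcases h34.1 (q.p b) (q.p a) (q.p x) hb' nab.symm n3 n2.symm with ⟨t, ht0, ht1, h⟩ |
        ⟨t, ht0, ht1, h⟩ | ⟨t, ht0, ht1, h⟩
      · have h' : q.p x = (1 - (1 - t)) • q.p a + (1 - t) • q.p b := by
          rw [h]; rw [sub_sub_cancel]; exact add_comm _ _
        have := h34.2.2.1 (q.p a) (q.p b) (q.p w) (q.p x) s (1 - t) hs0 hs1 (by linarith)
          (by linarith) nab hw h'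
        linarith
      · have h1 := hm a x ⟨b, _, _, _, t, e2, ht0, ht1, h⟩
        have h2 := (h34.2.1 (q.p a) (q.p x) (q.p b) t ht0 ht1 n3 h).1
        linarith
      · have h1 := hm x b ⟨a, _, _, _, t, e1, ht0, ht1, h⟩
        have h2 := (h34.2.1 (q.p x) (q.p b) (q.p a) t ht0 ht1 n2 h).2.1
        linarith

end F46

theorem t_F46 (h34 : S_F34) (h36 : S_F36) (h43 : S_F43) (h44 : S_F44) (h45 : S_F45) : S_F46 := by
  classical
  intro N Cl P R1 q hq
  refine (h36 N q.D q.p).1 fun a b w l r R he => ?_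
  have h0 := (h36 N q.D q.p).2.1 hq.ok.wpos a b w l r R he
  rcases h0.lt_or_eq with h | h
  · exact h
  · exfalso
    obtain ⟨a', b', hn⟩ := F46.nd_of h34 h36 h43 hq he h.symm
    obtain ⟨e, he1, he2⟩ := Finset.exists_max_image
      ((Finset.univ : Finset (Fin N × Fin N)).filter fun e => F46.Nd q.D q.p e.1 e.2)
      (fun e => dist (q.p e.1) (q.p e.2)) ⟨(a', b'), by simp [hn]⟩
    refine F46.no_max h34 h36 h43 h44 h45 hq (a := e.1) (b := e.2) (by simpa using he1) ?_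
    intro a'' b'' h''
    exact he2 (a'', b'') (by simp [h''])

end Pool.Agent.Lib.MP_9f84a9_co
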