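import Pool.Agent.Lib.MP_9f84a9_co.F.StmF4

/-!
# MP_9f84a9_co [F48]: the structure `Surg`, from `Fi`.
-/

set_option autoImplicit false

namespace Pool.Agent.Lib.MP_9f84a9_co

open Finset Filter Topology

namespace F48

theorem mem_of_sup {N : ℕ} {v : Fin N} {f : Finset (Fin N)} (h : Sup (vx v) f) : v ∈ f := by
  by_contra hv
  have h1 := h v hv
  unfold vx at h1
  rw [Pi.single_eq_same] at h1
  exact one_ne_zero h1

end F48

theorem t_F48 (hA1 : S_A1) (hA2 : S_A2) (hB1 : S_B1) (hB4 : S_B4) (hB5 : S_B5) (hX3 : S_X3)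
    (hF24 : S_F24) (hF32 : S_F32) (hF41 : S_F41) (hF44 : S_F44) (hF46 : S_F46)
    (hF47 : S_F47) : S_F48 := by
  intro N Cl P R1 q hq htwo
  have hsp : q.D.SPos q.p := hF46 N Cl P R1 q hq
  have hcost : IsCost (ce q.p) := (hA1 N).1 q.p
  have hcn : Cn q.D.K := hB5 N q.D hq.ok.dok
  have hself : ∀ x, In q.D.K x → q.d x x = 0 := (hA2 N q.D.K (ce q.p) hcost hcn).2.1
  refine ⟨hq.cls, hsp, ?_, ?_, ?_, ?_, ?_, htwo⟩
  · -- nv
    intro z hz v hzv
    obtain ⟨T'', hE, htop, l, r, hnode⟩ :=
      (hX3 N q.T q.T Relation.ReflTransGen.refl).2.2.2.1 z hz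
    have hzK : In q.D.K z := hq.ok.nods z hz
    have hvl : v ∈ q.D.vl := by
      obtain ⟨_, _, f, hf, hs⟩ := hzK
      rw [hzv] at hs
      exact (hB4 N q.D hq.ok.dok).1 f hf v (F48.mem_of_sup hs)
    have h0 : q.d T''.1.top (vx v) = 0 := by
      rw [htop, ← hzv]
      exact hself z hzK
    have h1 : q.d T''.1.top (vx v) + q.d (vx v) T''.2.top ≤ q.d T''.1.top T''.2.top := by
      rw [h0, zero_add, htop, hzv]
    rcases hq.split T'' hE v hvl h1 with ⟨u, hu, _⟩ | ⟨u, hu, hd⟩
    · rw [hnode] at hu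
      exact absurd hu (by simp)
    · have hE2 : Net.Eqv q.T (T''.2, T''.1) := hE.tail (Net.Mv.sw T''.1 T''.2)
      have := hq.leaf _ hE2 u hu
      have h2 : q.d (vx u) T''.1.top = 0 := by rw [htop, hzv]; exact hd
      simp only at this
      rw [h2] at this
      exact lt_irrefl _ this
  · -- le
    intro T' hE v hv htop
    have h1 := hq.leaf T' hE v hv
    have h2 : In q.D.K (vx v) := by
      have := ((hF24 N Cl P q hq.ok).2 T' hE).1
      rwa [hv] at this
    rw [htop, hself _ h2] at h1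
    exact lt_irrefl _ h1
  · -- split
    intro T' hE w hw hw1 hw2
    by_contra hlt
    have hle := not_lt.1 hlt
    have hperm := (hX3 N q.T T' hE).1
    rcases hq.split T' hE w hw hle with ⟨u, hu, hd⟩ | ⟨u, hu, hd⟩
    · have hmem : u ∈ q.lv := by
        apply hperm.symm.subset
        rw [hu]
        simp [Net.leaves]
      have huw : u = w := by
        by_contra hne
        have := hF47 N Cl P R1 q hq hsp u (hq.ok.lvs u hmem) w hw hne
        rw [hd] at this
        exact lt_irrefl _ this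
      apply hw1
      rw [hu, huw]
      rfl
    · have hmem : u ∈ q.lv := by
        apply hperm.symm.subset
        rw [hu]
        simp [Net.leaves]
      have huw : u = w := by
        by_contra hne
        have := hF47 N Cl P R1 q hq hsp u (hq.ok.lvs u hmem) w hw hne
        rw [hd] at this
        exact lt_irrefl _ this
      apply hw2
      rw [hu, huw]
      rfl
  · -- ear
    intro D' hE hR
    obtain ⟨a, b, P', R⟩ := D'
    obtain ⟨u, h1, h2, _⟩ := hF41 N Cl P R1 q hq a b P' R hE hR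
    exact ⟨u, h1, h2⟩
  · -- del
    intro a b w x l r l' r' hE s t hs0 hs1 ht0 ht1 heq
    have hR : 0 ≤ t * (1 - t) * dist (q.p x) (q.p w) ^ 2 :=
      mul_nonneg (mul_nonneg ht0 (by linarith)) (sq_nonneg _)
    rcases eq_or_lt_of_le hs0 with h | hs0'
    · subst h
      have : (0 : ℝ) * (1 - 0) * dist (q.p a) (q.p b) ^ 2 = 0 := by ring
      rw [this]
      exact hR
    rcases eq_or_lt_of_le hs1 with h | hs1'
    · subst h
      have : (1 : ℝ) * (1 - 1) * dist (q.p a) (q.p b) ^ 2 = 0 := by ring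
      rw [this]
      exact hR
    have hsp' : (Dsc.mk a b (PT.node w l r) (PT.node x l' r')).SPos q.p :=
      ((hB1 N _ _ hE).2.2.2.2 q.p).2.1.1 hsp
    have p1 : 0 < ar (q.p a) (q.p b) (q.p w) := hsp'.1.1
    have p2 : 0 < ar (q.p b) (q.p a) (q.p x) := hsp'.2.1
    obtain ⟨e1, e2, _⟩ := hF32 (q.p a) (q.p b) (q.p w) (q.p x) s t heq
    have hA : 0 < ar (q.p a) (q.p b) (q.p w) + ar (q.p b) (q.p a) (q.p x) := add_pos p1 p2
    have ht0' : 0 < t := by
      rcases eq_or_lt_of_le ht0 with h | h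
      · rw [← h, zero_mul] at e2
        rw [e2] at p2
        exact absurd p2 (lt_irrefl _)
      · exact h
    have h44 := (hF44 N Cl P R1 q hq a b w x l r l' r' hE s t hs0' hs1' ht0' ht1 heq).1
    have h5 : s * (1 - s) * dist (q.p a) (q.p b) ^ 2 - t * (1 - t) * dist (q.p x) (q.p w) ^ 2 ≤ 0 := by
      by_contra hc
      have := mul_pos hA (not_le.1 hc)
      linarith
    linarith

end Pool.Agent.Lib.MP_9f84a9_co
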