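import Pool.Agent.Lib.MP_9f84a9_co.F.StmF2

/-!
# MP_9f84a9_co, module F (section 3), optimality arguments 3.3 - 3.7.  Statements with complete proofs in the docstrings.

All statements are about ONE piece `q` with the properties `Fi` (outputs of the combinatorial half).
-/

set_option autoImplicit false

namespace Pool.Agent.Lib.MP_9f84a9_co

open Finset Filter Topology

/-- Delaunay functional of a piece, relative to the root -/
noncomputable def Iq {N : ℕ} (q : Piece N) : ℝ := q.D.I (fun v => q.p v - q.p q.root)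

/-- properties of a piece `q` of the extremal configuration used in 3.3 - 3.7 -/
structure Fi {N : ℕ} (Cl : Finset ℕ) (P R1 : ℝ) (q : Piece N) : Prop where
  ok : q.ok Cl P
  /-- n-minimality -/
  nmin : ∀ v ∈ q.D.vl, ∀ w ∈ q.D.vl, q.d (vx v) (vx w) = 0 → q.lab v = q.lab w
  /-- leaves have distinct classes -/
  cls : (q.lv.map q.lab).Nodup
  /-- 3.1 -/
  leaf : ∀ T', Net.Eqv q.T T' → ∀ v, T'.1 = Net.leaf v → 0 < q.d (vx v) T'.2.top
  /-- 3.2 -/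
  split : ∀ T', Net.Eqv q.T T' → ∀ w ∈ q.D.vl,
    q.d T'.1.top (vx w) + q.d (vx w) T'.2.top ≤ q.d T'.1.top T'.2.top →
    (∃ u, T'.1 = Net.leaf u ∧ q.d (vx u) (vx w) = 0) ∨
    (∃ u, T'.2 = Net.leaf u ∧ q.d (vx u) (vx w) = 0)
  /-- transfer principle -/
  tr : ∀ q' : Piece N, q'.ok Cl P → q'.L ≤ q.L → q'.lv.map q'.lab = q.lv.map q.lab →
    (∀ v' ∈ q'.D.vl, ∀ w' ∈ q'.D.vl, ∃ v ∈ q.D.vl, ∃ w ∈ q.D.vl,
      q.lab v = q'.lab v' ∧ q.lab w = q'.lab w' ∧ q.d (vx v) (vx w) ≤ q'.d (vx v') (vx w')) →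
    q.D.vl.length ≤ q'.D.vl.length ∧
    (q'.D.vl.length ≤ q.D.vl.length → q.Phi R1 ≤ q'.Phi R1 →
      Iq q ≤ Iq q' ∧ (Iq q' ≤ Iq q → q.D.Q q.p ≤ q'.D.Q q'.p))

/-- output of the combinatorial half (helper79) -/
def S_Fi : Prop :=
  ∀ (N : ℕ) (Cl : Finset ℕ) (P R1 : ℝ) (S : Cfg N), Ctx Cl P R1 S → ∀ q ∈ S, Fi Cl P R1 q

/-- [F40] PINCH (3.4).
PROOF. Suppose both fail: leaves `u₁` with `d u₁ v > 0`, `¬ X1 (vx u₁)` and `u₂` with `d u₂ v > 0`, `¬ X2 (vx u₂)`; so `X1 (vx u₂)` (cover; leaves are points of the disc: `ok.lvs`, F24). F23 with `X = X1` gives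
`T' ~ q.T`, tops `s`, `t`, `¬ X1 s`, `X1 t`; `s, t ∈ K` (F24), so `X2 s`. So `d t v + d v s ≤ d t s`, by symmetry (A2, B5) `d s v + d v t ≤ d s t`. By `Fi.split`, `T'.1 = leaf u` with `d u v = 0` -
but then `u = u₁` - or `T'.2 = leaf u`, `d u v = 0`, `u = u₂`. Contradiction. -/
def S_F40 : Prop :=
  ∀ (N : ℕ) (Cl : Finset ℕ) (P R1 : ℝ) (q : Piece N), Fi Cl P R1 q → ∀ v ∈ q.D.vl,
    ∀ X1 X2 : Pt N → Prop, (∀ x, In q.D.K x → X1 x ∨ X2 x) →
    (∀ x y, In q.D.K x → In q.D.K y → X1 x → X2 y → q.d x (vx v) + q.d (vx v) y ≤ q.d x y) →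
    (∀ u ∈ q.lv, 0 < q.d (vx u) (vx v) → X1 (vx u)) ∨
    (∀ u ∈ q.lv, 0 < q.d (vx u) (vx v) → X2 (vx u))

/-- [F41] EAR (3.3).
PROOF. `D = ⟨a,b,P',R⟩`, `D₁ = ⟨a,b,P',nil⟩`; `q.D.K = D.K`, `q.D.vl ~ D.vl`, `D.ok`, `D.WPos q.p` by B1. Suppose the claim fails: each leaf `u` with `u ∈ R.vs` has `d u a = 0` or `d u b = 0` (`d ≥ 0`). Let
`ν v = v` if `v ∈ D₁.vl`, otherwise `a` if `d v a = 0`, otherwise `b`. `F` from F25. `q' = ⟨D₁, q.p, q.lab, (q.T.1.mp F ν, q.T.2.mp F ν)⟩`. Every leaf `v` of `q` is in `q.D.vl` (so in `D.vl`), and `v ∈ D₁.vl` or `v ∈ R.vs`.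
`d₁ (F (vx v)) (vx (ν v)) = 0`: if `v ∈ D₁.vl` then `F (vx v) = vx v` (it is a point of `D₁.K`, B4 (2), A1 (5)); otherwise `d v (ν v) = 0` with `ν v ∈ {a, b}`, `F (vx (ν v)) = vx (ν v)`, and
`d₁ (F (vx v)) (F (vx (ν v))) ≤ d v (ν v) = 0`. F22: `q'.L ≤ q.L`, nodes in `D₁.K`, leaves are `ν` of the leaves (in `D₁.vl`). `q'.ok`: `D₁.ok` (B4 (6)), `WPos` (half of `D.WPos`), labels, diameter (`D₁.vl ⊆ D.vl`).
Labels of leaves: `lab (ν v) = lab v` by `Fi.nmin` (`d v (ν v) = 0`, both are vertices) or trivially. Chords: `v', w' ∈ D₁.vl` are vertices of `q.D`, `q.d (vx v') (vx w') ≤ q'.d (vx v') (vx w')` by F25 (4). So `Fi.tr` gives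
`q.D.vl.length ≤ D₁.vl.length = 2 + P'.vs.length < 2 + P'.vs.length + R.vs.length = q.D.vl.length` (`R ≠ nil` has a vertex). Contradiction. -/
def S_F41 : Prop :=
  ∀ (N : ℕ) (Cl : Finset ℕ) (P R1 : ℝ) (q : Piece N), Fi Cl P R1 q →
    ∀ (a b : Fin N) (P' R : PT N), Dsc.Eqv q.D ⟨a, b, P', R⟩ → R ≠ PT.nil →
    ∃ u ∈ q.lv, u ∈ R.vs ∧ 0 < q.d (vx u) (vx a) ∧ 0 < q.d (vx u) (vx b)

/-- [F42] no zero boundary edge (3.5).
PROOF. `D = ⟨a,b,node w l r,nil⟩`, `D₁ = ⟨a,w,l,r⟩`, `g v = if v = b then a else v`, `F` from F28. Suppose `q.p a = q.p b`. `q' = ⟨D₁, q.p, q.lab, (q.T.1.mp F g, q.T.2.mp F g)⟩`. `vx a, vx b` are in the facet `{a,b,w}`, so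
`q.d (vx a) (vx b) = 0` (F20 (3)) and `q.lab a = q.lab b` (`Fi.nmin`). `F (vx v) = vx (g v)` and `g v ∈ D₁.vl` for `v ∈ D.vl` (B10 (2): `D.vl ~ b :: D₁.vl`, `a ∈ D₁.vl`; `b ∉ D₁.vl` as `D.ok`). F22: `q'.L ≤ q.L` etc. `q'.ok`: B10 (1), (5), B1 for
`WPos`. Labels: `lab (g v) = lab v`. Chords: F28 (4). `Fi.tr`: `q.D.vl.length ≤ D₁.vl.length = q.D.vl.length - 1`. Contradiction. -/
def S_F42 : Prop :=
  ∀ (N : ℕ) (Cl : Finset ℕ) (P R1 : ℝ) (q : Piece N), Fi Cl P R1 q →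
    ∀ (a b w : Fin N) (l r : PT N), Dsc.Eqv q.D ⟨a, b, PT.node w l r, PT.nil⟩ → q.p a ≠ q.p b

/-- [F43] no zero edge (3.5).
PROOF. `D = ⟨a,b,P',R⟩`; B1. Suppose `q.p a = q.p b`. `vx a`, `vx b` are in a common facet of `D.K` (unfold `K`), so `q.d (vx a) (vx b) = 0`, `q.lab a = q.lab b`. (i) `P' = R = nil`: all leaves are `a` or `b` (`ok.lvs`, `vl ~ [a,b]`), so they have the
same class; `q.lv` has at least 2 elements (each net has a leaf), contradiction to `Fi.cls`. (ii) `R = nil`, `P' = node`: F42. (iii) `P' = nil`, `R = node`: `⟨b,a,R,nil⟩ ~` by `sw`, F42. (iv) both not `nil`: F27 and F40 with `v = a`,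
`X1 = In ⟨a,b,P',nil⟩.K`, `X2 = In ⟨b,a,R,nil⟩.K`. First alternative: F41 gives a leaf `u ∈ R.vs` with `d u a > 0`, so `In ⟨a,b,P',nil⟩.K (vx u)`, so `u` is in a facet of it, `u = a ∨ u = b ∨ u ∈ P'.vs` (B4 (9)), contradiction
to `D.ok`. Second alternative: F41 for `⟨b,a,R,P'⟩` (`sw`) gives a leaf `u ∈ P'.vs` with `d u a > 0`, same contradiction with B4 (10). -/
def S_F43 : Prop :=
  ∀ (N : ℕ) (Cl : Finset ℕ) (P R1 : ℝ) (q : Piece N), Fi Cl P R1 q →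
    ∀ (a b : Fin N) (P' R : PT N), Dsc.Eqv q.D ⟨a, b, P', R⟩ → q.p a ≠ q.p b

/-- [F44] FLIP (3.6).
PROOF. `D = ⟨a,b,node w l r,node x l' r'⟩`, `D' = flp a b w x l r l' r'`; B1: `D.ok`, `D.WPos q.p`, `q.D.K = D.K`, `q.D.vl ~ D.vl`, `q.D.I p = D.I p`, `q.D.Q p = D.Q p` for every `p`. `F`, `G` from F31 with `p = q.p`.
`q' = ⟨D', q.p, q.lab, (q.T.1.mp F id, q.T.2.mp F id)⟩`. F22 (`ν = id`, `F (vx v) = vx v`, `D.vl ~ D'.vl` by B9, vertices are points by B4 (2)): `q'.L ≤ q.L`, `q'.lv = q.lv`, `q'.nd = q.nd.map F`, nodes in `D'.K`, `q'.root = q.root`. `q'.ok`: `D'.ok` (F31), `WPos`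
(F33), leaves, diameter (perm). Chords: `q.d (vx v) (vx w) = q.d (G (vx v)) (G (vx w)) ≤ q'.d (vx v) (vx w)`. `Phi`: the vertex lists are permutations of each other, same `p` and root; the nodes have the same positions: `pos p (F z) = pos p z`; so
`q'.Phi R1 = q.Phi R1`. `Fi.tr`: `Iq q ≤ Iq q'`, and `Iq q' ≤ Iq q → Q ≤ Q'`. With `p̃ v = q.p v - q.p q.root` (same for `q'`), F33 for `p̃` (the crossing equation is translation invariant: subtract `q.p root` on both sides) gives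
`Iq q - Iq q' = Ã (s(1-s) dist (p̃ a) (p̃ b)² - t(1-t) dist (p̃ x) (p̃ w)²)`, and `Ã = A` (`ar` is translation invariant), distances too. So `A * (...) = Iq q - Iq q' ≤ 0`; if it is `0` then `Q D ≤ Q D'`, so by F33 (3) for `q.p`
`dist (p a) (p b)² ≤ dist (p x) (p w)²`, `abs_le_of_sq_le` / `pow_le_pow_left`. -/
def S_F44 : Prop :=
  ∀ (N : ℕ) (Cl : Finset ℕ) (P R1 : ℝ) (q : Piece N), Fi Cl P R1 q →
    ∀ (a b w x : Fin N) (l r l' r' : PT N),
      Dsc.Eqv q.D ⟨a, b, PT.node w l r, PT.node x l' r'⟩ →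
      ∀ s t : ℝ, 0 < s → s < 1 → 0 < t → t ≤ 1 →
        (1 - s) • q.p a + s • q.p b = (1 - t) • q.p x + t • q.p w →
        (ar (q.p a) (q.p b) (q.p w) + ar (q.p b) (q.p a) (q.p x)) *
            (s * (1 - s) * dist (q.p a) (q.p b) ^ 2 - t * (1 - t) * dist (q.p x) (q.p w) ^ 2) ≤ 0 ∧
        ((ar (q.p a) (q.p b) (q.p w) + ar (q.p b) (q.p a) (q.p x)) *
            (s * (1 - s) * dist (q.p a) (q.p b) ^ 2 - t * (1 - t) * dist (q.p x) (q.p w) ^ 2) = 0 →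
          dist (q.p a) (q.p b) ≤ dist (q.p x) (q.p w))

/-- [F45] no degenerate triangle with its longest side on the boundary (3.7, second half).
PROOF. Suppose `q.p w = (1-s) q.p a + s q.p b`, `D = ⟨a,b,node w l r,nil⟩ ~ q.D`; B1. F35 and F40 with `v = w`, `X1 x = (In ⟨a,w,l,nil⟩.K x ∨ (Sup x {a,b,w} ∧ (1-s) * x b ≤ s * x a))`, `X2` the other one.
First alternative: `D'' = ⟨a,w,l,node b r nil⟩ ~ q.D` (`lf`); F41 gives a leaf `u ∈ (node b r nil).vs = b :: (r.vs ++ [])` with `d u w > 0`, so `X1 (vx u)`: if `In ⟨a,w,l,nil⟩.K (vx u)` then `u = a ∨ u = w ∨ u ∈ l.vs` (the facet supporting `vx u` contains `u`;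
B4 (9)), contradiction to `ok`; if `Sup (vx u) {a,b,w}` then `u ∈ {a,b,w}`, so `u = b` (`ok`) and `(1-s) * 1 ≤ s * 0`, contradiction. Second alternative: `⟨w,b,r,node a nil l⟩ ~ q.D` (`rt`), F41 gives a leaf `u ∈ a :: ([] ++ l.vs)` with `d u w > 0`, `X2 (vx u)`:
`u ∈ {w,b} ∪ r.vs` impossible, or `u = a` and `s * 1 ≤ (1-s) * 0`, contradiction. -/
def S_F45 : Prop :=
  ∀ (N : ℕ) (Cl : Finset ℕ) (P R1 : ℝ) (q : Piece N), Fi Cl P R1 q →
    ∀ (a b w : Fin N) (l r : PT N) (s : ℝ), Dsc.Eqv q.D ⟨a, b, PT.node w l r, PT.nil⟩ →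
      0 < s → s < 1 → q.p w ≠ (1 - s) • q.p a + s • q.p b

/-- [F46] all triangles are positive (3.7).
PROOF. Call a facet `f ∈ q.D.K` degenerate if there are `a b w l r R` with `Dsc.Eqv q.D ⟨a,b,node w l r,R⟩`, `f = {a,b,w}`, `ar (p a) (p b) (p w) = 0` (`p = q.p`). If there is none, F36 (1), (2) give `SPos` (`ar ≥ 0` by F36 (2), `≠ 0` as the top triangle `{a,b,w}` is in
`q.D.K = K` of that disc (B1), so it would be degenerate). Otherwise choose (`Finset.exists_max_image` on the filtered `q.D.K`) a degenerate `f` with `λ(f) = sup_{u,v ∈ f} dist (p u) (p v)` maximal; `f = {a,b,w}`. Its three edges are nonzero: F43 for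
`⟨a,b,node w l r,R⟩`, `⟨a,w,l,node b r R⟩`, `⟨w,b,r,node a R l⟩` (F36 (3)). By F34 (1) one of the three vertices is strictly between the other two; by F36 (3) (rotation of the top triangle: same facet, other names; `ar` is cyclically invariant, F34 (4)) we may assume
`p w = (1-s) • p a + s • p b`, `0 < s < 1`. So `λ(f) = dist (p a) (p b)` (F34 (2)). If `R = nil`: contradiction to F45. `R = node x l' r'`: `ok` gives `[a,b,w,x].Nodup`. `β = ar (p b) (p a) (p x) ≥ 0` (F36 (2) for `⟨b,a,R,node w l r⟩`).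
The crossing equation of F44 holds with `t = 1`. `A = 0 + β`. If `β > 0`: F44 (1): `β * (s(1-s) dist (p a) (p b)² - 0) ≤ 0`, but it is `> 0`. If `β = 0`: the facet `{b,a,x}` is degenerate, so `dist (p a) (p x), dist (p b) (p x) ≤ λ({b,a,x}) ≤ λ(f) = dist (p a) (p b)`. The points
`p a, p b, p x` are distinct (F43 for `⟨b,a,node x l' r',_⟩` and its rotations) and `ar (p a) (p b) (p x) = - ar (p b) (p a) (p x) = 0`, so by F34 (1),(2) `p x` is strictly between (if `p a` is strictly between `p b` and `p x` then `dist (p a) (p b) < dist (p b) (p x)`, and so on):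
`p x = (1-s') • p a + s' • p b`. F34 (3): `dist (p x) (p w) < dist (p a) (p b)`. But F44 (2) with `A = 0` gives `dist (p a) (p b) ≤ dist (p x) (p w)`. Contradiction. -/
def S_F46 : Prop :=
  ∀ (N : ℕ) (Cl : Finset ℕ) (P R1 : ℝ) (q : Piece N), Fi Cl P R1 q → q.D.SPos q.p

/-- [F47] distinct vertices have positive distance.
PROOF. `q.d ≥ 0` (A2, B5). Suppose `q.d (vx v) (vx w) = 0`, `v ≠ w`. `S_sep0` with `S_F46`: either `vx v = vx w`, so `v = w` (evaluate at `v`), or `q.D = ⟨a,b,nil,nil⟩`: then `{v,w} = {a,b}`, `q.lab v = q.lab w` by `nmin`, so all vertices have the same class, but the at least two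
leaves (all in `q.D.vl`) have distinct classes (`cls`). -/
def S_F47 : Prop :=
  ∀ (N : ℕ) (Cl : Finset ℕ) (P R1 : ℝ) (q : Piece N), Fi Cl P R1 q → q.D.SPos q.p →
    ∀ v ∈ q.D.vl, ∀ w ∈ q.D.vl, v ≠ w → 0 < q.d (vx v) (vx w)

/-- [F48] the structure `Surg`, from `Fi`.
PROOF. `cls`: `Fi.cls`. `spos`: F46. `nv`: X3 (4): `T' ~ q.T`, `T'.1 = node z l r`; suppose `z = vx v`; `v ∈ q.D.vl` (`z` is in `q.D.K`, supported in a facet containing `v`, B4 (1)). `q.d z (vx v) = 0`, so `Fi.split` with `w = v` applies: `T'.1` is not a leaf, so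
`T'.2 = leaf u`, `q.d (vx u) (vx v) = 0`; but `Fi.leaf` for `(T'.2, T'.1)` (`sw`) gives `0 < q.d (vx u) z`. Contradiction. `le`: `Fi.leaf` and `q.d (vx v) (vx v) = 0` (F24, A2). `split`: otherwise `Fi.split`: `T'.1 = leaf u` with `q.d (vx u) (vx w) = 0`, by F47 `u = w`
(`u ∈ q.D.vl` as it is a leaf, X3 (1), `ok.lvs`), contradiction to `vx w ≠ T'.1.top`; same for `T'.2`. `ear`: F41. `del`: `s(1-s) = 0` if `s = 0` or `s = 1`: clear (right side `≥ 0`). Otherwise `A = ar (p a) (p b) (p w) + ar (p b) (p a) (p x) > 0` (both `> 0` by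
`SPos` of the equivalent disc, B1), F32 (1),(2): `ar (p a) (p b) (p w) = (1-t) A`, `ar (p b) (p a) (p x) = t A`, so `0 < t < 1`; F44 (1) and `A > 0`. `two`: hypothesis. -/
def S_F48 : Prop :=
  ∀ (N : ℕ) (Cl : Finset ℕ) (P R1 : ℝ) (q : Piece N), Fi Cl P R1 q →
    (q.lv.length = 2 → q.D.P = PT.nil ∧ q.D.R = PT.nil) → Surg q

end Pool.Agent.Lib.MP_9f84a9_co
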