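import Pool.Agent.Lib.MP_9f84a9_co.F.StmF1
import Pool.Agent.Lib.MP_9f84a9_co.F.StmF4

set_option autoImplicit false

namespace Pool.Agent.Lib.MP_9f84a9_co

open Finset

private theorem leaves_pos {N : ℕ} (A : Net N) : 1 ≤ A.leaves.length := by
  induction A with
  | leaf v => simp [Net.leaves]
  | node z l r hl hr => simp only [Net.leaves, List.length_append]; omega

theorem ctx_mcal {N : ℕ} {Cl : Finset ℕ} {P R1 : ℝ} {S : Cfg N} (h : Ctx Cl P R1 S) :
    Mcal Cl P S := by
  refine ⟨h.opt.mem, h.opt.o1, h.opt.o2, h.lt, h.ih, ?_⟩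
  have h1 := h.hP
  have h2 := h.hR1
  have h3 : (0 : ℝ) ≤ (Cl.card : ℝ) * N := by positivity
  rw [h2] at h1
  linarith

theorem t_Fi (hnmin : S_Fnmin) (hcls : S_Fcls) (hleaf : S_Fleaf) (hsplit : S_Fsplit)
    (hrep : S_Frep) : S_Fi := by
  intro N Cl P R1 S hctx q hq
  have hM := ctx_mcal hctx
  refine ⟨hctx.opt.mem.ok q hq, hnmin N Cl P S hctx.opt.mem hctx.lt hctx.ih q hq,
    hcls N Cl P S hctx.opt.mem q hq, hleaf N Cl P S hM q hq, hsplit N Cl P S hM q hq, ?_⟩
  intro q' hok hL hlab hch
  obtain ⟨pre, post, rfl⟩ := List.append_of_mem hq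
  have hlen : q'.lv.length = q.lv.length := by
    have := congrArg List.length hlab
    simpa using this
  have hrpl : Rpl Cl P pre post q [q'] := by
    refine ⟨?_, ?_, ?_, ?_⟩
    · intro a ha
      simp only [List.mem_singleton] at ha
      rw [ha]; exact hok
    · intro a ha v hv w hw
      simp only [List.mem_singleton] at ha
      subst ha
      exact hch v hv w hw
    · intro u hu v hv
      refine Relation.ReflTransGen.single ⟨q', by simp, ?_, ?_⟩
      · rw [hlab]; exact List.mem_map_of_mem hu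
      · rw [hlab]; exact List.mem_map_of_mem hv
    · simp [hlen]
  have hInD := hrep.2.1 N Cl P pre post q [q'] hctx.opt.mem hrpl
  have hLc : Lc (pre ++ [q'] ++ post) ≤ Lc (pre ++ q :: post) := by
    simp only [Lc, List.map_append, List.sum_append, List.map_cons, List.map_nil,
      List.sum_cons, List.sum_nil]
    linarith
  have h2 := hctx.opt.o2 _ hInD hLc
  have hmu1 : mu (pre ++ q :: post) = mu pre + ((q.lv.length - 1) ^ 2 * (q.D.vl.length - 1)
      + mu post) := by
    simp [mu]
  have hmu2 : mu (pre ++ [q'] ++ post) = mu pre + ((q.lv.length - 1) ^ 2 * (q'.D.vl.length - 1)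
      + mu post) := by
    simp [mu, hlen]
  have hn : 2 ≤ q.lv.length := by
    have h1 := leaves_pos q.T.1
    have h2 := leaves_pos q.T.2
    simp only [Piece.lv, List.length_append]
    omega
  have hpos : 0 < (q.lv.length - 1) ^ 2 := by
    have : 0 < q.lv.length - 1 := by omega
    positivity
  have hv1 : 2 ≤ q.D.vl.length := by simp [Dsc.vl]
  have hv2 : 2 ≤ q'.D.vl.length := by simp [Dsc.vl]
  have hle : q.D.vl.length ≤ q'.D.vl.length := by
    rw [hmu1, hmu2] at h2
    have h3 : (q.lv.length - 1) ^ 2 * (q.D.vl.length - 1) ≤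
        (q.lv.length - 1) ^ 2 * (q'.D.vl.length - 1) := by omega
    have h4 := Nat.le_of_mul_le_mul_left h3 hpos
    omega
  refine ⟨hle, ?_⟩
  intro hle' hPhi
  have heq : q'.D.vl.length = q.D.vl.length := le_antisymm hle' hle
  have hmu3 : mu (pre ++ [q'] ++ post) ≤ mu (pre ++ q :: post) := by
    rw [hmu1, hmu2, heq]
  have hPhi3 : Phi R1 (pre ++ q :: post) ≤ Phi R1 (pre ++ [q'] ++ post) := by
    simp only [Phi, List.map_append, List.sum_append, List.map_cons, List.map_nil,
      List.sum_cons, List.sum_nil]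
    linarith
  have h4 := hctx.opt.o4 _ hInD hLc hmu3 hPhi3
  have hI : Ic (pre ++ q :: post) - Ic (pre ++ [q'] ++ post) = Iq q - Iq q' := by
    simp only [Ic, Iq, List.map_append, List.sum_append, List.map_cons, List.map_nil,
      List.sum_cons, List.sum_nil]
    ring
  refine ⟨by linarith, ?_⟩
  intro hI2
  have h5 := hctx.opt.o5 _ hInD hLc hmu3 hPhi3 (by linarith)
  simp only [Qc, List.map_append, List.sum_append, List.map_cons, List.map_nil,
    List.sum_cons, List.sum_nil] at h5
  linarith

end Pool.Agent.Lib.MP_9f84a9_co
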