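import Pool.Agent.Lib.MP_9f84a9_co.F.PFi

set_option autoImplicit false

namespace Pool.Agent.Lib.MP_9f84a9_co

open Finset

theorem t_surg0 (hFi : S_Fi) (h48 : S_F48) (htwo : S_Ftwo) (hone : S_Fone) : S_surg := by
  intro N Cl P R1 S hctx
  have hM := ctx_mcal hctx
  have hF := fun q hq => hFi N Cl P R1 S hctx q hq
  have h1 := hone N Cl P S hM
  exact ⟨fun q hq => h48 N Cl P R1 q (hF q hq) (htwo N Cl P S hM q hq),
    fun q hq => (hF q hq).nmin, h1.1, h1.2⟩

end Pool.Agent.Lib.MP_9f84a9_co
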