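import Pool.Agent.Lib.MP_9f84a9_co.F.P.cat
import Pool.Agent.Lib.MP_9f84a9_co.F.P.cls
import Pool.Agent.Lib.MP_9f84a9_co.F.P.leaf
import Pool.Agent.Lib.MP_9f84a9_co.F.P.mrg
import Pool.Agent.Lib.MP_9f84a9_co.F.P.nb
import Pool.Agent.Lib.MP_9f84a9_co.F.P.nmin
import Pool.Agent.Lib.MP_9f84a9_co.F.P.one
import Pool.Agent.Lib.MP_9f84a9_co.F.P.oth
import Pool.Agent.Lib.MP_9f84a9_co.F.P.pm
import Pool.Agent.Lib.MP_9f84a9_co.F.P.prn1
import Pool.Agent.Lib.MP_9f84a9_co.F.P.prune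
import Pool.Agent.Lib.MP_9f84a9_co.F.P.rep
import Pool.Agent.Lib.MP_9f84a9_co.F.P.sc
import Pool.Agent.Lib.MP_9f84a9_co.F.P.spa
import Pool.Agent.Lib.MP_9f84a9_co.F.P.split
import Pool.Agent.Lib.MP_9f84a9_co.F.P.st
import Pool.Agent.Lib.MP_9f84a9_co.F.P.star
import Pool.Agent.Lib.MP_9f84a9_co.F.P.tree
import Pool.Agent.Lib.MP_9f84a9_co.F.P.two
import Pool.Agent.Lib.MP_9f84a9_co.F.PF20
import Pool.Agent.Lib.MP_9f84a9_co.F.PF21
import Pool.Agent.Lib.MP_9f84a9_co.F.PF22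
import Pool.Agent.Lib.MP_9f84a9_co.F.PF23
import Pool.Agent.Lib.MP_9f84a9_co.F.PF24
import Pool.Agent.Lib.MP_9f84a9_co.F.PF25
import Pool.Agent.Lib.MP_9f84a9_co.F.PF26
import Pool.Agent.Lib.MP_9f84a9_co.F.PF27
import Pool.Agent.Lib.MP_9f84a9_co.F.PF28
import Pool.Agent.Lib.MP_9f84a9_co.F.PF29
import Pool.Agent.Lib.MP_9f84a9_co.F.PF30
import Pool.Agent.Lib.MP_9f84a9_co.F.PF31
import Pool.Agent.Lib.MP_9f84a9_co.F.PF32
import Pool.Agent.Lib.MP_9f84a9_co.F.PF33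
import Pool.Agent.Lib.MP_9f84a9_co.F.PF34
import Pool.Agent.Lib.MP_9f84a9_co.F.PF35
import Pool.Agent.Lib.MP_9f84a9_co.F.PF36
import Pool.Agent.Lib.MP_9f84a9_co.F.PF40
import Pool.Agent.Lib.MP_9f84a9_co.F.PF41
import Pool.Agent.Lib.MP_9f84a9_co.F.PF42
import Pool.Agent.Lib.MP_9f84a9_co.F.PF43
import Pool.Agent.Lib.MP_9f84a9_co.F.PF44
import Pool.Agent.Lib.MP_9f84a9_co.F.PF45
import Pool.Agent.Lib.MP_9f84a9_co.F.PF46
import Pool.Agent.Lib.MP_9f84a9_co.F.PF47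
import Pool.Agent.Lib.MP_9f84a9_co.F.PF48
import Pool.Agent.Lib.MP_9f84a9_co.F.PFi
import Pool.Agent.Lib.MP_9f84a9_co.P.A1
import Pool.Agent.Lib.MP_9f84a9_co.P.A2
import Pool.Agent.Lib.MP_9f84a9_co.P.A3
import Pool.Agent.Lib.MP_9f84a9_co.P.B1
import Pool.Agent.Lib.MP_9f84a9_co.P.B10
import Pool.Agent.Lib.MP_9f84a9_co.P.B4
import Pool.Agent.Lib.MP_9f84a9_co.P.B5
import Pool.Agent.Lib.MP_9f84a9_co.P.B9
import Pool.Agent.Lib.MP_9f84a9_co.P.X3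
import Pool.Agent.Lib.MP_9f84a9_co.F.PSurg
import Pool.Agent.Lib.MP_9f84a9_co.G.All

/-!
# MP_9f84a9_co: assembly of section 3
-/

set_option autoImplicit false

namespace Pool.Agent.Lib.MP_9f84a9_co

theorem t_starF : S_star := by
  have hFtree : S_Ftree := t_Ftree
  have hFst : S_Fst := t_Fst
  have hstar : S_star := t_star hFtree hFst
  exact hstar

theorem t_surg  (hsep0 : S_sep0) : S_surg := by
  have hFrep : S_Frep := t_Frep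
  have hFtree : S_Ftree := t_Ftree
  have hFcat : S_Fcat := t_Fcat
  have hFst : S_Fst := t_Fst
  have hFprune : S_Fprune := t_Fprune
  have hFprn : S_Fprn := t_Fprn hFprune
  have hA1 : S_A1 := t_A1
  have hA2 : S_A2 := t_A2
  have hB4 : S_B4 := t_B4
  have hB5 : S_B5 := t_B5
  have hX3 : S_X3 := t_X3
  have hFpm : S_Fpm := t_Fpm hA1 hA2 hB4 hB5 hX3
  have hFnb : S_Fnb := t_Fnb hFtree hFcat hFst hFprn hFpm
  have hFmrg : S_Fmrg := t_Fmrg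
  have hFnmin : S_Fnmin := t_Fnmin hFrep hFnb hFmrg
  have hstar : S_star := t_star hFtree hFst
  have hFcls : S_Fcls := t_Fcls hstar hFpm
  have hFleaf : S_Fleaf := t_Fleaf hFst hFpm hFrep hFnmin hFcls
  have hFoth : S_Foth := t_Foth
  have hFspa : S_Fspa := t_Fspa hFst hFpm hFprune hFrep hFleaf
  have hFsplit : S_Fsplit := t_Fsplit hFoth hFpm hFspa
  have hFi : S_Fi := t_Fi hFnmin hFcls hFleaf hFsplit hFrep
  have hB1 : S_B1 := t_B1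
  have hF24 : S_F24 := t_F24 hA1 hB4 hX3
  have hF32 : S_F32 := t_F32
  have hF22 : S_F22 := t_F22 hA2
  have hA3 : S_A3 := t_A3
  have hF21 : S_F21 := t_F21 hA2 hA3
  have hF25 : S_F25 := t_F25 hA1 hA2 hB4 hB5 hF21
  have hF41 : S_F41 := t_F41 hA1 hA2 hB1 hB4 hB5 hF22 hF24 hF25
  have hB9 : S_B9 := t_B9
  have hF29 : S_F29 := t_F29 hA1 hA2 hF21
  have hF20 : S_F20 := t_F20 hA1 hA2 hA3
  have hF30 : S_F30 := t_F30 hA1 hA2 hF20 hF21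
  have hF31 : S_F31 := t_F31 hB5 hB9 hF29 hF30
  have hF33 : S_F33 := t_F33 hF32
  have hF44 : S_F44 := t_F44 hA1 hA2 hB1 hB4 hB5 hB9 hF22 hF24 hF31 hF33
  have hF34 : S_F34 := t_F34
  have hF36 : S_F36 := t_F36 hB1
  have hF26 : S_F26 := t_F26 hA1 hA2 hA3
  have hF27 : S_F27 := t_F27 hA1 hA2 hB4 hB5 hF20 hF26
  have hF23 : S_F23 := t_F23 hX3
  have hF40 : S_F40 := t_F40 hA1 hA2 hB5 hF23 hF24
  have hB10 : S_B10 := t_B10
  have hF28 : S_F28 := t_F28 hA1 hA2 hA3 hB4 hB5 hB10 hF20 hF21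
  have hF42 : S_F42 := t_F42 hA1 hA2 hB1 hB4 hB5 hB10 hF20 hF22 hF24 hF28
  have hF43 : S_F43 := t_F43 hA1 hB1 hB4 hB5 hF20 hF27 hF40 hF41 hF42
  have hF35 : S_F35 := t_F35 hA1 hA2 hB4 hB5 hF26
  have hF45 : S_F45 := t_F45 hB1 hB4 hF35 hF40 hF41
  have hF46 : S_F46 := t_F46 hF34 hF36 hF43 hF44 hF45
  have hF47 : S_F47 := t_F47 hsep0 hA1 hA2 hB5 hF24
  have hF48 : S_F48 := t_F48 hA1 hA2 hB1 hB4 hB5 hX3 hF24 hF32 hF41 hF44 hF46 hF47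
  have hFtwo : S_Ftwo := t_Ftwo hA1 hA2 hA3 hB5 hFpm hFrep hFcls
  have hFsc : S_Fsc := t_Fsc
  have hFone : S_Fone := t_Fone hX3 hFpm hFleaf hFsc
  exact t_surg0 hFi hF48 hFtwo hFone

/-- output of section 3: star lemma -/
theorem out_star : S_star := t_starF

/-- output of section 3 -/
theorem out_surg : S_surg := t_surg out_sep0

end Pool.Agent.Lib.MP_9f84a9_co
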