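import Pool.Agent.Lib.MP_9f84a9_co.F.StmF2

/-!
# MP_9f84a9_co, piece F22: mapping networks
-/

set_option autoImplicit false

namespace Pool.Agent.Lib.MP_9f84a9_co

open Finset Filter Topology

namespace F22

private theorem leaves_mp {N : ℕ} (F : Pt N → Pt N) (ν : Fin N → Fin N) (A : Net N) :
    (A.mp F ν).leaves = A.leaves.map ν := by
  induction A with
  | leaf v => rfl
  | node z l r ihl ihr => simp only [Net.mp, Net.leaves, ihl, ihr, List.map_append]

private theorem nodes_mp {N : ℕ} (F : Pt N → Pt N) (ν : Fin N → Fin N) (A : Net N) :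
    (A.mp F ν).nodes = A.nodes.map F := by
  induction A with
  | leaf v => rfl
  | node z l r ihl ihr => simp only [Net.mp, Net.nodes, ihl, ihr, List.map_append, List.map_cons]

private theorem fl_mp {N : ℕ} (F : Pt N → Pt N) (ν : Fin N → Fin N) (A : Net N) :
    (A.mp F ν).fl = ν A.fl := by
  induction A with
  | leaf v => rfl
  | node z l r ihl ihr => simp only [Net.mp, Net.fl, ihl]

/-- the hypotheses for the nodes and leaves of a net -/
private def Good {N : ℕ} (K K' : Cx N) (c' : Pt N → Pt N → ℝ) (F : Pt N → Pt N)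
    (ν : Fin N → Fin N) (A : Net N) : Prop :=
  (∀ z ∈ A.nodes, In K z) ∧
    ∀ v ∈ A.leaves, In K (vx v) ∧ In K' (vx (ν v)) ∧ dK K' c' (F (vx v)) (vx (ν v)) = 0

private theorem Good.left {N : ℕ} {K K' : Cx N} {c' : Pt N → Pt N → ℝ} {F : Pt N → Pt N}
    {ν : Fin N → Fin N} {z : Pt N} {l r : Net N} (h : Good K K' c' F ν (Net.node z l r)) :
    Good K K' c' F ν l :=
  ⟨fun y hy => h.1 y (by simp [Net.nodes, hy]), fun v hv => h.2 v (by simp [Net.leaves, hv])⟩

private theorem Good.right {N : ℕ} {K K' : Cx N} {c' : Pt N → Pt N → ℝ} {F : Pt N → Pt N}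
    {ν : Fin N → Fin N} {z : Pt N} {l r : Net N} (h : Good K K' c' F ν (Net.node z l r)) :
    Good K K' c' F ν r :=
  ⟨fun y hy => h.1 y (by simp [Net.nodes, hy]), fun v hv => h.2 v (by simp [Net.leaves, hv])⟩

private theorem top_good {N : ℕ} {K K' : Cx N} {c' : Pt N → Pt N → ℝ} {F : Pt N → Pt N}
    {ν : Fin N → Fin N} (hself : ∀ x, In K' x → dK K' c' x x = 0)
    (hF : ∀ x, In K x → In K' (F x)) (A : Net N) (h : Good K K' c' F ν A) :
    In K A.top ∧ In K' (A.mp F ν).top ∧ dK K' c' (F A.top) (A.mp F ν).top = 0 := by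
  cases A with
  | leaf v => exact h.2 v (by simp [Net.leaves])
  | node z l r =>
    have hz : In K z := h.1 z (by simp [Net.nodes])
    exact ⟨hz, hF z hz, hself _ (hF z hz)⟩

private theorem len_le {N : ℕ} {K K' : Cx N} {c c' : Pt N → Pt N → ℝ} {F : Pt N → Pt N}
    {ν : Fin N → Fin N} (hself : ∀ x, In K' x → dK K' c' x x = 0)
    (hF : ∀ x, In K x → In K' (F x))
    (hedge : ∀ s t s' t', In K s → In K t → In K' s' → In K' t' → dK K' c' (F s) s' = 0 →
      dK K' c' (F t) t' = 0 → dK K' c' s' t' ≤ dK K c s t)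
    (A : Net N) (h : Good K K' c' F ν A) :
    (A.mp F ν).len (dK K' c') ≤ A.len (dK K c) := by
  induction A with
  | leaf v => exact le_refl _
  | node z l r ihl ihr =>
    have hz : In K z := h.1 z (by simp [Net.nodes])
    have hz' : In K' (F z) := hF z hz
    have hzz : dK K' c' (F z) (F z) = 0 := hself _ hz'
    obtain ⟨a1, a2, a3⟩ := top_good hself hF l h.left
    obtain ⟨b1, b2, b3⟩ := top_good hself hF r h.right
    have e1 := hedge z l.top (F z) (l.mp F ν).top hz a1 hz' a2 hzz a3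
    have e2 := hedge z r.top (F z) (r.mp F ν).top hz b1 hz' b2 hzz b3
    have e3 := ihl h.left
    have e4 := ihr h.right
    simp only [Net.mp, Net.len]
    linarith

end F22

open F22 in
theorem t_F22 (hA2 : S_A2) : S_F22 := by
  intro N K K' c c' hc hc' hK hK' F ν T hF hd hn hl
  obtain ⟨h0, hself, hsymm, htri, _⟩ := hA2 N K' c' hc' hK'
  have hedge : ∀ s t s' t', In K s → In K t → In K' s' → In K' t' → dK K' c' (F s) s' = 0 →
      dK K' c' (F t) t' = 0 → dK K' c' s' t' ≤ dK K c s t := by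
    intro s t s' t' hs ht hs' ht' e1 e2
    have t1 := htri s' (F s) t' hs' (hF s hs) ht'
    have t2 := htri (F s) (F t) t' (hF s hs) (hF t ht) ht'
    have t3 := hsymm s' (F s)
    have t4 := hd s t hs ht
    linarith
  have g1 : Good K K' c' F ν T.1 :=
    ⟨fun z hz => hn z (List.mem_append_left _ hz), fun v hv => hl v (List.mem_append_left _ hv)⟩
  have g2 : Good K K' c' F ν T.2 :=
    ⟨fun z hz => hn z (List.mem_append_right _ hz), fun v hv => hl v (List.mem_append_right _ hv)⟩
  obtain ⟨a1, a2, a3⟩ := top_good hself hF T.1 g1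
  obtain ⟨b1, b2, b3⟩ := top_good hself hF T.2 g2
  refine ⟨?_, ?_, ?_, ?_, fl_mp F ν T.1⟩
  · unfold Net.tlen
    have e1 := hedge T.1.top T.2.top _ _ a1 b1 a2 b2 a3 b3
    have e2 := len_le hself hF hedge T.1 g1
    have e3 := len_le hself hF hedge T.2 g2
    simp only
    linarith
  · intro z hz
    rw [nodes_mp, nodes_mp, ← List.map_append] at hz
    obtain ⟨y, hy, rfl⟩ := List.mem_map.1 hz
    exact hF y (hn y hy)
  · rw [leaves_mp, leaves_mp, List.map_append]
  · rw [nodes_mp, nodes_mp, List.map_append]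

end Pool.Agent.Lib.MP_9f84a9_co
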