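import Pool.Agent.Lib.MP_9f84a9_co.F.StmF2

/-!
# MP_9f84a9_co, piece F33: `WPos`, `I`, `Q` of the flipped disc.
-/

set_option autoImplicit false

namespace Pool.Agent.Lib.MP_9f84a9_co

open Finset Filter Topology

theorem t_F33 (hF32 : S_F32) : S_F33 := by
  intro N a b w x l r l' r' p s t hs0 hs1 hp
  obtain ⟨-, -, h3, h4, h5⟩ := hF32 (p a) (p b) (p w) (p x) s t hp
  refine ⟨?_, ?_, ?_⟩
  · rintro ⟨⟨w1, w2, w3⟩, w4, w5, w6⟩
    have hA : 0 ≤ ar (p a) (p b) (p w) + ar (p b) (p a) (p x) := by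
      change 0 ≤ ar (p a) (p b) (p w) at w1
      change 0 ≤ ar (p b) (p a) (p x) at w4
      linarith
    refine ⟨⟨⟨?_, w6, w2⟩, ?_, w3, w5⟩, hA⟩
    · change 0 ≤ ar (p x) (p w) (p a)
      rw [h3]
      positivity
    · change 0 ≤ ar (p w) (p x) (p b)
      rw [h4]
      exact mul_nonneg (by linarith) hA
  · rw [← h5]
    simp only [Dsc.I, flp, PT.I]
    ring
  · simp only [Dsc.Q, flp, PT.Q]
    ring

end Pool.Agent.Lib.MP_9f84a9_co
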