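import Pool.Agent.Lib.MP_9f84a9_co.F.StmF4

/-!
# MP_9f84a9_co, [F47] distinct vertices have positive distance
-/

set_option autoImplicit false

namespace Pool.Agent.Lib.MP_9f84a9_co

open Finset Filter Topology

namespace PF47

private theorem vx_inj {N : ℕ} {v w : Fin N} (h : (vx v : Pt N) = vx w) : v = w := by
  by_contra hne
  have h1 := congrFun h v
  simp only [vx, Pi.single_eq_same] at h1
  rw [Pi.single_eq_of_ne hne] at h1
  exact one_ne_zero h1

private theorem leaves_pos {N : ℕ} (A : Net N) : 1 ≤ A.leaves.length := by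
  induction A with
  | leaf v => simp [Net.leaves]
  | node z l r ihl ihr =>
    simp only [Net.leaves, List.length_append]
    omega

private theorem const_contra {N : ℕ} (q : Piece N) (hn : (q.lv.map q.lab).Nodup)
    (c : ℕ) (hc : ∀ u ∈ q.lv, q.lab u = c) : False := by
  have h2 : 2 ≤ q.lv.length := by
    have h1 := leaves_pos q.T.1
    have h2 := leaves_pos q.T.2
    simp only [Piece.lv, List.length_append]
    omega
  match hl : q.lv with
  | [] => rw [hl] at h2; simp at h2
  | [_] => rw [hl] at h2; simp at h2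
  | x :: y :: t =>
    rw [hl] at hn
    simp only [List.map_cons, List.nodup_cons, List.mem_cons] at hn
    have hx := hc x (by rw [hl]; simp)
    have hy := hc y (by rw [hl]; simp)
    exact hn.1 (Or.inl (hx.trans hy.symm))

end PF47

theorem t_F47 (hsep : S_sep0) (hA1 : S_A1) (hA2 : S_A2) (hB5 : S_B5) (hF24 : S_F24) : S_F47 := by
  intro N Cl P R1 q hFi hS v hv w hw hne
  have hok := hFi.ok
  have hCn : Cn q.D.K := hB5 N q.D hok.dok
  have hco : IsCost (ce q.p) := (hA1 N).1 q.p
  have hpm := hA2 N q.D.K (ce q.p) hco hCn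
  have hin := (hF24 N Cl P q hok).1
  have hge : 0 ≤ q.d (vx v) (vx w) := hpm.1 _ _
  rcases lt_or_eq_of_le hge with h | h
  · exact h
  exfalso
  have h0 : q.d (vx v) (vx w) = 0 := h.symm
  rcases hsep N q.D q.p hok.dok hS with h1 | h1
  · exact hne (PF47.vx_inj (h1 _ _ (hin v hv) (hin w hw) h0))
  · have hlab := hFi.nmin v hv w hw h0
    obtain ⟨hP, hR⟩ := h1
    have hvl : ∀ u, u ∈ q.D.vl ↔ (u = q.D.a ∨ u = q.D.b) := by
      intro u
      simp [Dsc.vl, hP, hR, PT.vs]
    have hab : q.lab q.D.a = q.lab q.D.b := by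
      rcases (hvl v).1 hv with h2 | h2 <;> rcases (hvl w).1 hw with h3 | h3
      · exact absurd (h2.trans h3.symm) hne
      · rw [← h2, ← h3]; exact hlab
      · rw [← h2, ← h3]; exact hlab.symm
      · exact absurd (h2.trans h3.symm) hne
    apply PF47.const_contra q hFi.cls (q.lab q.D.b)
    intro u hu
    rcases (hvl u).1 (hok.lvs u hu) with h4 | h4
    · rw [h4]; exact hab
    · rw [h4]

end Pool.Agent.Lib.MP_9f84a9_co

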