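import Pool.Agent.Lib.MP_9f84a9_co.Out
import Pool.Agent.Lib.MP_9f84a9_co.StmA
import Pool.Agent.Lib.MP_9f84a9_co.StmB
import Pool.Agent.Lib.MP_9f84a9_co.StmX

/-!
# MP_9f84a9_co, module F (section 3), geometric half.  Statements with complete proofs in the docstrings.

Conventions: `d` is the chain metric `dK K (ce p)`; for a disc `D = ⟨a, b, P, R⟩`: `K_P = (Dsc.mk a b P nil).K`, `K_R = (Dsc.mk b a R nil).K`.
-/

set_option autoImplicit false

namespace Pool.Agent.Lib.MP_9f84a9_co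

open Finset Filter Topology

/-- image of a net under a map of points and a map of leaves -/
def Net.mp {N : ℕ} (F : Pt N → Pt N) (ν : Fin N → Fin N) : Net N → Net N
  | Net.leaf v => Net.leaf (ν v)
  | Net.node z l r => Net.node (F z) (Net.mp F ν l) (Net.mp F ν r)

/-! ## metric lemmas -/

/-- [F20] positions and the chain metric.
PROOF. (1) A3 with `c = ρ = ce p` (`IsCost (ce p)` is A1 (1)). (2) `≤` is A2 (5), `≥` is (1) (`Stp` contains `In K x`, `In K y`). (3) `d (vx v) y = 0` etc. are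
not needed. (3): from (2): the cost is `dist (pos p x) (pos p y) = 0`. -/
def S_F20 : Prop :=
  ∀ (N : ℕ) (K : Cx N) (p : Fin N → E), Cn K →
    (∀ x y, In K x → In K y → dist (pos p x) (pos p y) ≤ dK K (ce p) x y) ∧
    (∀ x y, Stp K x y → dK K (ce p) x y = dist (pos p x) (pos p y)) ∧
    (∀ x y, Stp K x y → pos p x = pos p y → dK K (ce p) x y = 0)

/-- [F21] from one-step inequalities to Lipschitz maps, and subcomplexes.
PROOF. (1) A3 with `ρ x y = dK K' c' (F x) (F y)`: `ρ x x = 0` and the triangle inequality by A2 for `K'` (all `F x ∈ K'`). (2) If every facet of `K₁` is contained in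
a facet of `K` then points and steps of `K₁` are points and steps of `K`; apply (1) with `F = id` and A2 (5): `dK K c x y ≤ c x y` for steps. -/
def S_F21 : Prop :=
  ∀ (N : ℕ) (K K' : Cx N) (c c' : Pt N → Pt N → ℝ), IsCost c → IsCost c' → Cn K → Cn K' →
    (∀ F : Pt N → Pt N, (∀ x, In K x → In K' (F x)) →
      (∀ x y, Stp K x y → dK K' c' (F x) (F y) ≤ c x y) →
      ∀ x y, In K x → In K y → dK K' c' (F x) (F y) ≤ dK K c x y) ∧
    ((∀ f ∈ K, ∃ g ∈ K', f ⊆ g) → (∀ x, In K x → In K' x) ∧ (∀ x y, Stp K x y → Stp K' x y) ∧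
      ∀ x y, In K x → In K y → dK K' c x y ≤ dK K c x y)

/-- [F22] mapping networks.
PROOF. For a net `A` (with the hypotheses for its nodes and leaves) let `t = A.top`, `t' = (A.mp F ν).top`: `In K t`, `In K' t'` and `d' (F t) t' = 0` (a node:
`t' = F t`, `d'` of a point with itself is 0 by A2 (2); a leaf: hypothesis). For an edge with ends `s, t`: `d' s' t' ≤ d' s' (F s) + d' (F s) (F t) + d' (F t) t' ≤ d s t` (A2: triangle
inequality, symmetry). Induction on `A` gives `(A.mp F ν).len d' ≤ A.len d`; add the centre edge. The last four claims: induction on nets. -/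
def S_F22 : Prop :=
  ∀ (N : ℕ) (K K' : Cx N) (c c' : Pt N → Pt N → ℝ), IsCost c → IsCost c' → Cn K → Cn K' →
    ∀ (F : Pt N → Pt N) (ν : Fin N → Fin N) (T : Net N × Net N),
      (∀ x, In K x → In K' (F x)) →
      (∀ x y, In K x → In K y → dK K' c' (F x) (F y) ≤ dK K c x y) →
      (∀ z ∈ T.1.nodes ++ T.2.nodes, In K z) →
      (∀ v ∈ T.1.leaves ++ T.2.leaves,
        In K (vx v) ∧ In K' (vx (ν v)) ∧ dK K' c' (F (vx v)) (vx (ν v)) = 0) →
      Net.tlen (dK K' c') (T.1.mp F ν, T.2.mp F ν) ≤ Net.tlen (dK K c) T ∧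
      (∀ z ∈ (T.1.mp F ν).nodes ++ (T.2.mp F ν).nodes, In K' z) ∧
      (T.1.mp F ν).leaves ++ (T.2.mp F ν).leaves = (T.1.leaves ++ T.2.leaves).map ν ∧
      (T.1.mp F ν).nodes ++ (T.2.mp F ν).nodes = (T.1.nodes ++ T.2.nodes).map F ∧
      (T.1.mp F ν).fl = ν T.1.fl

/-- [F23] walking in a tree from a leaf outside `X` to a leaf in `X`.
PROOF. CLAIM (induction on the net `B`, for all `A`): if `¬ X A.top`, (`A = leaf u → u = u₁`), `u₂ ∈ B.leaves`, then there is `T'` with `Eqv (A, B) T'`, `¬ X T'.1.top`, `X T'.2.top`,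
(`T'.1 = leaf u → u = u₁`), (`T'.2 = leaf u → u = u₂`). If `X B.top`: `T' = (A, B)` (if `B = leaf u` then `u = u₂` as `u₂ ∈ [u]`). If `¬ X B.top`: `B` is not a leaf (else
`B = leaf u₂` and `X (vx u₂)`), `B = node z l r`, `¬ X z`. If `u₂ ∈ l.leaves`: moves `sw`: `(node z l r, A)`, `lf`: `(l, node z r A)`, `sw`: `(node z r A, l)`; apply the claim
to `l` with `node z r A` in place of `A` (its top is `z`, it is not a leaf). If `u₂ ∈ r.leaves`: `sw, rt, sw` gives `(node z l A, r)`.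
Now X3 (5): there is `T'' ~ T` with `T''.1 = leaf u₁`; `u₂` is a leaf of `T''` (X3 (1)) and `u₂ ≠ u₁`, so `u₂ ∈ T''.2.leaves`; apply the claim to `A = leaf u₁`, `B = T''.2`; `Eqv` is transitive. -/
def S_F23 : Prop :=
  ∀ (N : ℕ) (T : Net N × Net N) (X : Pt N → Prop) (u₁ u₂ : Fin N),
    u₁ ∈ T.1.leaves ++ T.2.leaves → u₂ ∈ T.1.leaves ++ T.2.leaves → ¬ X (vx u₁) → X (vx u₂) →
    ∃ T', Net.Eqv T T' ∧ ¬ X T'.1.top ∧ X T'.2.top ∧ (∀ u, T'.1 = Net.leaf u → u = u₁) ∧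
      (∀ u, T'.2 = Net.leaf u → u = u₂)

/-- [F24] the tops of all nets `~ q.T` are points of the disc.
PROOF. `T'.1.top` is `vx v` for a leaf `v` of `T'` or a node of `T'`; leaves and nodes of `T'` are those of `q.T` (X3). Nodes are in `q.D.K` by `ok.nods`; leaves are vertices (`ok.lvs`), which lie in a facet
(B4 (2)), so `In q.D.K (vx v)` (A1 (5)). Same for `T'.2.top`. -/
def S_F24 : Prop :=
  ∀ (N : ℕ) (Cl : Finset ℕ) (P : ℝ) (q : Piece N), q.ok Cl P →
    (∀ v ∈ q.D.vl, In q.D.K (vx v)) ∧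
    ∀ T', Net.Eqv q.T T' → In q.D.K T'.1.top ∧ In q.D.K T'.2.top

/-- [F25] clamp retraction onto the `P` side.
PROOF. Let `V = R.vs`, `π : E → E`, `π u = p a + τ(u) • (p b - p a)`, `τ(u) = max 0 (min 1 (⟪u - p a, p b - p a⟫ / ‖p b - p a‖ ^ 2))` (`= 0` if `p a = p b`, Lean division by zero).
`π` is 1-Lipschitz: `p a = p b` constant; otherwise `dist (π u) (π v) = |τ u - τ v| ‖p b - p a‖ ≤ |⟪u - v, p b - p a⟫| / ‖p b - p a‖ ≤ dist u v` (clamping is 1-Lipschitz,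
Cauchy-Schwarz). `F x = x` if `x v = 0` for all `v ∈ V`, otherwise `F x = (1-τ) • vx a + τ • vx b` with `τ = τ(pos p x)`.
By B4 (8),(9),(10) each facet of `D.K` is a facet of `K_P` (contained in `{a,b} ∪ P.vs`, disjoint from `V` by `ok`) or of `K_R` (contained in `{a,b} ∪ R.vs`). `{a,b}` is contained in a facet
of `K_P` (if `P = nil` it is the facet; if `P = node w l r`, in `{a,b,w}`). (1) If `x` is supported in a facet of `K_P` then `F x = x`: this is (2). For `x` supported in a facet of `K_R`: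
`F x` is supported in `{a,b}`: if the first case of the definition holds then `supp x ⊆ {a,b}`. In all cases for such `x`: `pos p (F x) = π (pos p x)`: in the second case by definition
(A1 (8),(6)); in the first case `pos p x = p a + x b • (p b - p a)` with `x a + x b = 1`, `0 ≤ x b ≤ 1`, which is fixed by `π` (also if `p a = p b`). So (1). (3): by F21 (1) it is enough to
treat a step `x, y ∈ f ∈ D.K`: if `f ∈ K_P`: `F x = x`, `F y = y`, `dK K_P x y ≤ ce p x y` (A2 (5)). If `f ∈ K_R`: `F x, F y` are supported in `{a,b}`, contained in a facet of `K_P`, so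
`dK K_P (F x) (F y) ≤ dist (π (pos p x)) (π (pos p y)) ≤ ce p x y`. (4) facets of `K_P` are contained in facets of `D.K` (B4 (9)): F21 (2). (`K_P` connected: B4 (6), B5.) -/
def S_F25 : Prop :=
  ∀ (N : ℕ) (a b : Fin N) (P R : PT N) (p : Fin N → E), (Dsc.mk a b P R).ok →
    ∃ F : Pt N → Pt N,
      (∀ x, In (Dsc.mk a b P R).K x → In (Dsc.mk a b P PT.nil).K (F x)) ∧
      (∀ x, In (Dsc.mk a b P PT.nil).K x → F x = x ∧ In (Dsc.mk a b P R).K x) ∧
      (∀ x y, In (Dsc.mk a b P R).K x → In (Dsc.mk a b P R).K y →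
        dK (Dsc.mk a b P PT.nil).K (ce p) (F x) (F y) ≤ dK (Dsc.mk a b P R).K (ce p) x y) ∧
      (∀ x y, In (Dsc.mk a b P PT.nil).K x → In (Dsc.mk a b P PT.nil).K y →
        dK (Dsc.mk a b P R).K (ce p) x y ≤ dK (Dsc.mk a b P PT.nil).K (ce p) x y)

/-- [F26] pinch criterion.
PROOF. For a point `x ∈ X1 ∩ X2` of `K`: `Stp K x x`, so `2 d x v ≤ ce p x x = 0`: `d x v = 0`. Let `φ x = - d x v` if `X1 x`, else `d x v`. For points of `X2` (also those in `X1`)
`φ x = d x v`. Claim: `φ y - φ x ≤ ce p x y` for all steps. Both in `X1`: `d x v - d y v ≤ d x y ≤ ce p x y` (A2). Both in `X2`: same. `X1 x`, `X2 y`: hypothesis (with symmetry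
of `d`). `X2 x`, `X1 y`: `φ y - φ x = - d y v - d x v ≤ 0 ≤ ce p x y`. Apply A3 with `ρ x y = φ y - φ x` to `x ∈ X1`, `y ∈ X2`. -/
def S_F26 : Prop :=
  ∀ (N : ℕ) (K : Cx N) (p : Fin N → E) (v : Fin N) (X1 X2 : Pt N → Prop), Cn K → In K (vx v) →
    (∀ x, In K x → X1 x ∨ X2 x) →
    (∀ x y, Stp K x y → X1 x → X2 y →
      dK K (ce p) x (vx v) + dK K (ce p) (vx v) y ≤ ce p x y) →
    ∀ x y, In K x → In K y → X1 x → X2 y →
      dK K (ce p) x (vx v) + dK K (ce p) (vx v) y ≤ dK K (ce p) x y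

/-- [F27] a zero diagonal pinches.
PROOF. F26 with `v = a`, `X1 = In K_P`, `X2 = In K_R`. Cover: B4 (8). A step `x, y ∈ f` with `x ∈ K_P`, `y ∈ K_R`; `f ∈ K_P` or `f ∈ K_R`. If `f ∈ K_P`: `y` is supported in
`f ∩ g` with `g ∈ K_R`, so in `({a,b} ∪ P.vs) ∩ ({a,b} ∪ R.vs) = {a,b}` (`ok`), so `y` and `vx a` are in a common facet of `D.K` (some facet of `D.K` contains `{a,b}`: unfold `K`), and
`pos p y = p a` since `p a = p b`, so `d a y = 0` (F20 (3)) and `d x a ≤ d x y + d y a ≤ ce p x y`. If `f ∈ K_R`: symmetric, `d x a = 0`. -/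
def S_F27 : Prop :=
  ∀ (N : ℕ) (a b : Fin N) (P R : PT N) (p : Fin N → E), (Dsc.mk a b P R).ok → p a = p b →
    (∀ x, In (Dsc.mk a b P R).K x → In (Dsc.mk a b P PT.nil).K x ∨ In (Dsc.mk b a R PT.nil).K x) ∧
    ∀ x y, In (Dsc.mk a b P PT.nil).K x → In (Dsc.mk b a R PT.nil).K y →
      dK (Dsc.mk a b P R).K (ce p) x (vx a) + dK (Dsc.mk a b P R).K (ce p) (vx a) y ≤
        dK (Dsc.mk a b P R).K (ce p) x y

/-- [F28] contraction of a zero boundary edge, metrically.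
PROOF. `K = (⟨a,b,node w l r,nil⟩).K`, `K' = (⟨a,w,l,r⟩).K`, `g v = if v = b then a else v`. `F x = fun v => if v = b then 0 else if v = a then x a + x b else x v`; `F (vx v) = vx (g v)`,
`pos p (F x) = pos p x` as `p a = p b`; if `x` is supported in `f` then `F x` is supported in `f.image g ⊆ f' ∈ K'` (B10 (3)); so `F` maps points to points and steps to steps of the
same cost, F21 (1) gives the Lipschitz property.
Reverse inequality for vertices: `G x = fun v => if v = a then 0 else if v = b then x a else x v`, `lift x = x` if `In K x`, otherwise `G x`. Points `x` of `K'` have `x b = 0` (B10 (4): `b ∉ f'`).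
(i) if `x ∈ K'` is supported in `f' = f.image g`, `f ∈ K`, `a ∉ f` then `G x` is supported in `f` (for `v ≠ a, b` with `x v ≠ 0`: `v = g u`, `u ∈ f`, so `u = v`; if `x a ≠ 0`:
`a = g u`, `u ∈ f`, `u ≠ a`, so `u = b ∈ f`), `pos p (G x) = pos p x`, `In K (G x)`. (ii) In the situation of (i), `d (lift x) (G x) = 0`: clear if `lift x = G x` (A2 (2)) or if `x a = 0` (then `G x = x`). If
`In K x` and `x a ≠ 0`: `x` is supported in `f₁ ∈ K`, `a ∈ f₁`; the facets of `K` are `{a,b,w}`, those of `fac a w l` (vertices in `{a,w} ∪ l.vs`) and those of `fac w b r` (vertices in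
`{w,b} ∪ r.vs`); `f₁` is not of the last kind and `f` (which contains `b`, not `a`) is of the last kind; for `v ≠ a` with `x v ≠ 0`: `v ∈ f₁ ∩ f`, `v ≠ b`, so `v = w` (`ok`). So `x` is
supported in `{a,w}`, `G x` in `{b,w}`, both in `{a,b,w} ∈ K`: F20 (3). (iii) A3 for `K'` with `ρ x y = d (lift x) (lift y)`: step `x, y ∈ f' ∈ K'`: if `f' ⊆ f ∈ K`: `lift x = x`,
`lift y = y`, `Stp K x y`. Otherwise (B10 (4)) (i), (ii): `ρ x y ≤ d (G x) (G y) ≤ ce p (G x) (G y) = ce p x y`. (All `lift x ∈ K` for `x ∈ K'`.) Vertices `v` of `⟨a,w,l,r⟩` are in `K`, so `lift (vx v) = vx v`. -/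
def S_F28 : Prop :=
  ∀ (N : ℕ) (a b w : Fin N) (l r : PT N) (p : Fin N → E), (Dsc.mk a b (PT.node w l r) PT.nil).ok →
    p a = p b →
    ∃ F : Pt N → Pt N,
      (∀ x, In (Dsc.mk a b (PT.node w l r) PT.nil).K x → In (Dsc.mk a w l r).K (F x)) ∧
      (∀ x y, In (Dsc.mk a b (PT.node w l r) PT.nil).K x →
        In (Dsc.mk a b (PT.node w l r) PT.nil).K y →
        dK (Dsc.mk a w l r).K (ce p) (F x) (F y) ≤
          dK (Dsc.mk a b (PT.node w l r) PT.nil).K (ce p) x y) ∧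
      (∀ v, F (vx v) = vx (if v = b then a else v)) ∧
      (∀ v ∈ (Dsc.mk a w l r).vl, ∀ v' ∈ (Dsc.mk a w l r).vl,
        dK (Dsc.mk a b (PT.node w l r) PT.nil).K (ce p) (vx v) (vx v') ≤
          dK (Dsc.mk a w l r).K (ce p) (vx v) (vx v'))

/-- [F29] flip map, interior parameter (the other parameter arbitrary).
PROOF. `oab = (1-s) • vx a + s • vx b`, `oxw = (1-t) • vx x + t • vx w`, `m y = min (y a / (1-s)) (y b / s)`, `F y = y - m y • (oab - oxw)`. For `y ≥ 0`, `∑ y = 1`: `F y ≥ 0` (`a`: `y a - m (1-s) ≥ 0`,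
`b`: `y b - m s ≥ 0`, `x`, `w`: increased, others unchanged), `∑ F y = 1`, `pos p (F y) = pos p y` (hypothesis on `p`). If `y` is supported in `f ∈ M`: `y a = 0` or `y b = 0`, `m y = 0`, `F y = y`.
If `y` is supported in `{a,b,w}` or `{a,b,x}`: let `h y = s * y a - (1-s) * y b`. If `h y ≥ 0`: `m y = y b / s`, `F y` is supported in `{a,x,w}`; if `h y ≤ 0`: `m y = y a / (1-s)`, `F y` is supported in `{b,x,w}`.
Vertices: `m (vx v) = 0`. Lipschitz: F21 (1), a step `y, z ∈ f ∈ K`: `f ∈ M`: `F` is the identity on it, `Stp K' y z`. `f = {a,b,w}` or `{a,b,x}`: if `h y, h z ≥ 0` or `h y, h z ≤ 0` then `F y, F z` are in a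
common facet of `K'` and `d' (F y) (F z) ≤ ce p (F y) (F z) = ce p y z`. Otherwise, `λ = h y / (h y - h z) ∈ [0,1]`, `u = (1-λ) • y + λ • z` (in `f` by A1 (7)), `h u = 0`, so
`d' (F y) (F z) ≤ d' (F y) (F u) + d' (F u) (F z) ≤ ce p y u + ce p u z = ce p y z` (`pos p u = (1-λ) pos y + λ pos z`). -/
def S_F29 : Prop :=
  ∀ (N : ℕ) (M : Cx N) (a b w x : Fin N) (p : Fin N → E) (s t : ℝ), [a, b, w, x].Nodup →
    (∀ f ∈ M, ¬ (a ∈ f ∧ b ∈ f)) → Cn (M ∪ {{a, b, w}, {a, b, x}}) → Cn (M ∪ {{a, x, w}, {b, x, w}}) →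
    0 < s → s < 1 → 0 ≤ t → t ≤ 1 → (1 - s) • p a + s • p b = (1 - t) • p x + t • p w →
    ∃ F : Pt N → Pt N,
      (∀ y, In (M ∪ {{a, b, w}, {a, b, x}}) y →
        In (M ∪ {{a, x, w}, {b, x, w}}) (F y) ∧ pos p (F y) = pos p y) ∧
      (∀ y z, In (M ∪ {{a, b, w}, {a, b, x}}) y → In (M ∪ {{a, b, w}, {a, b, x}}) z →
        dK (M ∪ {{a, x, w}, {b, x, w}}) (ce p) (F y) (F z) ≤
          dK (M ∪ {{a, b, w}, {a, b, x}}) (ce p) y z) ∧
      (∀ v, F (vx v) = vx v)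

/-- [F30] inverse flip map if `w` lies on the segment `ab`.
PROOF. `K = M ∪ {{a,b,w},{a,b,x}}`, `K' = M ∪ {{a,x,w},{b,x,w}}`, `oab = (1-s) • vx a + s • vx b`, `G₁ y = y - y w • (vx w - oab)`, `G y = if y x = 0 then y else G₁ y`. `pos p (G₁ y) = pos p y`. On a
facet `f ∈ M`: not both `x, w ∈ f`, so `y w = 0` or `y x = 0`: `G y = y`. On `{a,x,w}` or `{b,x,w}`: `G₁ y` is supported in `{a,b,x} ∈ K` (nonnegative, sum 1); if `y x = 0` then `G y = y` is
supported in `{a,w}` or `{b,w}`, inside `{a,b,w} ∈ K`, and so is `G₁ y` (in `{a,b}`): so always `In K (G y)`, `d (G y) (G₁ y) = 0` (F20 (3) or A2 (2)). Lipschitz: F21 (1): on a step in `M`: clear; on a step `y, z` in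
`{a,x,w}` or `{b,x,w}`: `d (G y) (G z) ≤ d (G₁ y) (G₁ z) ≤ ce p y z`. Vertices are fixed (`vx x`: `y w = 0`; `vx w`: `y x = 0`). -/
def S_F30 : Prop :=
  ∀ (N : ℕ) (M : Cx N) (a b w x : Fin N) (p : Fin N → E) (s : ℝ), [a, b, w, x].Nodup →
    (∀ f ∈ M, ¬ (x ∈ f ∧ w ∈ f)) → Cn (M ∪ {{a, b, w}, {a, b, x}}) → Cn (M ∪ {{a, x, w}, {b, x, w}}) →
    0 ≤ s → s ≤ 1 → (1 - s) • p a + s • p b = p w →
    ∃ G : Pt N → Pt N,
      (∀ y, In (M ∪ {{a, x, w}, {b, x, w}}) y →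
        In (M ∪ {{a, b, w}, {a, b, x}}) (G y) ∧ pos p (G y) = pos p y) ∧
      (∀ y z, In (M ∪ {{a, x, w}, {b, x, w}}) y → In (M ∪ {{a, x, w}, {b, x, w}}) z →
        dK (M ∪ {{a, b, w}, {a, b, x}}) (ce p) (G y) (G z) ≤
          dK (M ∪ {{a, x, w}, {b, x, w}}) (ce p) y z) ∧
      (∀ v, G (vx v) = vx v)

/-- [F31] the flipped disc: both maps.
PROOF. `D = ⟨a,b,node w l r,node x l' r'⟩`, `D' = flp a b w x l r l' r' = ⟨x,w,node a r' l,node b r l'⟩`. B9: `D.K = M ∪ {{a,b,w},{a,b,x}}`, `D'.K = M ∪ {{a,x,w},{b,x,w}}` where in fact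
`M = fac a w l ∪ fac w b r ∪ fac b x l' ∪ fac x a r'` (unfold `K` again to have this `M`; `insert_union`, order of unions). `D.vl` is a permutation of `D'.vl`, so `D'.ok`; `[a,b,w,x]` is `Nodup`. No facet of `M` contains both `a, b`
or both `x, w`: facets of `fac a w l` have vertices in `{a,w} ∪ l.vs` etc. (B4-type induction: vertices of facets of `fac u v P` are in `{u,v} ∪ P.vs`; use B4 (9) for `⟨a,w,l,nil⟩` if you like) and `ok`. Both complexes are connected (B5).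
`F`: F29. `G`: if `t = 1`: F30; if `t < 1`: F29 with `(a,b,w,x,s,t)` replaced by `(x,w,b,a,t,s)` (the sets `{x,w,b}` etc. have to be reordered). -/
def S_F31 : Prop :=
  ∀ (N : ℕ) (a b w x : Fin N) (l r l' r' : PT N) (p : Fin N → E) (s t : ℝ),
    (Dsc.mk a b (PT.node w l r) (PT.node x l' r')).ok →
    0 < s → s < 1 → 0 < t → t ≤ 1 → (1 - s) • p a + s • p b = (1 - t) • p x + t • p w →
    (flp a b w x l r l' r').ok ∧
    (∃ F : Pt N → Pt N,
      (∀ y, In (Dsc.mk a b (PT.node w l r) (PT.node x l' r')).K y →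
        In (flp a b w x l r l' r').K (F y) ∧ pos p (F y) = pos p y) ∧
      (∀ y z, In (Dsc.mk a b (PT.node w l r) (PT.node x l' r')).K y →
        In (Dsc.mk a b (PT.node w l r) (PT.node x l' r')).K z →
        dK (flp a b w x l r l' r').K (ce p) (F y) (F z) ≤
          dK (Dsc.mk a b (PT.node w l r) (PT.node x l' r')).K (ce p) y z) ∧
      (∀ v, F (vx v) = vx v)) ∧
    (∃ G : Pt N → Pt N,
      (∀ y, In (flp a b w x l r l' r').K y →
        In (Dsc.mk a b (PT.node w l r) (PT.node x l' r')).K (G y)) ∧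
      (∀ y z, In (flp a b w x l r l' r').K y → In (flp a b w x l r l' r').K z →
        dK (Dsc.mk a b (PT.node w l r) (PT.node x l' r')).K (ce p) (G y) (G z) ≤
          dK (flp a b w x l r l' r').K (ce p) y z) ∧
      (∀ v, G (vx v) = vx v))

/-- [F32] areas and the Delaunay functional under a flip (planar identities).
PROOF. Coordinates. With `o = (1-s) a + s b = (1-t) x + t w`: `ar a b o = 0` gives `t * ar a b w = (1-t) * ar b a x` (`ar a b` is affine, `ar a b x = - ar b a x`), so `ar a b w = (1-t) A`,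
`ar b a x = t A`. `ar x w a + ar w x b = A` (identity), `ar x w o = 0` gives `(1-s) * ar x w a = s * ar w x b` so `ar x w a = s A`, `ar w x b = (1-s) A`. Then the left side of (5) is
`A * ((1-s)‖a‖² + s‖b‖² - (1-t)‖x‖² - t‖w‖²)` and `(1-s)‖a‖² + s‖b‖² = ‖o‖² + s(1-s)‖a-b‖²`, same for `x, w, t`. (`EuclideanSpace.norm_eq`, `Fin.sum_univ_two`, `real_inner` or `‖·‖^2 = (· 0)^2 + (· 1)^2`.) -/
def S_F32 : Prop :=
  ∀ (a b w x : E) (s t : ℝ), (1 - s) • a + s • b = (1 - t) • x + t • w →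
    ar a b w = (1 - t) * (ar a b w + ar b a x) ∧
    ar b a x = t * (ar a b w + ar b a x) ∧
    ar x w a = s * (ar a b w + ar b a x) ∧
    ar w x b = (1 - s) * (ar a b w + ar b a x) ∧
    ar a b w * (‖a‖ ^ 2 + ‖b‖ ^ 2 + ‖w‖ ^ 2) + ar b a x * (‖b‖ ^ 2 + ‖a‖ ^ 2 + ‖x‖ ^ 2) -
        ar x w a * (‖x‖ ^ 2 + ‖w‖ ^ 2 + ‖a‖ ^ 2) - ar w x b * (‖w‖ ^ 2 + ‖x‖ ^ 2 + ‖b‖ ^ 2) =
      (ar a b w + ar b a x) * (s * (1 - s) * dist a b ^ 2 - t * (1 - t) * dist x w ^ 2)

/-- [F33] `WPos`, `I`, `Q` of the flipped disc.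
PROOF. Unfold; F32 for `p a, p b, p w, p x`; the terms of `l, r, l', r'` are the same. `WPos`: `A ≥ 0`, `ar x w a = s A ≥ 0`, `ar w x b = (1-s) A ≥ 0`. -/
def S_F33 : Prop :=
  ∀ (N : ℕ) (a b w x : Fin N) (l r l' r' : PT N) (p : Fin N → E) (s t : ℝ),
    0 ≤ s → s ≤ 1 → (1 - s) • p a + s • p b = (1 - t) • p x + t • p w →
    ((Dsc.mk a b (PT.node w l r) (PT.node x l' r')).WPos p →
      (flp a b w x l r l' r').WPos p ∧ 0 ≤ ar (p a) (p b) (p w) + ar (p b) (p a) (p x)) ∧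
    (Dsc.mk a b (PT.node w l r) (PT.node x l' r')).I p - (flp a b w x l r l' r').I p =
      (ar (p a) (p b) (p w) + ar (p b) (p a) (p x)) *
        (s * (1 - s) * dist (p a) (p b) ^ 2 - t * (1 - t) * dist (p x) (p w) ^ 2) ∧
    (Dsc.mk a b (PT.node w l r) (PT.node x l' r')).Q p - (flp a b w x l r l' r').Q p =
      dist (p a) (p b) ^ 2 - dist (p x) (p w) ^ 2

/-- [F34] three collinear points.
PROOF. (1) `λ = ⟪w - u, v - u⟫ / ‖v - u‖²`; `ar u v w = 0` and `v ≠ u` give `w - u = λ (v - u)` (coordinates); `λ ≠ 0, 1`. `0 < λ < 1`: `w = (1-λ) u + λ v`. `λ > 1`: `v = (1-s) w + s u`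
with `s = 1 - 1/λ`. `λ < 0`: `u = (1-s) v + s w`, `s = 1/(1-λ)`. (2) norms: `w - u = s (v-u)`, `v - w = (1-s)(v-u)`. (3) `x - w = (s'-s)(v-u)`, `|s'-s| < 1`. -/
def S_F34 : Prop :=
  (∀ u v w : E, ar u v w = 0 → u ≠ v → v ≠ w → u ≠ w →
    (∃ s : ℝ, 0 < s ∧ s < 1 ∧ w = (1 - s) • u + s • v) ∨
    (∃ s : ℝ, 0 < s ∧ s < 1 ∧ u = (1 - s) • v + s • w) ∨
    (∃ s : ℝ, 0 < s ∧ s < 1 ∧ v = (1 - s) • w + s • u)) ∧
  (∀ (u v w : E) (s : ℝ), 0 < s → s < 1 → u ≠ v → w = (1 - s) • u + s • v →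
    dist u w < dist u v ∧ dist w v < dist u v ∧ w ≠ u ∧ w ≠ v) ∧
  (∀ (u v w x : E) (s s' : ℝ), 0 < s → s < 1 → 0 < s' → s' < 1 → u ≠ v →
    w = (1 - s) • u + s • v → x = (1 - s') • u + s' • v → dist x w < dist u v) ∧
  (∀ u v w : E, ar v w u = ar u v w ∧ ar w u v = ar u v w ∧ ar v u w = - ar u v w)

/-- [F35] degenerate boundary triangle: pinch at its middle vertex, metrically.
PROOF. `D = ⟨a,b,node w l r,nil⟩`, `h x = s * x a - (1-s) * x b`. The facets of `D.K` are `{a,b,w}`, those of `fac a w l` (facets of `⟨a,w,l,nil⟩.K`, vertices in `{a,w} ∪ l.vs`) and those of `fac w b r` (facets of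
`⟨w,b,r,nil⟩.K`, vertices in `{w,b} ∪ r.vs`). So the cover is clear. F26 with `v = w`. Let `x, y ∈ f` be a step, `X1 x`, `X2 y`.
`f = {a,b,w}`: `h x ≥ 0` (if `x` is a point of `⟨a,w,l,nil⟩.K` then `x b = 0`) and `h y ≤ 0`; for `z` supported in `{a,b,w}`: `pos p z = p w + h z • (p a - p b)` (as `z a + z b + z w = 1`), so
`ce p x y = (h x - h y) ‖p a - p b‖ = ce p x (vx w) + ce p (vx w) y ≥ d x w + d w y` (all three points are in `f`).
`f ∈ fac a w l`: `y` is supported in `f ⊆ {a,w} ∪ l.vs` and by `X2 y`: either in `{w,b} ∪ r.vs`, so `y = vx w`; or `y b = 0` (`b ∉ f`), `s * y a ≤ 0`, `y a = 0` and `y` supported in `{a,b,w}`, so `y = vx w`. Then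
`d x w + d w w = d x w ≤ ce p x y`. `f ∈ fac w b r`: symmetric, `x = vx w`. -/
def S_F35 : Prop :=
  ∀ (N : ℕ) (a b w : Fin N) (l r : PT N) (p : Fin N → E) (s : ℝ),
    (Dsc.mk a b (PT.node w l r) PT.nil).ok → 0 < s → s < 1 → p w = (1 - s) • p a + s • p b →
    (∀ x, In (Dsc.mk a b (PT.node w l r) PT.nil).K x →
      (In (Dsc.mk a w l PT.nil).K x ∨ (Sup x {a, b, w} ∧ (1 - s) * x b ≤ s * x a)) ∨
      (In (Dsc.mk w b r PT.nil).K x ∨ (Sup x {a, b, w} ∧ s * x a ≤ (1 - s) * x b))) ∧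
    ∀ x y, In (Dsc.mk a b (PT.node w l r) PT.nil).K x →
      In (Dsc.mk a b (PT.node w l r) PT.nil).K y →
      (In (Dsc.mk a w l PT.nil).K x ∨ (Sup x {a, b, w} ∧ (1 - s) * x b ≤ s * x a)) →
      (In (Dsc.mk w b r PT.nil).K y ∨ (Sup y {a, b, w} ∧ s * y a ≤ (1 - s) * y b)) →
      dK (Dsc.mk a b (PT.node w l r) PT.nil).K (ce p) x (vx w) +
        dK (Dsc.mk a b (PT.node w l r) PT.nil).K (ce p) (vx w) y ≤
        dK (Dsc.mk a b (PT.node w l r) PT.nil).K (ce p) x y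

/-- [F36] positivity from positivity of all top triangles, facet form.
PROOF. (1) Claim for all `P`, `a b R`: if the hypothesis holds for `⟨a,b,P,R⟩` then `P.SPos p a b`. Induction on `P`: `node w l r`: the top triangle is the hypothesis for `D' = ⟨a,b,node w l r,R⟩` itself; `l`: `⟨a,w,l,node b r R⟩` (move
`lf`) satisfies the hypothesis (transitivity of `Eqv`); `r`: `⟨w,b,r,node a R l⟩` (`rt`). For `R` use `sw`. (2) B1: `D'.WPos p`, unfold. (3) rotating the top triangle: `lf` then `sw`: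
`(a,b;node w l r;R) → (a,w;l;node b r R) → (w,a;node b r R;l)`; `rt` then `sw`: `→ (w,b;r;node a R l) → (b,w;node a R l;r)`. -/
def S_F36 : Prop :=
  ∀ (N : ℕ) (D : Dsc N) (p : Fin N → E),
    ((∀ (a b w : Fin N) (l r R : PT N), Dsc.Eqv D ⟨a, b, PT.node w l r, R⟩ →
      0 < ar (p a) (p b) (p w)) → D.SPos p) ∧
    (D.WPos p → ∀ (a b w : Fin N) (l r R : PT N), Dsc.Eqv D ⟨a, b, PT.node w l r, R⟩ →
      0 ≤ ar (p a) (p b) (p w)) ∧
    (∀ (a b w : Fin N) (l r R : PT N), Dsc.Eqv D ⟨a, b, PT.node w l r, R⟩ →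
      Dsc.Eqv D ⟨w, a, PT.node b r R, l⟩ ∧ Dsc.Eqv D ⟨b, w, PT.node a R l, r⟩ ∧
      Dsc.Eqv D ⟨a, w, l, PT.node b r R⟩ ∧ Dsc.Eqv D ⟨w, b, r, PT.node a R l⟩ ∧
      Dsc.Eqv D ⟨b, a, R, PT.node w l r⟩)

end Pool.Agent.Lib.MP_9f84a9_co
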