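import Pool.Agent.Lib.MP_9f84a9_co.Out
import Pool.Agent.Lib.MP_9f84a9_co.StmA
import Pool.Agent.Lib.MP_9f84a9_co.StmB
import Pool.Agent.Lib.MP_9f84a9_co.StmX
import Pool.Agent.Lib.MP_9f84a9_co.F.StmF2

/-!
# MP_9f84a9_co, module F (section 3), first half: networks, replacement of pieces, pruning, merging of classes, SPLIT.

Statements with complete proofs in the docstrings.
-/

set_option autoImplicit false

namespace Pool.Agent.Lib.MP_9f84a9_co

open Finset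

/-! ## Definitions -/

/-- `d` is a pseudometric on the set `X` of points -/
structure PM {N : ℕ} (X : Pt N → Prop) (d : Pt N → Pt N → ℝ) : Prop where
  nonneg : ∀ x y, 0 ≤ d x y
  symm : ∀ x y, d x y = d y x
  refl : ∀ x, X x → d x x = 0
  tri : ∀ x y z, X x → X y → X z → d x z ≤ d x y + d y z

/-- nodes and leaves of the net `A` are in `X` -/
def NX {N : ℕ} (X : Pt N → Prop) (A : Net N) : Prop :=
  (∀ z ∈ A.nodes, X z) ∧ ∀ v ∈ A.leaves, X (vx v)

/-- joined by the pairs of the list `L` -/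
def RJ (L : List (ℕ × ℕ)) (a b : ℕ) : Prop :=
  Relation.ReflTransGen (fun x y => (x, y) ∈ L ∨ (y, x) ∈ L) a b

/-- the star of a list of classes -/
def stl (c : List ℕ) : List (ℕ × ℕ) := c.tail.map fun x => (c.headI, x)

/-- the stars of all pieces -/
def sts {N : ℕ} (S : Cfg N) : List (ℕ × ℕ) := (S.map fun q => stl (q.lv.map q.lab)).flatten

/-- the contribution of a piece to `mu` -/
def Piece.mu {N : ℕ} (q : Piece N) : ℕ := (q.lv.length - 1) ^ 2 * (q.D.vl.length - 1)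

/-- the piece `q` with another network -/
def wT {N : ℕ} (q : Piece N) (T : Net N × Net N) : Piece N := ⟨q.D, q.p, q.lab, T⟩

/-- the piece `q` with class `B` renamed to `A` -/
def rlb {N : ℕ} (A B : ℕ) (q : Piece N) : Piece N :=
  ⟨q.D, q.p, fun v => if q.lab v = B then A else q.lab v, q.T⟩

/-- the pieces `nu` can replace the piece `q` in `pre ++ q :: post` -/
structure Rpl {N : ℕ} (Cl : Finset ℕ) (P : ℝ) (pre post : Cfg N) (q : Piece N)
    (nu : List (Piece N)) : Prop where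
  ok : ∀ q' ∈ nu, q'.ok Cl P
  chd : ∀ q' ∈ nu, ∀ v ∈ q'.D.vl, ∀ w ∈ q'.D.vl, ∃ v' ∈ q.D.vl, ∃ w' ∈ q.D.vl,
    q.lab v' = q'.lab v ∧ q.lab w' = q'.lab w ∧ q.d (vx v') (vx w') ≤ q'.d (vx v) (vx w)
  jn : ∀ u ∈ q.lv, ∀ v ∈ q.lv, HJ (pre ++ nu ++ post) (q.lab u) (q.lab v)
  cnt : (nu.map fun q' => q'.lv.length - 1).sum ≤ q.lv.length - 1

/-- the configurations considered in section 3: optimal for `Lc` and `mu` -/
structure Mcal {N : ℕ} (Cl : Finset ℕ) (P : ℝ) (S : Cfg N) : Prop where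
  mem : InD Cl P S
  o1 : ∀ S' : Cfg N, InD Cl P S' → Lc S ≤ Lc S'
  o2 : ∀ S' : Cfg N, InD Cl P S' → Lc S' ≤ Lc S → mu S ≤ mu S'
  lt : Lc S < Real.sqrt 3 / 2
  ih : ∀ n < Cl.card, ThmY n
  hP : 1 ≤ P

/-- the piece `q` with new disc, positions and labels, network moved by `F`, `ν` -/
def trp {N : ℕ} (q : Piece N) (D' : Dsc N) (p' : Fin N → E) (lab' : Fin N → ℕ)
    (F : Pt N → Pt N) (ν : Fin N → Fin N) : Piece N :=
  ⟨D', p', lab', (Net.mp F ν q.T.1, Net.mp F ν q.T.2)⟩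

/-- admissible transfer data (TR) -/
structure Trf {N : ℕ} (Cl : Finset ℕ) (P : ℝ) (q : Piece N) (D' : Dsc N) (p' : Fin N → E)
    (lab' : Fin N → ℕ) (F : Pt N → Pt N) (ν : Fin N → Fin N) : Prop where
  dok : D'.ok
  wpos : D'.WPos p'
  labs : ∀ v, lab' v ∈ Cl
  diam : ∀ v ∈ D'.vl, ∀ w ∈ D'.vl, dist (p' v) (p' w) ≤ P
  inn : ∀ x, In q.D.K x → In D'.K (F x)
  lip : ∀ x y, In q.D.K x → In q.D.K y → dK D'.K (ce p') (F x) (F y) ≤ q.d x y
  lvs : ∀ v ∈ q.lv, ν v ∈ D'.vl ∧ lab' (ν v) = q.lab v ∧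
    dK D'.K (ce p') (F (vx v)) (vx (ν v)) = 0
  chd : ∀ v ∈ D'.vl, ∀ w ∈ D'.vl, ∃ v' ∈ q.D.vl, ∃ w' ∈ q.D.vl, q.lab v' = lab' v ∧
    q.lab w' = lab' w ∧ q.d (vx v') (vx w') ≤ dK D'.K (ce p') (vx v) (vx w)

/-! ## Graph lemmas -/

/-- [F1 tree] Spanning lists of edges.
PROOF. Structure lemma: `RJ (e :: L) x y` implies `RJ L x y`, or `RJ L x e.1 ∧ RJ L e.2 y`, or `RJ L x e.2 ∧ RJ L e.1 y` (induction on the chain from the tail end: let
`y' → y` be the last step; if it is a step of `L` append it; if it is the step `e`, `{y', y} = {e.1, e.2}`: in each case one of the three holds for `y`). `RJ` is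
symmetric and monotone in the list.
(1) CLAIM A: for every list `L` with ends in `V` there is `R ⊆ V`, pairwise not joined by `L` (`x y ∈ R`, `RJ L x y → x = y`), with `V.card ≤ L.length + R.card`. Induction: `L = []`,
`R = V` (`RJ [] x y` gives `x = y`). `e :: L`, `R₀` for `L`: if no element of `R₀` is joined by `L` to `e.2`, take `R = R₀`; else let `ρ ∈ R₀` be joined to `e.2` and take
`R = R₀.erase ρ`. `R` is good: let `x y ∈ R` with `RJ (e :: L) x y`; by the structure lemma `RJ L x y` (then `x = y`) or one of `x`, `y` is joined by `L` to `e.2`, so it is `ρ` (or there is none): not in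
`R`. If `L` joins all of `V`, `R.card ≤ 1`.
(2) CLAIM B: for every list `L` with ends in `V` there is a sublist `L'` with the same relation (`RJ L x y → RJ L' x y`) and `R ⊆ V` such that every `v ∈ V` is
joined by `L'` to some element of `R`, and `L'.length + R.card ≤ V.card`. Induction: `L = []`, `L' = []`, `R = V`. `e :: L`, `L₀'`, `R₀` for `L`: if `RJ L₀' e.1 e.2`, keep `L₀'`, `R₀` (a step `e` can be
replaced by a chain). Else let `ρ₁, ρ₂ ∈ R₀` be joined to `e.1`, `e.2`; `ρ₁ ≠ ρ₂`; `L' = e :: L₀'`, `R = R₀.erase ρ₂` (what is joined to `ρ₂` is joined to `ρ₁` through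
`e`). If `L` joins all of `V` and `V` is nonempty, `R` is nonempty, so `L'.length + 1 ≤ V.card ≤ L.length`: `L'` is a sublist of `L` different from `L`. A proper sublist `L'` of `L` is a sublist
of some `L₁ ++ L₂` with `L = L₁ ++ e :: L₂` (induction on `List.Sublist`); `RJ` is monotone. -/
def S_Ftree : Prop :=
  ∀ (V : Finset ℕ) (L : List (ℕ × ℕ)), V.Nonempty → (∀ e ∈ L, e.1 ∈ V ∧ e.2 ∈ V) →
    (∀ a ∈ V, ∀ b ∈ V, RJ L a b) →
    V.card ≤ L.length + 1 ∧
    (V.card ≤ L.length → ∃ (L₁ : List (ℕ × ℕ)) (e : ℕ × ℕ) (L₂ : List (ℕ × ℕ)),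
      L = L₁ ++ e :: L₂ ∧ ∀ a ∈ V, ∀ b ∈ V, RJ (L₁ ++ L₂) a b)

/-- [F1 cat] Locating an element in a flattened list.
PROOF. Induction on `Ls`. `Ls = []`: impossible. `Ls = c :: Ls'`: `c ++ Ls'.flatten = L₁ ++ e :: L₂` (`List.append_eq_append_iff`): either `L₁ = c ++ L₁'`,
`Ls'.flatten = L₁' ++ e :: L₂` (induction, put `c` in front of `pre`), or `c = L₁ ++ c'`, `e :: L₂ = c' ++ Ls'.flatten`; if `c' = []` then `L₁ = c`, `Ls'.flatten = [] ++ e :: L₂`:
induction again with `L₁' = []`; if `c' = e :: c''`: `pre = []`, `c₁ = L₁`, `c₂ = c''`, `post = Ls'`. -/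
def S_Fcat : Prop :=
  ∀ (α : Type) (Ls : List (List α)) (L₁ L₂ : List α) (e : α), Ls.flatten = L₁ ++ e :: L₂ →
    ∃ (pre : List (List α)) (c₁ c₂ : List α) (post : List (List α)),
      Ls = pre ++ (c₁ ++ e :: c₂) :: post ∧ L₁ = pre.flatten ++ c₁ ∧ L₂ = c₂ ++ post.flatten

/-- [F1 st] Stars and the relations `RJ`, `HJ`.
PROOF. (1),(2) replace every step by a chain; symmetric steps. (3) for `c = h :: t`: `stl c = t.map (h, ·)`; every element of `c` is `h` or joined to `h` by one step. (4),(5) symmetry and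
monotonicity of `HJ`. (6) a step `Hst` is two classes of `q.lv.map q.lab` for a `q ∈ S`, joined by `stl (q.lv.map q.lab)`, whose elements are in `sts S`; conversely an element
of `sts S` is in `stl (q.lv.map q.lab)` for a `q ∈ S`, so by (3) both ends are classes of leaves of `q`: a step `Hst`. (7) length of a flattened list. -/
def S_Fst : Prop :=
  (∀ (L L' : List (ℕ × ℕ)) (a b : ℕ), (∀ e ∈ L, RJ L' e.1 e.2) → RJ L a b → RJ L' a b) ∧
  (∀ (L : List (ℕ × ℕ)) (a b : ℕ), RJ L a b → RJ L b a) ∧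
  (∀ c : List ℕ, (stl c).length = c.length - 1 ∧ (∀ e ∈ stl c, e.1 ∈ c ∧ e.2 ∈ c) ∧
    ∀ a ∈ c, ∀ b ∈ c, RJ (stl c) a b) ∧
  (∀ (N : ℕ) (S : Cfg N) (a b : ℕ), HJ S a b → HJ S b a) ∧
  (∀ (N : ℕ) (S S' : Cfg N) (a b : ℕ), (∀ q ∈ S, q ∈ S') → HJ S a b → HJ S' a b) ∧
  (∀ (N : ℕ) (S : Cfg N) (a b : ℕ), HJ S a b ↔ RJ (sts S) a b) ∧
  (∀ (N : ℕ) (S : Cfg N), (sts S).length = (S.map fun q => q.lv.length - 1).sum ∧
    ∀ e ∈ sts S, ∃ q ∈ S, e.1 ∈ q.lv.map q.lab ∧ e.2 ∈ q.lv.map q.lab)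

-- [F1 star] proves `S_star` of Out.lean from `S_Ftree`, `S_Fst`.
-- PROOF. Let `L = (S.map fun q => stl ((q.lv.map q.lab).dedup)).flatten`. `dedup` has the same elements, so every `Hst` step is a chain of `L` by `S_Fst` (3), so `L` joins all of
-- `Cl`; its elements have ends in `Cl`; its length is `∑ ((q.lv.map q.lab).dedup.length - 1)` and `(l.dedup).length = l.toFinset.card`
-- (`List.toFinset_card_of_nodup`, `List.toFinset_dedup`...). `S_Ftree` (1).

/-- [F1 oth] The class `c` is joined by the other pieces to the class of some leaf of `q`.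
PROOF. `q.lv` is not empty; let `u₀ ∈ q.lv`. Head induction on the chain from `c` to `q.lab u₀` in `pre ++ q :: post`: the statement `∃ u ∈ q.lv, HJ (pre ++ post) x (q.lab u)` holds for
`x = q.lab u₀`; if it holds for `x'` and `Hst x x'` by a piece `q'`: if `q' = q` (that is `q'` is the piece at this place; membership in `pre ++ q :: post` gives `q' ∈ pre ++ post` or `q' = q`), `x` itself is the class of
a leaf of `q` (refl); else prepend the step. -/
def S_Foth : Prop :=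
  ∀ (N : ℕ) (Cl : Finset ℕ) (pre post : Cfg N) (q : Piece N) (c : ℕ),
    (∀ a ∈ Cl, ∀ b ∈ Cl, HJ (pre ++ q :: post) a b) → (∀ v, q.lab v ∈ Cl) → c ∈ Cl →
    ∃ u ∈ q.lv, HJ (pre ++ post) c (q.lab u)

/-! ## Nets -/

/-- [F1 pm] The intrinsic distance is a pseudometric; vertices are points.
PROOF. (1) A2 with `IsCost (ce p)` (A1) and `Cn D.K` (B5). (2) B4 (2): `v` is in a facet, A1 (5). (3) `In K (vx v)`: some facet `f` with `Sup (vx v) f`; `vx v v = 1 ≠ 0`, so `v ∈ f`; B4 (1). (4) `v ∈ vl` for the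
leaves by `ok.lvs`, then (2). (5) Eqv preserves leaves and nodes up to permutation (X3). (6) `top` is a node or a leaf. -/
def S_Fpm : Prop :=
  (∀ (N : ℕ) (D : Dsc N) (p : Fin N → E), D.ok →
    PM (In D.K) (dK D.K (ce p)) ∧ (∀ v ∈ D.vl, In D.K (vx v)) ∧ (∀ v, In D.K (vx v) → v ∈ D.vl)) ∧
  (∀ (N : ℕ) (Cl : Finset ℕ) (P : ℝ) (q : Piece N), q.ok Cl P →
    PM (In q.D.K) q.d ∧ NX (In q.D.K) q.T.1 ∧ NX (In q.D.K) q.T.2 ∧
    ∀ T', Net.Eqv q.T T' → NX (In q.D.K) T'.1 ∧ NX (In q.D.K) T'.2 ∧ In q.D.K T'.1.top ∧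
      In q.D.K T'.2.top ∧ q.lv.Perm (T'.1.leaves ++ T'.2.leaves) ∧
      q.nd.Perm (T'.1.nodes ++ T'.2.nodes) ∧ q.L = Net.tlen q.d T') ∧
  (∀ (N : ℕ) (X : Pt N → Prop) (A : Net N), NX X A → X A.top) ∧
  (∀ (N : ℕ) (X : Pt N → Prop) (d : Pt N → Pt N → ℝ) (A : Net N), PM X d → 0 ≤ A.len d) ∧
  (∀ (N : ℕ) (A : Net N), 1 ≤ A.leaves.length)

/-- [F1 map] Image of a network under a 1-Lipschitz map.
PROOF. First part by induction. For `A` with `NX X A` and the leaf condition: `X' (mp A).top` and `d' (F A.top) (mp A).top = 0` (leaf: condition; node: `d' (F z) (F z) = 0`), and `(mp A).len d' ≤ A.len d` by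
induction: `d' (F z) (mp l).top ≤ d' (F z) (F l.top) + d' (F l.top) (mp l).top ≤ d z l.top`. For the centre edge: `d' (mp A).top (mp B).top ≤ d' (mp A).top (F A.top) + d' (F A.top) (F B.top) + d' (F B.top)
(mp B).top ≤ d A.top B.top`. (`NX X A → X A.top` by cases.) -/
def S_Fmap : Prop :=
  ∀ (N : ℕ) (F : Pt N → Pt N) (ν : Fin N → Fin N),
    (∀ A : Net N, (Net.mp F ν A).leaves = A.leaves.map ν ∧ (Net.mp F ν A).nodes = A.nodes.map F ∧
      (Net.mp F ν A).fl = ν A.fl) ∧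
    ∀ (X X' : Pt N → Prop) (d d' : Pt N → Pt N → ℝ),
      PM X' d' → (∀ x, X x → X' (F x)) → (∀ x y, X x → X y → d' (F x) (F y) ≤ d x y) →
      ∀ T : Net N × Net N, NX X T.1 → NX X T.2 →
        (∀ v ∈ T.1.leaves ++ T.2.leaves, X' (vx (ν v)) ∧ d' (F (vx v)) (vx (ν v)) = 0) →
        Net.tlen d' (Net.mp F ν T.1, Net.mp F ν T.2) ≤ Net.tlen d T

/-- [F1 path] Walking from the leaf `x` to the leaf `y`.
PROOF. CLAIM: for all nets `B`, `A`: if `Q A.top`, `A` is `leaf x` or a node, `y ∈ B.leaves`, `¬ Q (vx y)`, then there is `T' ~ (A, B)` as asserted. Induction on `B` (all `A`). `B = leaf y'`: `y' = y`,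
`T' = (A, B)`. `B = node z l r`: if `¬ Q z`, `T' = (A, B)`. If `Q z` and `y ∈ l.leaves`: moves `sw` to `(node z l r, A)`, `lf` to `(l, node z r A)`, `sw` to `(node z r A, l)`; induction for `l`; if
`y ∈ r.leaves`: `sw`, `rt` to `(r, node z l A)`, `sw`. Now by X3 (5) there is `T'' ~ T` with `T''.1 = leaf x` and the leaves of `T''` are a permutation of the leaves of `T`; `y ≠ x` (as `Q (vx x)`, `¬ Q (vx y)`), so
`y ∈ T''.2.leaves`; apply the CLAIM. -/
def S_Fpath : Prop :=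
  ∀ (N : ℕ) (T : Net N × Net N) (Q : Pt N → Prop) (x y : Fin N),
    x ∈ T.1.leaves ++ T.2.leaves → y ∈ T.1.leaves ++ T.2.leaves → Q (vx x) → ¬ Q (vx y) →
    ∃ T', Net.Eqv T T' ∧ Q T'.1.top ∧ ¬ Q T'.2.top ∧
      (T'.1 = Net.leaf x ∨ ∃ z l r, T'.1 = Net.node z l r) ∧
      (T'.2 = Net.leaf y ∨ ∃ z l r, T'.2 = Net.node z l r)

/-- [F1 prune] Pruning the leaf `u` from a rooted net which is not a single leaf; `z` is the parent node of `u`.
PROOF. Induction on `A = node z₀ l r`. `NX X A → X A.top` etc. by cases. (a) `l = leaf u'` and `u = u'`: `A' = r`, `z = z₀`; `(A, B)` moves by `lf` to `(leaf u, node z₀ r B)`; `d y r.top + len r + d z₀ u ≤ d y z₀ + d z₀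
r.top + len r + d z₀ u`. (b) `r = leaf u`: same with `rt`, `A' = l`. (c) `u ∈ l.leaves`, `l` a node: induction gives `l'`, `z`; `A' = node z₀ l' r`; `(A, B)` moves by `lf` to `(l, node z₀ r B)`, then the induction
hypothesis with `node z₀ r B`; length: the hypothesis with `y := z₀`. (d) `u ∈ r.leaves`, `r` a node: same with `rt`. Leaves: permutations (`List.perm_cons_erase`, `List.Perm` by counting: show
`(u :: A'.leaves).Perm A.leaves`, from which the claim follows by `List.Perm.erase`). If `u` occurs in both `l` and `r` choose any case. -/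
def S_Fprune : Prop :=
  ∀ (N : ℕ) (X : Pt N → Prop) (d : Pt N → Pt N → ℝ), PM X d → ∀ A : Net N, NX X A →
    (∀ v, A ≠ Net.leaf v) → ∀ u ∈ A.leaves, ∃ (A' : Net N) (z : Pt N),
      (u :: A'.leaves).Perm A.leaves ∧ A'.leaves.Perm (A.leaves.erase u) ∧
      (∀ x ∈ A'.nodes, x ∈ A.nodes) ∧ z ∈ A.nodes ∧
      (∀ B : Net N, ∃ B'' : Net N, B''.top = z ∧ Net.Eqv (A, B) (Net.leaf u, B'')) ∧
      ∀ y, X y → d y A'.top + A'.len d + d z (vx u) ≤ d y A.top + A.len d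

/-- [F1 prn] Pruning a leaf from an unrooted network with at least three leaves.
PROOF. `T = (A, B)`. If `u ∈ A.leaves` and `A` is a node: `T' = (A', B)` by `S_Fprune` with `y := B.top` (`d` symmetric, `d z (vx u) ≥ 0`). If `A = leaf u`: `B` has at least two leaves, `B = node z l r`; `T' = (l, r)`: `d l.top
r.top ≤ d l.top z + d z r.top`, and `tlen T = d u z + d z l.top + d z r.top + len l + len r`. If `u ∈ B.leaves`: symmetric. -/
def S_Fprn : Prop :=
  ∀ (N : ℕ) (X : Pt N → Prop) (d : Pt N → Pt N → ℝ) (T : Net N × Net N), PM X d → NX X T.1 →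
    NX X T.2 → 3 ≤ (T.1.leaves ++ T.2.leaves).length → ∀ u ∈ T.1.leaves ++ T.2.leaves,
    ∃ T' : Net N × Net N,
      (u :: (T'.1.leaves ++ T'.2.leaves)).Perm (T.1.leaves ++ T.2.leaves) ∧
      (∀ z ∈ T'.1.nodes ++ T'.2.nodes, z ∈ T.1.nodes ++ T.2.nodes) ∧
      Net.tlen d T' ≤ Net.tlen d T

/-! ## Replacement of pieces -/

/-- [F1 rep] Replacement.
PROOF. (1) `MSTge` is monotone: `Ch S' a b r → Ch S a b r` for all `a b r` gives `MSTge Cl S M → MSTge Cl S' M` (immediate). (2) `InD`: `ok`: by cases of the membership. `conn`: every `Hst` step in `pre ++ q :: post` by a piece of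
`pre` or `post` is a step in the new configuration; a step by `q` is a chain by `jn`. `cnt`: sums over appended lists. `mst`: a chord of a piece of `pre`, `post` is a chord of the old configuration, a chord of `q' ∈ nu` gives one of
`q` by `chd` (`≤` transitive); (1). (3) `Lc` and `mu` of the old and new configurations are sums (`mu S = (S.map Piece.mu).sum` by `rfl`), so `o1` gives the first, and if `∑ L ≤ q.L` then `Lc new ≤ Lc old` and `o2` gives the
second. -/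
def S_Frep : Prop :=
  (∀ (N : ℕ) (Cl : Finset ℕ) (S S' : Cfg N) (M : ℝ), (∀ a b r, Ch S' a b r → Ch S a b r) →
    MSTge Cl S M → MSTge Cl S' M) ∧
  (∀ (N : ℕ) (Cl : Finset ℕ) (P : ℝ) (pre post : Cfg N) (q : Piece N) (nu : List (Piece N)),
    InD Cl P (pre ++ q :: post) → Rpl Cl P pre post q nu → InD Cl P (pre ++ nu ++ post)) ∧
  (∀ (N : ℕ) (Cl : Finset ℕ) (P : ℝ) (pre post : Cfg N) (q : Piece N) (nu : List (Piece N)),
    Mcal Cl P (pre ++ q :: post) → Rpl Cl P pre post q nu →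
    q.L ≤ (nu.map Piece.L).sum ∧
    ((nu.map Piece.L).sum ≤ q.L → q.mu ≤ (nu.map Piece.mu).sum))

/-- [F1 tr] TR, transfer.
PROOF. `q' = trp ..`. `Rpl Cl P pre post q [q']`: `ok`: `dok`, `wpos`, `labs`, `diam` given; nodes: `q'.nd = q.nd.map F` (`S_Fmap`), `inn` and `ok.nods` of `q`; leaves: `q'.lv = q.lv.map ν`, `lvs`. `chd`: given. `jn`: the classes of the
leaves of `q'` are `lab' (ν v) = q.lab v`, `v ∈ q.lv`, so any two classes of leaves of `q` are joined by one `Hst` step. `cnt`: equal lengths. `L`: `S_Fmap` with `X = In q.D.K`, `X' = In D'.K` (`S_Fpm`). (2) `S_Frep` (3):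
`q'.L ≤ q.L` gives `q.mu ≤ q'.mu`, that is `(n-1)^2 (N_D - 1) ≤ (n-1)^2 (N_{D'} - 1)` with `n = q.lv.length ≥ 2` (two nets with at least one leaf each), and `vl` has length at least 2. -/
def S_Ftr : Prop :=
  ∀ (N : ℕ) (Cl : Finset ℕ) (P : ℝ) (pre post : Cfg N) (q : Piece N) (D' : Dsc N)
    (p' : Fin N → E) (lab' : Fin N → ℕ) (F : Pt N → Pt N) (ν : Fin N → Fin N),
    Trf Cl P q D' p' lab' F ν →
    (InD Cl P (pre ++ q :: post) →
      InD Cl P (pre ++ trp q D' p' lab' F ν :: post) ∧ (trp q D' p' lab' F ν).L ≤ q.L ∧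
      (trp q D' p' lab' F ν).lv = q.lv.map ν ∧ (trp q D' p' lab' F ν).nd = q.nd.map F ∧
      (trp q D' p' lab' F ν).root = ν q.root) ∧
    (Mcal Cl P (pre ++ q :: post) → q.D.vl.length ≤ D'.vl.length)

/-! ## n-minimality -/

/-- [F1 nb] Pruning a superfluous leaf (non-bridge of the stars).
PROOF. `sts S` joins `Cl` (`S_Fst` (6)), has length `∑ (n_q - 1) ≥ Cl.card` and ends in `Cl`. `S_Ftree` (2) gives `sts S = L₁ ++ e :: L₂` with `L₁ ++ L₂` joining `Cl`; `S_Fcat` gives a decomposition of the list of stars; as this list is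
`S.map ..`, `S = pre ++ q :: post` with `stl (q.lv.map q.lab) = c₁ ++ e :: c₂`, `L₁ = sts pre ++ c₁`, `L₂ = c₂ ++ sts post` (`List.map_eq_append_iff`, `List.map_eq_cons_iff`). `q.lv = h :: t` and `t = t₁ ++ u :: t₂` with `c₁ = t₁.map (fun v => (q.lab h,
q.lab v))`, `e = (q.lab h, q.lab u)`, `c₂ = t₂.map ..`. If `t` has one element, take `S' = pre ++ post` (`c₁ = c₂ = []`; `Lc` drops by `q.L ≥ 0`, `S_Fpm`). Else `q.lv` has at least three elements: `S_Fprn` (with `X = In q.D.K`, `S_Fpm`) prunes `u`: `q' = wT q T'`,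
`(u :: q'.lv).Perm (h :: (t₁ ++ u :: t₂))`, so `q'.lv.Perm (h :: (t₁ ++ t₂))`; `S' = pre ++ q' :: post`. Each pair of `c₁`, `c₂` has both ends among the classes of leaves of `q'`, so it is an `Hst` step; so `HJ S'` joins `Cl` (as in `S_Fst` (6), (1)).
`q'.ok`: same disc, labels; nodes and leaves are among those of `q`. Count: `q'.lv.length + 1 = q.lv.length`. Chords: same discs and labels. -/
def S_Fnb : Prop :=
  ∀ (N : ℕ) (Cl : Finset ℕ) (P : ℝ) (S : Cfg N), Cl.Nonempty → (∀ q ∈ S, q.ok Cl P) →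
    (∀ a ∈ Cl, ∀ b ∈ Cl, HJ S a b) → Cl.card ≤ (S.map fun q => q.lv.length - 1).sum →
    ∃ S' : Cfg N, (∀ q ∈ S', q.ok Cl P) ∧ (∀ a ∈ Cl, ∀ b ∈ Cl, HJ S' a b) ∧
      (S'.map fun q => q.lv.length - 1).sum + 1 = (S.map fun q => q.lv.length - 1).sum ∧
      Lc S' ≤ Lc S ∧ ∀ a b r, Ch S' a b r → Ch S a b r

/-- [F1 mrg] Renaming the class `B` to `A` when a chord of length 0 joins them.
PROOF. Let `g c = if c = B then A else c`; `(rlb A B q).lab v = g (q.lab v)`, all other data are the same, in particular `d`, `L`, `lv`. `ok`: `g` maps `Cl` into `Cl.erase B` (`A ≠ B`). `conn`: `Hst S a b` gives `Hst S₁ (g a) (g b)`, and `g a = a` on `Cl.erase B`.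
`MSTge`: let `l` join `Cl.erase B`, its entries being chords of `S₁`. For `t ∈ l` there are classes `a_t`, `b_t` with `g a_t = t.1`, `g b_t = t.2.1`, `Ch S a_t b_t t.2.2`. Let `l₀` be the list of the `(a_t, b_t, t.2.2)` (for example by induction on `l`: there is
`l₀` with the same sum, all entries chords of `S`, and for every `t ∈ l` an entry `(a, b, r)` of `l₀` with `g a = t.1`, `g b = t.2.1`). Then `(A, B, 0) :: l₀` joins `Cl`: each `a ∈ Cl` is joined to `g a` (by `(A, B, 0)` if `a = B`), and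
each step `x → y` of `l` (say `x = g a`, `y = g b`) is the chain `x ← a → b → y`. So `1 ≤ 0 + sum l₀ = sum l`. -/
def S_Fmrg : Prop :=
  ∀ (N : ℕ) (Cl : Finset ℕ) (P : ℝ) (S : Cfg N) (A B : ℕ), A ∈ Cl → B ∈ Cl → A ≠ B →
    (∀ q ∈ S, q.ok Cl P) → (∀ a ∈ Cl, ∀ b ∈ Cl, HJ S a b) → MSTge Cl S 1 → Ch S A B 0 →
    (∀ q ∈ S.map (rlb A B), q.ok (Cl.erase B) P) ∧
    (∀ a ∈ Cl.erase B, ∀ b ∈ Cl.erase B, HJ (S.map (rlb A B)) a b) ∧
    MSTge (Cl.erase B) (S.map (rlb A B)) 1 ∧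
    Lc (S.map (rlb A B)) = Lc S ∧
    ((S.map (rlb A B)).map fun q => q.lv.length - 1).sum = (S.map fun q => q.lv.length - 1).sum

/-- [F1 nmin] n-minimality.
PROOF. Let `q.d (vx v) (vx w) = 0` with classes `A = q.lab v ≠ B = q.lab w`; `Ch S A B 0`. `S₁ = S.map (rlb A B)`, `Cl₁ = Cl.erase B ∋ A`, `Cl₁.card + 1 = Cl.card` (`S_Fmrg`). If `∑ (n_q - 1) + 1 ≤ Cl₁.card`: `InD Cl₁ P S₁`. Else `∑ (n_q - 1) ≥ Cl₁.card`, and `S_Fnb`
gives `S'` with `∑' + 1 = ∑ ≤ Cl.card - 1 = Cl₁.card`, and `MSTge Cl₁ S' 1` by monotonicity (`S_Frep` (1)): `InD Cl₁ P S'`, `Lc S' ≤ Lc S₁`. In both cases `ThmY (Cl₁.card)` gives `√3/2 ≤ Lc ≤ Lc S`, contradiction. -/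
def S_Fnmin : Prop :=
  ∀ (N : ℕ) (Cl : Finset ℕ) (P : ℝ) (S : Cfg N), InD Cl P S → Lc S < Real.sqrt 3 / 2 →
    (∀ n < Cl.card, ThmY n) → ∀ q ∈ S, ∀ v ∈ q.D.vl, ∀ w ∈ q.D.vl,
    q.d (vx v) (vx w) = 0 → q.lab v = q.lab w

/-- [F1 cls] The leaves of a piece have distinct classes.
PROOF. `S_star`: `Cl.card ≤ ∑ (|C_q| - 1) + 1`, `InD.cnt`: `∑ (n_q - 1) + 1 ≤ Cl.card`, and `|C_q| ≤ n_q` (`List.toFinset_card_le`) where `C_q = (q.lv.map q.lab).toFinset`, `1 ≤ |C_q|`, `n_q ≥ 2`. So the two sums of natural numbers are equal termwise: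
`|C_q| - 1 = n_q - 1`, `|C_q| = n_q` for every `q ∈ S`: `Nodup` (`List.toFinset_card_of_nodup` converse: `Multiset.toFinset_card_eq_card_iff_nodup`, `List.toFinset_card_eq..`). -/
def S_Fcls : Prop :=
  ∀ (N : ℕ) (Cl : Finset ℕ) (P : ℝ) (S : Cfg N), InD Cl P S → ∀ q ∈ S, (q.lv.map q.lab).Nodup

/-! ## Leaf edges, SPLIT -/

/-- [F1 leaf] (3.1) leaf edges are positive.
PROOF. `T' = (leaf v, B)`. Suppose `q.d (vx v) B.top = 0`. `B = leaf w`: `q.lab v = q.lab w` (`S_Fnmin`; `v w ∈ vl` as they are leaves) contradicts `S_Fcls` (`q.lv.Perm [v, w]`). `B = node z l r`: write `S = pre ++ q :: post`,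
`nu = [wT q (leaf v, l), wT q (leaf v, r)]`. `Rpl`: `ok` (same disc; nodes and leaves among those of `T'`), `chd` trivial, `jn`: the leaves of `q` are `v`, those of `l` and those of `r` (up to permutation), all joined through `v`; `cnt`:
`|l| + |r| = (1 + |l| + |r|) - 1`. Lengths: `d v l.top ≤ d v z + d z l.top = d z l.top`, same for `r`: `∑ L ≤ q.L = tlen T'`. So `S_Frep` (3): `q.mu ≤ ∑ mu`: `(a + b)^2 m ≤ a^2 m + b^2 m` with `a = |l| ≥ 1`, `b = |r| ≥ 1`,
`m = q.D.vl.length - 1 ≥ 1`: impossible. -/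
def S_Fleaf : Prop :=
  ∀ (N : ℕ) (Cl : Finset ℕ) (P : ℝ) (S : Cfg N), Mcal Cl P S → ∀ q ∈ S, ∀ T', Net.Eqv q.T T' →
    ∀ v, T'.1 = Net.leaf v → 0 < q.d (vx v) T'.2.top

/-- [F1 spa] (3.2) SPLIT, the leaf `u` is on the side of `A`.
PROOF. Case `A = leaf u'`: `u' = u`. `nu = [wT q (leaf w, B)]`. `Rpl`: `jn`: the leaves of `q` are `u` and the leaves of `B`; `u` is joined to `w` by the other pieces (`pre ++ post ⊆ pre ++ nu ++ post`, symmetric), `w` and the leaves of `B` are leaves of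
the new piece; `cnt`: equal. `S_Frep` (3): `q.L ≤ d w B.top + len B`, and `q.L = d u B.top + len B ≥ d u w + d w B.top + len B`, so `d u w ≤ 0`. Case `A` is a node: `S_Fprune` (with `X = In q.D.K`) gives `A'`, `z`;
`nu = [wT q (A', leaf w), wT q (leaf w, B)]`. `jn`: the leaves of `q` are `u`, those of `A'` (`(u :: A'.leaves).Perm A.leaves`) and those of `B`. `cnt`: `|A'| + |B| = |A| + |B| - 1`. Lengths: `d A'.top w + len A' ≤ d w A.top + len A - d z u` (`y := vx w`),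
so `∑ L ≤ d A.top w + d w B.top + len A + len B - d z u ≤ q.L - d z u`, while `q.L ≤ ∑ L`, so `d z u ≤ 0`. But `(A, B) ~ (leaf u, B'')` with `B''.top = z` and `S_Fleaf`: `0 < d u z`: contradiction. -/
def S_Fspa : Prop :=
  ∀ (N : ℕ) (Cl : Finset ℕ) (P : ℝ) (pre post : Cfg N) (q : Piece N), Mcal Cl P (pre ++ q :: post) →
    ∀ A B : Net N, Net.Eqv q.T (A, B) → ∀ w ∈ q.D.vl,
    q.d A.top (vx w) + q.d (vx w) B.top ≤ q.d A.top B.top →
    ∀ u ∈ A.leaves, HJ (pre ++ post) (q.lab w) (q.lab u) →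
    A = Net.leaf u ∧ q.d (vx u) (vx w) = 0

/-- [F1 split] (3.2) SPLIT.
PROOF. `S = pre ++ q :: post`; `S_Foth` with `c = q.lab w` gives a leaf `u` of `q` with `HJ (pre ++ post) (q.lab w) (q.lab u)`; `u ∈ T'.1.leaves` or `u ∈ T'.2.leaves`. First case: `S_Fspa`. Second case: `S_Fspa` with `(T'.2, T'.1)`, which is `~ q.T` by one more move `sw`, and
the inequality is symmetric (`d` symmetric). -/
def S_Fsplit : Prop :=
  ∀ (N : ℕ) (Cl : Finset ℕ) (P : ℝ) (S : Cfg N), Mcal Cl P S → ∀ q ∈ S, ∀ T', Net.Eqv q.T T' →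
    ∀ w ∈ q.D.vl, q.d T'.1.top (vx w) + q.d (vx w) T'.2.top ≤ q.d T'.1.top T'.2.top →
    (∃ u, T'.1 = Net.leaf u ∧ q.d (vx u) (vx w) = 0) ∨
    (∃ u, T'.2 = Net.leaf u ∧ q.d (vx u) (vx w) = 0)

/-- [F1 node] Nodes are at positive distance from all vertices.
PROOF. X3 (4): `T' ~ q.T` with `T'.1 = node z l r`. If `d z w = 0` then `d w T'.2.top ≤ d w z + d z T'.2.top`, so `d z w + d w T'.2.top ≤ d z T'.2.top`: SPLIT; `T'.1` is no leaf, so `T'.2 = leaf u` with `d u w = 0`. Then `d u z ≤ d u w + d w z = 0`, but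
`(T'.2, T'.1) ~ q.T` and `S_Fleaf` gives `0 < d u z`. -/
def S_Fnode : Prop :=
  ∀ (N : ℕ) (Cl : Finset ℕ) (P : ℝ) (S : Cfg N), Mcal Cl P S → ∀ q ∈ S, ∀ z ∈ q.nd,
    ∀ w ∈ q.D.vl, 0 < q.d z (vx w)

/-! ## Normalisations -/

/-- [F1 two] (3.8) a piece with two leaves is a segment.
PROOF. `q.T = (leaf u, leaf v)`, `u v ∈ vl`, `u ≠ v` (`S_Fcls`). `r = q.d (vx u) (vx v) = q.L ≤ Lc S < √3/2 < 1 ≤ P` (all pieces have `L ≥ 0`). Replace `q` by `q' = ⟨⟨u, v, nil, nil⟩, p', q.lab, q.T⟩`, `p' x = if x = u then 0 else EuclideanSpace.single 0 r`.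
`K' = {{u, v}}`, `dist (p' u) (p' v) = r`. `q'.d u v ≤ r` (one step, A2 (5)) and `q'.d u v ≥ r` (A3 with `ρ = ce p'`), `q'.d u u = 0`. `Rpl`: `chd` with `v' = v`, `w' = w` (`vl' = [u, v]`); `jn`: one step by `q'`. `∑ L ≤ q.L`, so `q.mu ≤ q'.mu`:
`1 * (q.D.vl.length - 1) ≤ 1 * 1`, so `q.D.P.vs ++ q.D.R.vs` is empty and `P`, `R` are `nil`. -/
def S_Ftwo : Prop :=
  ∀ (N : ℕ) (Cl : Finset ℕ) (P : ℝ) (S : Cfg N), Mcal Cl P S → ∀ q ∈ S, q.lv.length = 2 →
    q.D.P = PT.nil ∧ q.D.R = PT.nil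

/-- [F1 sc] Scaling of the positions.
PROOF. `pos (c • p) x = c • pos p x`, so `ce (c • p) x y = c * ce p x y` and paths correspond with lengths multiplied by `c`: the set of lengths is the image under `c * ·`; `sInf` (`Real.sInf_smul_of_nonneg`). `ar` is multiplied by `c ^ 2`. Nets: induction. -/
def S_Fsc : Prop :=
  ∀ (N : ℕ) (c : ℝ), 0 < c → ∀ p : Fin N → E,
    (∀ (K : Cx N) (x y : Pt N), dK K (ce fun v => c • p v) x y = c * dK K (ce p) x y) ∧
    (∀ D : Dsc N, D.WPos p → D.WPos fun v => c • p v) ∧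
    (∀ (d : Pt N → Pt N → ℝ) (T : Net N × Net N),
      Net.tlen (fun x y => c * d x y) T = c * Net.tlen d T)

/-- [F1 one] `0 < Lc S` and `MST = 1`.
PROOF. (1) `S` is not empty: otherwise `HJ` is equality, so `Cl.card ≤ 1` (`Finset.card_le_one`), and the empty list joins `Cl`: `MSTge Cl [] 1` gives `1 ≤ 0`. Let `q ∈ S`, `T' ~ q.T` with `T'.1` a leaf `v` (X3 (5)): `0 < q.d v T'.2.top ≤ tlen T' = q.L` (`S_Fleaf`,
`S_Fpm`) and the other pieces have `L ≥ 0`. (2) Let `MSTge Cl S M` with `M > 1`; `c = 1/M`, `S' = S.map fun q => ⟨q.D, fun v => c • q.p v, q.lab, q.T⟩`. `InD Cl P S'`: `ok`: `S_Fsc`, `dist (c • x) (c • y) = c * dist x y ≤ dist x y ≤ P`; `conn`, `cnt`: same leaves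
and labels. `mst`: if `l'` joins `Cl` and its entries are chords of `S'`, then the entries of `l = l'.map fun t => (t.1, t.2.1, M * t.2.2)` are chords of `S` (`q'.d = c * q.d`), `l` joins `Cl`, so `M ≤ M * sum l'`. `Lc S' = c * Lc S < Lc S`, against `o1`. -/
def S_Fone : Prop :=
  ∀ (N : ℕ) (Cl : Finset ℕ) (P : ℝ) (S : Cfg N), Mcal Cl P S →
    0 < Lc S ∧ ∀ M : ℝ, MSTge Cl S M → M ≤ 1

end Pool.Agent.Lib.MP_9f84a9_co
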